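import Pool.Agent.Lib.MP_b07157_agYX.Defs
import Pool.Agent.Lib.MP_b07157_agI.Sum
import Pool.Agent.Lib.MP_b07157_agM.TDefs

/-!
# Double points of the tangent cone in higher dimensions: definitions

The germs are in the variables `X_0, …, X_{t+2}`; a singular point of the tangent cone whose Hessian
matrix has corank at most one in the projective space.
-/

noncomputable section

namespace MPb07157

open MvPolynomial

namespace YG

open PC SU SI

/-- The chart `x_{j₀} = u`, `x_i = u (q_i + x_l)` of the blow-up of the origin, at the point `q`. -/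
def chP {n : ℕ} (q : Fin (n + 1) → ℂ) (j₀ : Fin (n + 1)) :
    Fin (n + 1) → MvPolynomial (Fin (n + 1)) ℂ := fun i =>
  X 0 * j₀.insertNth (α := fun _ => MvPolynomial (Fin (n + 1)) ℂ) 1
    (fun l : Fin n => X l.succ + C (q (j₀.succAbove l))) i

/-- The strict transform of `f` in the chart. -/
def hg {n : ℕ} (f : MvPolynomial (Fin (n + 1)) ℂ) (d : ℕ) (q : Fin (n + 1) → ℂ)
    (j₀ : Fin (n + 1)) : MvPolynomial (Fin (n + 1)) ℂ :=
  ∑ j ∈ Finset.range (f.totalDegree + 1),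
    X 0 ^ j * rename Fin.succ (gch (homogeneousComponent (d + j) f) q j₀)

/-- The truncated arcs `(u, x)` at the origin with `ord u = k` and `ord h = i`. -/
def AK {n : ℕ} (h : MvPolynomial (Fin (n + 1)) ℂ) (N k i : ℕ) :
    Set (Fin (n + 1) × Fin (N + 1) → ℂ) :=
  {γ | (∀ j, γ (j, 0) = 0) ∧ (arc γ 0).order = (k : ℕ∞) ∧
    (aeval (arc γ) h : PowerSeries ℂ).order = (i : ℕ∞)}

/-- The measure of `AK`. -/
def AKm {n : ℕ} (h : MvPolynomial (Fin (n + 1)) ℂ) (N k i : ℕ) : Mot :=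
  ↑((LU ^ ((n + 1) * (N + 1)))⁻¹) * clsM (AK h N k i)

/-- The series of the line `q`. -/
def lineSer {n : ℕ} (f : MvPolynomial (Fin (n + 1)) ℂ) (d : ℕ) (q : Fin (n + 1) → ℂ) :
    PowerSeries Mot :=
  serK (n + 1) d fun k i => Mk f d k (lineW q) (k + i) i

/-- The power series `k(u, y) + ∑ x_i²`, in the variables `(u, y, x)`. -/
def kzG (t : ℕ) (k : P2) : MvPowerSeries (Fin (t + 3)) ℂ :=
  MvPowerSeries.subst (fun j : Fin 2 =>
    (MvPowerSeries.X (Fin.castLE (by omega) j) : MvPowerSeries (Fin (t + 3)) ℂ)) k +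
    ∑ i : Fin (t + 1), MvPowerSeries.X i.succ.succ ^ 2

/-- `h` is `k(u, y) + ∑ x_i²`, up to a unit and a formal change of coordinates which preserves the
hyperplane `u = 0`. -/
def UEqG {t : ℕ} (h : MvPowerSeries (Fin (t + 3)) ℂ) (k : P2) : Prop :=
  ∃ (E : MvPowerSeries (Fin (t + 3)) ℂ ≃ₐ[ℂ] MvPowerSeries (Fin (t + 3)) ℂ)
    (u w : (MvPowerSeries (Fin (t + 3)) ℂ)ˣ),
    h = u * E (kzG t k) ∧ E (MvPowerSeries.X 0) = MvPowerSeries.X 0 *
      (w : MvPowerSeries (Fin (t + 3)) ℂ)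

/-- The germ at the origin is an isolated singularity: a power of each variable belongs to the ideal
of the partial derivatives, in the ring of power series. -/
def IsolG {n : ℕ} (f : MvPolynomial (Fin n) ℂ) : Prop :=
  ∃ N : ℕ, ∀ i : Fin n, (MvPowerSeries.X i : MvPowerSeries (Fin n) ℂ) ^ N ∈
    Ideal.span (Set.range fun j : Fin n => (pderiv j f : MvPowerSeries (Fin n) ℂ))

/-- A chart `(u, y, x) ↦ u ξ(u, y, x)` in which `f = u^d (k(u, y) + ∑ x_i²) U`. -/
structure IsChartG {t : ℕ} (f : MvPolynomial (Fin (t + 3)) ℂ) (d : ℕ) (k : P2)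
    (ξ : Fin (t + 3) → MvPowerSeries (Fin (t + 3)) ℂ) (U D : MvPowerSeries (Fin (t + 3)) ℂ) :
    Prop where
  hU : MvPowerSeries.constantCoeff U ≠ 0
  hD : MvPowerSeries.constantCoeff D ≠ 0
  hξ : ∃ i, MvPowerSeries.constantCoeff (ξ i) ≠ 0
  hf : (MvPowerSeries.subst (fun i => MvPowerSeries.X 0 * ξ i)
    (f : MvPowerSeries (Fin (t + 3)) ℂ) : MvPowerSeries (Fin (t + 3)) ℂ) =
      MvPowerSeries.X 0 ^ d * (kzG t k * U)
  hdet : (Matrix.of fun i j : Fin (t + 3) => MvPowerSeries.pderiv ℂ j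
    (MvPowerSeries.X 0 * ξ i : MvPowerSeries (Fin (t + 3)) ℂ)).det =
      MvPowerSeries.X 0 ^ (t + 2) * D

end YG

end MPb07157
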