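import Pool.Agent.Lib.MP_b07157_agYG.NfN
import Pool.Agent.Lib.MP_b07157_agYL.Hess

/-!
# The normal form at a singular point of the tangent cone
-/

noncomputable section

namespace MPb07157

open MvPolynomial

namespace YG

open PC SU SI

/-- The derivatives of the germ in the chart. -/
private theorem pderiv_gchG {n : ℕ} (F : MvPolynomial (Fin (n + 1)) ℂ) (q : Fin (n + 1) → ℂ)
    (j₀ : Fin (n + 1)) (i : Fin n) :
    pderiv i (gch F q j₀) = gch (pderiv (j₀.succAbove i) F) q j₀ := by
  classical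
  unfold gch
  induction F using MvPolynomial.induction_on with
  | C a => simp
  | add p r hp hr => simp only [map_add, hp, hr]
  | mul_X p l hp =>
    rw [map_mul, aeval_X, Derivation.leibniz, hp, Derivation.leibniz, map_add, smul_eq_mul,
      smul_eq_mul, smul_eq_mul, smul_eq_mul, map_mul, map_mul, aeval_X]
    rcases Fin.eq_self_or_eq_succAbove j₀ l with rfl | ⟨m, rfl⟩
    · rw [Fin.insertNth_apply_same, pderiv_one, pderiv_X_of_ne (Fin.succAbove_ne _ _).symm]
      simp
    · rw [Fin.insertNth_apply_succAbove, map_add, pderiv_C, add_zero]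
      by_cases h : m = i
      · subst h
        rw [pderiv_X_self, pderiv_X_self, map_one]
      · rw [pderiv_X_of_ne h, pderiv_X_of_ne (fun hh => h (Fin.succAbove_right_injective hh))]
        simp

private theorem constantCoeff_gchG {n : ℕ} (F : MvPolynomial (Fin (n + 1)) ℂ)
    {q : Fin (n + 1) → ℂ} {j₀ : Fin (n + 1)} (hq : q j₀ = 1) :
    constantCoeff (gch F q j₀) = eval q F := by
  unfold gch
  induction F using MvPolynomial.induction_on with
  | C a => simp
  | add p r hp hr => simp only [map_add, hp, hr]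
  | mul_X p l hp =>
    rw [map_mul, map_mul, map_mul, hp, aeval_X, eval_X]
    congr 1
    rcases Fin.eq_self_or_eq_succAbove j₀ l with rfl | ⟨m, rfl⟩
    · rw [Fin.insertNth_apply_same, map_one, hq]
    · rw [Fin.insertNth_apply_succAbove]
      simp

/-- The constant coefficient of a polynomial. -/
theorem cc_coeG {n : ℕ} (f : MvPolynomial (Fin n) ℂ) :
    MvPowerSeries.constantCoeff (f : MvPowerSeries (Fin n) ℂ) = constantCoeff f := by
  rw [← MvPowerSeries.coeff_zero_eq_constantCoeff_apply, MvPolynomial.coeff_coe]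
  rfl

private theorem cc_hgsumG {n : ℕ} (N : ℕ) (G : ℕ → MvPolynomial (Fin n) ℂ) :
    constantCoeff (∑ j ∈ Finset.range (N + 1),
      (X 0 : MvPolynomial (Fin (n + 1)) ℂ) ^ j * rename Fin.succ (G j)) =
        constantCoeff (G 0) := by
  rw [Finset.sum_range_succ', map_add, map_sum, Finset.sum_eq_zero, zero_add, pow_zero, one_mul,
    constantCoeff_rename]
  intro j _
  rw [pow_succ, mul_assoc, map_mul, map_mul]
  simp

private theorem pd_hgsumG {n : ℕ} (N : ℕ) (G : ℕ → MvPolynomial (Fin n) ℂ) (i : Fin n) :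
    pderiv i.succ (∑ j ∈ Finset.range (N + 1),
      (X 0 : MvPolynomial (Fin (n + 1)) ℂ) ^ j * rename Fin.succ (G j)) =
      ∑ j ∈ Finset.range (N + 1),
        (X 0 : MvPolynomial (Fin (n + 1)) ℂ) ^ j * rename Fin.succ (pderiv i (G j)) := by
  classical
  rw [map_sum]
  refine Finset.sum_congr rfl fun j _ => ?_
  rw [Derivation.leibniz, Derivation.leibniz_pow, pderiv_X_of_ne (Fin.succ_ne_zero i).symm,
    smul_zero, smul_zero, smul_zero, add_zero, smul_eq_mul, pderiv_rename (Fin.succ_injective _)]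

/-- The partial derivatives commute. -/
theorem pd_commG {n : ℕ} (i j : Fin n) (F : MvPolynomial (Fin n) ℂ) :
    pderiv i (pderiv j F) = pderiv j (pderiv i F) := by
  classical
  induction F using MvPolynomial.induction_on with
  | C a => simp
  | add p r hp hr => simp only [map_add, hp, hr]
  | mul_X p l hp =>
    have hX : ∀ a b : Fin n, pderiv a (pderiv b (X l : MvPolynomial (Fin n) ℂ)) = 0 := by
      intro a b
      by_cases h : l = b
      · subst h
        rw [pderiv_X_self, pderiv_one]
      · rw [pderiv_X_of_ne h, map_zero]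
    simp only [Derivation.leibniz, map_add, smul_eq_mul, hp, hX]
    ring

/-- The rank of a symmetric matrix which kills `q`, `q_{j₀} = 1`, is at most the rank of the block
without `j₀`. -/
theorem rank_le_block {n : ℕ} {A : Matrix (Fin (n + 1)) (Fin (n + 1)) ℂ}
    {q : Fin (n + 1) → ℂ} {j₀ : Fin (n + 1)} (hq : q j₀ = 1) (hsymm : ∀ i j, A i j = A j i)
    (hAq : ∀ i, ∑ j, A i j * q j = 0) :
    A.rank ≤ (Matrix.of fun i j : Fin n => A (j₀.succAbove i) (j₀.succAbove j)).rank := by
  classical
  set B : Matrix (Fin n) (Fin n) ℂ :=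
    Matrix.of fun i j : Fin n => A (j₀.succAbove i) (j₀.succAbove j) with hB
  set P : Matrix (Fin n) (Fin (n + 1)) ℂ := Matrix.of fun l i =>
    j₀.insertNth (α := fun _ => ℂ) (-q (j₀.succAbove l)) (fun m => if l = m then 1 else 0) i with hP
  have hP0 : ∀ l, P l j₀ = -q (j₀.succAbove l) := fun l => by
    rw [hP, Matrix.of_apply, Fin.insertNth_apply_same]
  have hPs : ∀ l m, P l (j₀.succAbove m) = if l = m then 1 else 0 := fun l m => by
    rw [hP, Matrix.of_apply, Fin.insertNth_apply_succAbove]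
  have hrow : ∀ i, A i j₀ = -∑ m, A i (j₀.succAbove m) * q (j₀.succAbove m) := by
    intro i
    have h1 := hAq i
    rw [Fin.sum_univ_succAbove _ j₀, hq, mul_one] at h1
    rw [eq_neg_iff_add_eq_zero]
    exact h1
  have hBP : ∀ l j, (B * P) l j = A (j₀.succAbove l) j := by
    intro l j
    rw [Matrix.mul_apply]
    rcases Fin.eq_self_or_eq_succAbove j₀ j with rfl | ⟨m, rfl⟩
    · rw [hrow (j.succAbove l), ← Finset.sum_neg_distrib]
      refine Finset.sum_congr rfl fun m _ => ?_
      rw [hP0, mul_neg]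
      rfl
    · rw [Finset.sum_eq_single m]
      · rw [hPs, if_pos rfl, mul_one]
        rfl
      · intro b _ hb
        rw [hPs, if_neg hb, mul_zero]
      · intro h
        exact absurd (Finset.mem_univ _) h
  have hA : A = P.transpose * (B * P) := by
    ext i j
    rw [Matrix.mul_apply]
    simp only [Matrix.transpose_apply, hBP]
    rcases Fin.eq_self_or_eq_succAbove j₀ i with rfl | ⟨m, rfl⟩
    · rw [hsymm i j, hrow j, ← Finset.sum_neg_distrib]
      refine Finset.sum_congr rfl fun m _ => ?_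
      rw [hP0, hsymm j]
      ring
    · rw [Finset.sum_eq_single m]
      · rw [hPs, if_pos rfl, one_mul]
      · intro b _ hb
        rw [hPs, if_neg hb, zero_mul]
      · intro h
        exact absurd (Finset.mem_univ _) h
  rw [hA]
  exact (Matrix.rank_mul_le_right _ _).trans (Matrix.rank_mul_le_left _ _)

variable {t : ℕ} {f : MvPolynomial (Fin (t + 3)) ℂ} {d : ℕ} {q : Fin (t + 3) → ℂ}
  {j₀ : Fin (t + 3)}

private theorem cc_hgG (hq : q j₀ = 1) (h0 : eval q (homogeneousComponent d f) = 0) :
    MvPowerSeries.constantCoeff (hg f d q j₀ : MvPowerSeries (Fin (t + 3)) ℂ) = 0 := by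
  rw [cc_coeG, hg, cc_hgsumG, constantCoeff_gchG _ hq]
  exact h0

private theorem cc_pd_hgG (hq : q j₀ = 1)
    (hs : ∀ j, eval q (pderiv j (homogeneousComponent d f)) = 0) (i : Fin (t + 2)) :
    MvPowerSeries.constantCoeff (MvPowerSeries.pderiv ℂ i.succ
      (hg f d q j₀ : MvPowerSeries (Fin (t + 3)) ℂ)) = 0 := by
  rw [MvPowerSeries.pderiv_coe, cc_coeG, hg, pd_hgsumG, cc_hgsumG, pderiv_gchG,
    constantCoeff_gchG _ hq]
  exact hs _

private theorem hess_hgG (hq : q j₀ = 1) :
    (Matrix.of fun i j : Fin (t + 2) => MvPowerSeries.constantCoeff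
      (MvPowerSeries.pderiv ℂ i.succ (MvPowerSeries.pderiv ℂ j.succ
        (hg f d q j₀ : MvPowerSeries (Fin (t + 3)) ℂ))) :
          Matrix (Fin (t + 2)) (Fin (t + 2)) ℂ) =
      Matrix.of fun i j : Fin (t + 2) =>
        hessAt (homogeneousComponent d f) q (j₀.succAbove i) (j₀.succAbove j) := by
  ext i j
  rw [Matrix.of_apply, Matrix.of_apply, MvPowerSeries.pderiv_coe, MvPowerSeries.pderiv_coe, cc_coeG,
    hg, pd_hgsumG, pd_hgsumG, cc_hgsumG, pderiv_gchG, pderiv_gchG, constantCoeff_gchG _ hq]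
  rfl

private theorem rank_hgG (hq : q j₀ = 1)
    (hs : ∀ j, eval q (pderiv j (homogeneousComponent d f)) = 0) :
    (hessAt (homogeneousComponent d f) q).rank ≤
      (Matrix.of fun i j : Fin (t + 2) => MvPowerSeries.constantCoeff
        (MvPowerSeries.pderiv ℂ i.succ (MvPowerSeries.pderiv ℂ j.succ
          (hg f d q j₀ : MvPowerSeries (Fin (t + 3)) ℂ))) :
            Matrix (Fin (t + 2)) (Fin (t + 2)) ℂ).rank := by
  rw [hess_hgG hq]
  refine rank_le_block hq (fun i j => ?_) fun i => ?_
  · unfold hessAt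
    rw [Matrix.of_apply, Matrix.of_apply, pd_commG]
  · have hF := homogeneousComponent_isHomogeneous d f
    have h1 := (hF.pderiv (i := i)).sum_X_mul_pderiv
    have h2 := congrArg (eval q) h1
    rw [map_sum, map_nsmul, hs i, smul_zero] at h2
    rw [← h2]
    refine Finset.sum_congr rfl fun j _ => ?_
    unfold hessAt
    rw [Matrix.of_apply, map_mul, eval_X, mul_comm, pd_commG]

/-- The Hessian matrix of `f_d` at `q` kills `q` (Euler), so its rank is the rank of the block
without `j₀`, which is the Hessian matrix of `hg` in the directions `X_1, …, X_{t+2}`. -/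
theorem exists_ueqG_hg (hq : q j₀ = 1) (h0 : eval q (homogeneousComponent d f) = 0)
    (hs : ∀ j, eval q (pderiv j (homogeneousComponent d f)) = 0)
    (hr : t + 1 ≤ (hessAt (homogeneousComponent d f) q).rank) :
    ∃ k : P2, MvPowerSeries.constantCoeff k = 0 ∧
      UEqG (hg f d q j₀ : MvPowerSeries (Fin (t + 3)) ℂ) k :=
  exists_ueqG (cc_hgG hq h0) (cc_pd_hgG hq hs) (hr.trans (rank_hgG hq hs))

/-- The case of a node. -/
theorem exists_ueqG_hg_node (hq : q j₀ = 1) (h0 : eval q (homogeneousComponent d f) = 0)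
    (hs : ∀ j, eval q (pderiv j (homogeneousComponent d f)) = 0)
    (hr : (hessAt (homogeneousComponent d f) q).rank = t + 2) :
    UEqG (hg f d q j₀ : MvPowerSeries (Fin (t + 3)) ℂ) (MvPowerSeries.X 1 ^ 2) ∨
      ∃ κ, 0 < κ ∧ UEqG (hg f d q j₀ : MvPowerSeries (Fin (t + 3)) ℂ)
        (MvPowerSeries.X 1 ^ 2 + MvPowerSeries.X 0 ^ κ) := by
  refine exists_ueqG_node (cc_hgG hq h0) (cc_pd_hgG hq hs) (le_antisymm ?_ ?_)
  · have h1 := Matrix.rank_le_card_width (Matrix.of fun i j : Fin (t + 2) =>
      MvPowerSeries.constantCoeff (MvPowerSeries.pderiv ℂ i.succ (MvPowerSeries.pderiv ℂ j.succ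
        (hg f d q j₀ : MvPowerSeries (Fin (t + 3)) ℂ))) : Matrix (Fin (t + 2)) (Fin (t + 2)) ℂ)
    rwa [Fintype.card_fin] at h1
  · exact hr.symm.le.trans (rank_hgG hq hs)

end YG

end MPb07157
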