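import Pool.Agent.Lib.MP_b07157_agYG.Defs
import Pool.Agent.Lib.MP_b07157_agYX.Ch2

/-!
# The chart of the blow-up in the coordinates of the normal form
-/

noncomputable section

namespace MPb07157

open MvPolynomial

namespace YG

open PC SU SI

namespace ChGaux

/-- The partial derivatives of the variables. -/
theorem pderiv_X {n : ℕ} (i j : Fin n) :
    MvPowerSeries.pderiv ℂ i (MvPowerSeries.X j : MvPowerSeries (Fin n) ℂ) =
      if i = j then 1 else 0 := by
  rw [← MvPolynomial.coe_X, MvPowerSeries.pderiv_coe, MvPolynomial.pderiv_X, Pi.single_apply]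
  by_cases h : i = j
  · rw [if_pos h, if_pos h.symm, MvPolynomial.coe_one]
  · rw [if_neg h, if_neg (fun h' => h h'.symm), MvPolynomial.coe_zero]

/-- The Jacobian determinant of an automorphism is a unit. -/
theorem isUnit_det {n : ℕ} (e : MvPowerSeries (Fin n) ℂ ≃ₐ[ℂ] MvPowerSeries (Fin n) ℂ) :
    IsUnit (Matrix.of fun k j : Fin n =>
      MvPowerSeries.pderiv ℂ j (e (MvPowerSeries.X k : MvPowerSeries (Fin n) ℂ))).det := by
  have h1 : ∀ e' : MvPowerSeries (Fin n) ℂ ≃ₐ[ℂ] MvPowerSeries (Fin n) ℂ,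
      (Matrix.of fun k j : Fin n => e' (MvPowerSeries.pderiv ℂ j
        (e'.symm (MvPowerSeries.X k : MvPowerSeries (Fin n) ℂ)))) *
      (Matrix.of fun k j : Fin n =>
        MvPowerSeries.pderiv ℂ j (e' (MvPowerSeries.X k : MvPowerSeries (Fin n) ℂ))) = 1 := by
    intro e'
    ext1 k i
    rw [Matrix.mul_apply, Matrix.one_apply]
    have h2 := pderiv_equiv e' i (e'.symm (MvPowerSeries.X k : MvPowerSeries (Fin n) ℂ))
    rw [AlgEquiv.apply_symm_apply, pderiv_X] at h2
    simp only [Matrix.of_apply]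
    rw [show (if k = i then (1 : MvPowerSeries (Fin n) ℂ) else 0) = if i = k then 1 else 0 by
      by_cases h : k = i
      · rw [if_pos h, if_pos h.symm]
      · rw [if_neg h, if_neg (fun h' => h h'.symm)], h2]
    exact Finset.sum_congr rfl fun j _ => mul_comm _ _
  have h3 := congrArg Matrix.det (h1 e)
  rw [Matrix.det_mul, Matrix.det_one] at h3
  exact IsUnit.of_mul_eq_one_right _ h3

/-- The Jacobian matrix of the image under an automorphism. -/
theorem det_equiv {n : ℕ} (e : MvPowerSeries (Fin n) ℂ ≃ₐ[ℂ] MvPowerSeries (Fin n) ℂ)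
    (c : Fin n → MvPowerSeries (Fin n) ℂ) :
    (Matrix.of fun i j : Fin n => MvPowerSeries.pderiv ℂ j (e (c i))).det =
      e (Matrix.of fun i j : Fin n => MvPowerSeries.pderiv ℂ j (c i)).det *
        (Matrix.of fun k j : Fin n =>
          MvPowerSeries.pderiv ℂ j (e (MvPowerSeries.X k : MvPowerSeries (Fin n) ℂ))).det := by
  have h1 : e (Matrix.of fun i j : Fin n => MvPowerSeries.pderiv ℂ j (c i)).det =
      (Matrix.of fun i j : Fin n => e (MvPowerSeries.pderiv ℂ j (c i))).det := by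
    have h2 := RingHom.map_det ((e : MvPowerSeries (Fin n) ℂ →ₐ[ℂ] MvPowerSeries (Fin n) ℂ) :
      MvPowerSeries (Fin n) ℂ →+* MvPowerSeries (Fin n) ℂ)
      (Matrix.of fun i j : Fin n => MvPowerSeries.pderiv ℂ j (c i))
    exact h2
  rw [h1, ← Matrix.det_mul]
  refine congrArg Matrix.det ?_
  ext1 i j
  rw [Matrix.mul_apply]
  simp only [Matrix.of_apply]
  rw [pderiv_equiv e j (c i)]
  exact Finset.sum_congr rfl fun k _ => mul_comm _ _

/-- The chart as a family of power series. -/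
def chS {n : ℕ} (q : Fin (n + 1) → ℂ) (j₀ : Fin (n + 1)) :
    Fin (n + 1) → MvPowerSeries (Fin (n + 1)) ℂ :=
  j₀.insertNth (α := fun _ => MvPowerSeries (Fin (n + 1)) ℂ) 1
    (fun l : Fin n => MvPowerSeries.X l.succ + algebraMap ℂ _ (q (j₀.succAbove l)))

theorem coe_chP {n : ℕ} (q : Fin (n + 1) → ℂ) (j₀ i : Fin (n + 1)) :
    ((chP q j₀ i : MvPolynomial (Fin (n + 1)) ℂ) : MvPowerSeries (Fin (n + 1)) ℂ) =
      MvPowerSeries.X 0 * chS q j₀ i := by
  unfold chP chS
  rw [MvPolynomial.coe_mul, MvPolynomial.coe_X]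
  refine congrArg (fun y => MvPowerSeries.X 0 * y) ?_
  refine Fin.succAboveCases j₀ ?_ (fun l => ?_) i
  · rw [Fin.insertNth_apply_same, Fin.insertNth_apply_same, MvPolynomial.coe_one]
  · rw [Fin.insertNth_apply_succAbove, Fin.insertNth_apply_succAbove, MvPolynomial.coe_add,
      MvPolynomial.coe_X, MvPolynomial.coe_C]
    rfl

theorem det_chS {n : ℕ} (q : Fin (n + 1) → ℂ) (j₀ : Fin (n + 1)) :
    (Matrix.of fun i j : Fin (n + 1) => MvPowerSeries.pderiv ℂ j
      (MvPowerSeries.X 0 * chS q j₀ i : MvPowerSeries (Fin (n + 1)) ℂ)).det =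
      (-1) ^ (j₀ : ℕ) * MvPowerSeries.X 0 ^ n := by
  rw [Matrix.det_succ_row _ j₀, Finset.sum_eq_single 0]
  · have h1 : chS q j₀ j₀ = 1 := by
      unfold chS
      rw [Fin.insertNth_apply_same]
    have h2 : (Matrix.of fun i j : Fin (n + 1) => MvPowerSeries.pderiv ℂ j
        (MvPowerSeries.X 0 * chS q j₀ i : MvPowerSeries (Fin (n + 1)) ℂ)).submatrix
          j₀.succAbove (0 : Fin (n + 1)).succAbove =
        Matrix.diagonal fun _ : Fin n => (MvPowerSeries.X 0 : MvPowerSeries (Fin (n + 1)) ℂ) := by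
      ext1 l m
      rw [Matrix.submatrix_apply, Matrix.of_apply, Fin.zero_succAbove]
      have h3 : chS q j₀ (j₀.succAbove l) =
          MvPowerSeries.X l.succ + algebraMap ℂ _ (q (j₀.succAbove l)) := by
        unfold chS
        rw [Fin.insertNth_apply_succAbove]
      rw [h3, Derivation.leibniz, map_add, Derivation.map_algebraMap, add_zero, pderiv_X,
        pderiv_X, if_neg (Fin.succ_ne_zero m), smul_zero, add_zero, smul_eq_mul,
        Matrix.diagonal_apply]
      by_cases h4 : l = m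
      · rw [if_pos h4, if_pos (congrArg Fin.succ h4.symm), mul_one]
      · rw [if_neg h4, if_neg (fun h5 => h4 (Fin.succ_injective _ h5).symm), mul_zero]
    rw [h2, Matrix.det_diagonal, Finset.prod_const, Finset.card_univ, Fintype.card_fin,
      Matrix.of_apply, h1, mul_one, pderiv_X, if_pos rfl, mul_one, Fin.val_zero, add_zero]
  · intro j _ hj
    have h1 : chS q j₀ j₀ = 1 := by
      unfold chS
      rw [Fin.insertNth_apply_same]
    rw [Matrix.of_apply, h1, mul_one, pderiv_X, if_neg hj, mul_zero, zero_mul]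
  · intro h
    exact absurd (Finset.mem_univ _) h

/-- The germ in the chart, with the new variables. -/
theorem rename_gch {n : ℕ} (F : MvPolynomial (Fin (n + 1)) ℂ) (q : Fin (n + 1) → ℂ)
    (j₀ : Fin (n + 1)) :
    rename Fin.succ (gch F q j₀) =
      aeval (j₀.insertNth (α := fun _ => MvPolynomial (Fin (n + 1)) ℂ) 1
        (fun l : Fin n => X l.succ + C (q (j₀.succAbove l)))) F := by
  unfold gch
  have h : (rename (R := ℂ) Fin.succ).comp (aeval (j₀.insertNth
      (α := fun _ => MvPolynomial (Fin n) ℂ) 1 fun i => X i + C (q (j₀.succAbove i)))) =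
      aeval (j₀.insertNth (α := fun _ => MvPolynomial (Fin (n + 1)) ℂ) 1
        (fun l : Fin n => X l.succ + C (q (j₀.succAbove l)))) := by
    apply algHom_ext
    intro i
    rw [AlgHom.comp_apply, aeval_X, aeval_X]
    rcases Fin.eq_self_or_eq_succAbove j₀ i with rfl | ⟨l, rfl⟩
    · rw [Fin.insertNth_apply_same, Fin.insertNth_apply_same, map_one]
    · rw [Fin.insertNth_apply_succAbove, Fin.insertNth_apply_succAbove, map_add, rename_X,
        rename_C]
  exact congrArg (fun g => g F) h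

/-- The value of `f` on the chart. -/
theorem aeval_chP {n : ℕ} {f : MvPolynomial (Fin (n + 1)) ℂ} {d : ℕ}
    (hlow : ∀ j < d, homogeneousComponent j f = 0) (q : Fin (n + 1) → ℂ) (j₀ : Fin (n + 1)) :
    aeval (chP q j₀) f = X 0 ^ d * hg f d q j₀ := by
  have hc : ∀ j, aeval (chP q j₀) (homogeneousComponent j f) =
      X 0 ^ j * rename Fin.succ (gch (homogeneousComponent j f) q j₀) := by
    intro j
    rw [rename_gch, ← YL.aeval_mul_form (homogeneousComponent_isHomogeneous j f)]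
    rfl
  have hs : ∀ N, f.totalDegree < N → f = ∑ j ∈ Finset.range N, homogeneousComponent j f := by
    intro N hN
    conv_lhs => rw [← sum_homogeneousComponent f]
    refine Finset.sum_subset (Finset.range_mono (by omega)) fun j _ hj => ?_
    rw [Finset.mem_range, not_lt] at hj
    exact homogeneousComponent_eq_zero _ _ (by omega)
  conv_lhs => rw [hs (d + (f.totalDegree + 1)) (by omega)]
  rw [Finset.sum_range_add, map_add, map_sum, map_sum]
  rw [Finset.sum_eq_zero (s := Finset.range d), zero_add]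
  · unfold hg
    rw [Finset.mul_sum]
    refine Finset.sum_congr rfl fun j _ => ?_
    rw [hc, pow_add, mul_assoc]
  · intro j hj
    rw [hlow j (Finset.mem_range.1 hj), map_zero]

end ChGaux

open ChGaux in
/-- As `YX.exists_chart` (`agYX/Ch2.lean`). -/
theorem exists_chartG {t : ℕ} {f : MvPolynomial (Fin (t + 3)) ℂ} {d : ℕ}
    (hlow : ∀ j < d, homogeneousComponent j f = 0) {q : Fin (t + 3) → ℂ} {j₀ : Fin (t + 3)}
    {k : P2} (he : UEqG (hg f d q j₀ : MvPowerSeries (Fin (t + 3)) ℂ) k) :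
    ∃ (ξ : Fin (t + 3) → MvPowerSeries (Fin (t + 3)) ℂ) (U D : MvPowerSeries (Fin (t + 3)) ℂ),
      IsChartG f d k ξ U D := by
  obtain ⟨E, u, w, h1, h2⟩ := he
  have hcc : ∀ {x : MvPowerSeries (Fin (t + 3)) ℂ}, IsUnit x →
      MvPowerSeries.constantCoeff x ≠ 0 := by
    intro x hx
    exact (hx.map (MvPowerSeries.constantCoeff (σ := Fin (t + 3)) (R := ℂ))).ne_zero
  -- the image of the first variable
  obtain ⟨w', hw', hw1⟩ : ∃ w' : MvPowerSeries (Fin (t + 3)) ℂ, IsUnit w' ∧
      E.symm (MvPowerSeries.X 0) = MvPowerSeries.X 0 * w' := by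
    refine ⟨E.symm (↑(w⁻¹) : MvPowerSeries (Fin (t + 3)) ℂ), (w⁻¹).isUnit.map E.symm, ?_⟩
    have h3 : (MvPowerSeries.X 0 : MvPowerSeries (Fin (t + 3)) ℂ) =
        E.symm (MvPowerSeries.X 0) * E.symm (w : MvPowerSeries (Fin (t + 3)) ℂ) := by
      rw [← map_mul, ← h2, AlgEquiv.symm_apply_apply]
    have h4 : E.symm (w : MvPowerSeries (Fin (t + 3)) ℂ) *
        E.symm (↑(w⁻¹) : MvPowerSeries (Fin (t + 3)) ℂ) = 1 := by
      rw [← map_mul, Units.mul_inv, map_one]
    calc E.symm (MvPowerSeries.X 0) = E.symm (MvPowerSeries.X 0) *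
          (E.symm (w : MvPowerSeries (Fin (t + 3)) ℂ) *
            E.symm (↑(w⁻¹) : MvPowerSeries (Fin (t + 3)) ℂ)) := by rw [h4, mul_one]
      _ = _ := by rw [← mul_assoc, ← h3]
  have hchP : ∀ i, E.symm ((chP q j₀ i : MvPolynomial (Fin (t + 3)) ℂ) :
      MvPowerSeries (Fin (t + 3)) ℂ) = MvPowerSeries.X 0 * (w' * E.symm (chS q j₀ i)) := by
    intro i
    rw [coe_chP, map_mul, hw1, mul_assoc]
  refine ⟨fun i => w' * E.symm (chS q j₀ i),
    w' ^ d * E.symm (u : MvPowerSeries (Fin (t + 3)) ℂ),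
    (-1) ^ (j₀ : ℕ) * w' ^ (t + 2) * (Matrix.of fun k j : Fin (t + 3) => MvPowerSeries.pderiv ℂ j
      (E.symm (MvPowerSeries.X k : MvPowerSeries (Fin (t + 3)) ℂ))).det, ?_, ?_, ?_, ?_, ?_⟩
  · exact hcc ((hw'.pow d).mul (u.isUnit.map E.symm))
  · refine hcc (((IsUnit.pow _ ?_).mul (hw'.pow (t + 2))).mul (isUnit_det E.symm))
    exact isUnit_one.neg
  · refine ⟨j₀, hcc (hw'.mul ?_)⟩
    have h3 : chS q j₀ j₀ = 1 := by
      unfold chS
      rw [Fin.insertNth_apply_same]
    rw [h3, map_one]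
    exact isUnit_one
  · rw [MvPowerSeries.subst_coe]
    have h5 := congrArg (fun p : MvPolynomial (Fin (t + 3)) ℂ =>
      (p : MvPowerSeries (Fin (t + 3)) ℂ)) (aeval_chP hlow q j₀)
    have h6 : ((aeval (chP q j₀) f : MvPolynomial (Fin (t + 3)) ℂ) :
        MvPowerSeries (Fin (t + 3)) ℂ) =
        aeval (fun i => ((chP q j₀ i : MvPolynomial (Fin (t + 3)) ℂ) :
          MvPowerSeries (Fin (t + 3)) ℂ)) f := by
      have h7 : (MvPolynomial.coeToMvPowerSeries.ringHom (R := ℂ) (σ := Fin (t + 3))).comp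
          ((aeval (chP q j₀) : MvPolynomial (Fin (t + 3)) ℂ →ₐ[ℂ] MvPolynomial (Fin (t + 3)) ℂ) :
            MvPolynomial (Fin (t + 3)) ℂ →+* _) =
          ((aeval (fun i => ((chP q j₀ i : MvPolynomial (Fin (t + 3)) ℂ) :
            MvPowerSeries (Fin (t + 3)) ℂ)) :
            MvPolynomial (Fin (t + 3)) ℂ →ₐ[ℂ] MvPowerSeries (Fin (t + 3)) ℂ) :
              MvPolynomial (Fin (t + 3)) ℂ →+* _) := by
        refine MvPolynomial.ringHom_ext (fun c => ?_) (fun i => ?_)
        · rw [RingHom.comp_apply, RingHom.coe_coe, RingHom.coe_coe, aeval_C, aeval_C]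
          rw [MvPolynomial.algebraMap_eq, MvPolynomial.coeToMvPowerSeries.ringHom_apply,
            MvPolynomial.coe_C]
          rfl
        · rw [RingHom.comp_apply, RingHom.coe_coe, RingHom.coe_coe, aeval_X, aeval_X,
            MvPolynomial.coeToMvPowerSeries.ringHom_apply]
      exact congrArg (fun φ : MvPolynomial (Fin (t + 3)) ℂ →+*
        MvPowerSeries (Fin (t + 3)) ℂ => φ f) h7
    have h9 := congrArg E.symm (h6.symm.trans h5)
    have h10 := MvPolynomial.comp_aeval_apply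
      (fun i => ((chP q j₀ i : MvPolynomial (Fin (t + 3)) ℂ) : MvPowerSeries (Fin (t + 3)) ℂ))
      (E.symm : MvPowerSeries (Fin (t + 3)) ℂ →ₐ[ℂ] MvPowerSeries (Fin (t + 3)) ℂ) f
    have h11 : aeval (fun i => MvPowerSeries.X 0 * (w' * E.symm (chS q j₀ i))) f =
        E.symm (aeval (fun i => ((chP q j₀ i : MvPolynomial (Fin (t + 3)) ℂ) :
          MvPowerSeries (Fin (t + 3)) ℂ)) f) := by
      refine Eq.trans ?_ h10.symm
      refine congrArg (fun a : Fin (t + 3) → MvPowerSeries (Fin (t + 3)) ℂ => aeval a f) ?_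
      funext i
      exact (hchP i).symm
    rw [h11, h9]
    show E.symm ((X 0 ^ d * hg f d q j₀ : MvPolynomial (Fin (t + 3)) ℂ) :
      MvPowerSeries (Fin (t + 3)) ℂ) = _
    rw [MvPolynomial.coe_mul, MvPolynomial.coe_pow, MvPolynomial.coe_X, h1, map_mul, map_pow, hw1,
      map_mul, AlgEquiv.symm_apply_apply]
    ring
  · have h5 := det_equiv E.symm (fun i => MvPowerSeries.X 0 * chS q j₀ i)
    have h6 : (Matrix.of fun i j : Fin (t + 3) => MvPowerSeries.pderiv ℂ j
        (MvPowerSeries.X 0 * (w' * E.symm (chS q j₀ i)) : MvPowerSeries (Fin (t + 3)) ℂ)) =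
        Matrix.of fun i j : Fin (t + 3) => MvPowerSeries.pderiv ℂ j
          (E.symm (MvPowerSeries.X 0 * chS q j₀ i)) := by
      ext1 i j
      simp only [Matrix.of_apply]
      rw [map_mul E.symm, hw1, mul_assoc]
    rw [h6, h5, det_chS, map_mul, map_pow, map_neg, map_one, map_pow, hw1]
    ring

end YG

end MPb07157
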