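import Pool.Agent.Lib.MP_b07157_agYG.Defs
import Pool.Agent.Lib.MP_b07157_agE.EZ
import Pool.Agent.Lib.MP_b07157_agV.A1

/-!
# The arcs of the normal form
-/

noncomputable section

namespace MPb07157

open MvPolynomial

namespace YG

open PC SU SI

namespace KzGaux

/-! ### Changes of coordinates -/

section

variable {n M : ℕ} {e : MvPowerSeries (Fin n) ℂ ≃ₐ[ℂ] MvPowerSeries (Fin n) ℂ}
  {q : Fin n → MvPolynomial (Fin n) ℂ}

theorem exists_unit_congr' {f g : MvPolynomial (Fin n) ℂ} {u : (MvPowerSeries (Fin n) ℂ)ˣ}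
    (hf : ∀ v : Fin n →₀ ℕ, ∑ i, v i ≤ M → MvPowerSeries.coeff v (f : MvPowerSeries (Fin n) ℂ) =
      MvPowerSeries.coeff v ((u : MvPowerSeries (Fin n) ℂ) * e (g : MvPowerSeries (Fin n) ℂ)))
    (hq : IsTr e M q) {γ : Fin n × Fin (M + 1) → ℂ} (hγ : ∀ i, γ (i, 0) = 0) :
    ∃ U : PowerSeries ℂ, PowerSeries.constantCoeff U ≠ 0 ∧
      (PowerSeries.X : PowerSeries ℂ) ^ (M + 1) ∣ aeval (arc γ) f -
        U * (aeval (arc (polyMap (jetPoly q (M + 1)) γ)) g : PowerSeries ℂ) := by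
  obtain ⟨P, hP⟩ := exists_truncP M (e (g : MvPowerSeries (Fin n) ℂ))
  obtain ⟨U, hU⟩ := exists_truncP M (u : MvPowerSeries (Fin n) ℂ)
  have hγ' := constantCoeff_arc hγ
  refine ⟨aeval (arc γ) U, ?_, ?_⟩
  · rw [constantCoeff_aeval hγ', hU 0 (by simp), MvPowerSeries.coeff_zero_eq_constantCoeff_apply]
    exact ((Units.isUnit u).map (MvPowerSeries.constantCoeff (σ := Fin n) (R := ℂ))).ne_zero
  · have h1 : (PowerSeries.X : PowerSeries ℂ) ^ (M + 1) ∣
        aeval (arc γ) f - aeval (arc γ) (U * P) := by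
      refine aeval_congr_low (fun v hv => ?_) hγ'
      rw [← coeff_coe f v, hf v hv, ← coeff_coe (U * P) v, coe_mul]
      exact coeff_mul_congr (fun v hv => by rw [coeff_coe, hU v hv])
        (fun v hv => by rw [coeff_coe, hP v hv]) v hv
    have h2 : (PowerSeries.X : PowerSeries ℂ) ^ (M + 1) ∣ aeval (arc γ) P -
        (aeval (fun j => (aeval (arc γ) (q j) : PowerSeries ℂ)) g : PowerSeries ℂ) := by
      rw [PowerSeries.X_pow_dvd_iff]
      intro k hk
      rw [map_sub, aeval_arc_equiv e M q hq g P hP (arc γ) hγ' k (Nat.lt_succ_iff.1 hk), sub_self]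
    have h3 := aeval_congr_X_pow (M + 1) g (arc (polyMap (jetPoly q (M + 1)) γ))
      (fun j => (aeval (arc γ) (q j) : PowerSeries ℂ)) (arc_jetPoly q γ)
    have h4 : (PowerSeries.X : PowerSeries ℂ) ^ (M + 1) ∣ aeval (arc γ) P -
        aeval (arc (polyMap (jetPoly q (M + 1)) γ)) g := by
      have h5 := dvd_sub h2 h3
      rwa [sub_sub_sub_cancel_right] at h5
    have h7 := dvd_add h1 (h4.mul_left (aeval (arc γ) U))
    have h8 : aeval (arc γ) f - aeval (arc γ) (U * P) + aeval (arc γ) U *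
        (aeval (arc γ) P - aeval (arc (polyMap (jetPoly q (M + 1)) γ)) g) =
        aeval (arc γ) f - aeval (arc γ) U *
          (aeval (arc (polyMap (jetPoly q (M + 1)) γ)) g : PowerSeries ℂ) := by
      rw [map_mul]
      ring
    rwa [h8] at h7

theorem order_jet' {f g : MvPolynomial (Fin n) ℂ} {u : (MvPowerSeries (Fin n) ℂ)ˣ}
    (hf : ∀ v : Fin n →₀ ℕ, ∑ i, v i ≤ M → MvPowerSeries.coeff v (f : MvPowerSeries (Fin n) ℂ) =
      MvPowerSeries.coeff v ((u : MvPowerSeries (Fin n) ℂ) * e (g : MvPowerSeries (Fin n) ℂ)))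
    (hq : IsTr e M q) {γ : Fin n × Fin (M + 1) → ℂ} (hγ : ∀ i, γ (i, 0) = 0) {k : ℕ}
    (hk : k ≤ M) :
    (aeval (arc γ) f : PowerSeries ℂ).order = k ↔
      (aeval (arc (polyMap (jetPoly q (M + 1)) γ)) g : PowerSeries ℂ).order = k := by
  obtain ⟨U, hU, h⟩ := exists_unit_congr' hf hq hγ
  rw [order_congr (Nat.lt_succ_iff.2 hk) h, PowerSeries.order_mul]
  have h1 : U.order = 0 := by
    by_contra h1
    exact hU (PowerSeries.order_ne_zero_iff_constCoeff_eq_zero.1 h1)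
  rw [h1, zero_add]

end

section

variable {n : ℕ}

theorem isConstr_AK (h : MvPolynomial (Fin (n + 1)) ℂ) (N k i : ℕ) : IsConstr (AK h N k i) := by
  have e : AK h N k i = Start (n + 1) 1 (N + 1) ∩
      (arcs (X 0 : MvPolynomial (Fin (n + 1)) ℂ) (N + 1) k ∩ arcs h (N + 1) i) := by
    ext γ
    constructor
    · rintro ⟨h1, h2, h3⟩
      refine ⟨mem_Start_one.2 h1, ?_, h3⟩
      show (aeval (arc γ) (X 0) : PowerSeries ℂ).order = (k : ℕ∞)
      rw [aeval_X]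
      exact h2
    · rintro ⟨h1, h2, h3⟩
      refine ⟨mem_Start_one.1 h1, ?_, h3⟩
      have h4 : (aeval (arc γ) (X 0 : MvPolynomial (Fin (n + 1)) ℂ) : PowerSeries ℂ).order =
        (k : ℕ∞) := h2
      rwa [aeval_X] at h4
  rw [e]
  exact (isConstr_Start _ _ _).inter ((isConstr_arcs _ _ _).inter (isConstr_arcs _ _ _))

/-- The orders of the coordinate `u` and of the function along a jet and its image. -/
theorem mem_AK_iff {h G : MvPolynomial (Fin (n + 1)) ℂ}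
    {E : MvPowerSeries (Fin (n + 1)) ℂ ≃ₐ[ℂ] MvPowerSeries (Fin (n + 1)) ℂ}
    {u w : (MvPowerSeries (Fin (n + 1)) ℂ)ˣ} {N k i : ℕ}
    (h1 : ∀ v : Fin (n + 1) →₀ ℕ, ∑ i, v i ≤ N →
      MvPowerSeries.coeff v (h : MvPowerSeries (Fin (n + 1)) ℂ) =
      MvPowerSeries.coeff v ((u : MvPowerSeries (Fin (n + 1)) ℂ) *
        E (G : MvPowerSeries (Fin (n + 1)) ℂ)))
    (h2 : E (MvPowerSeries.X 0) = MvPowerSeries.X 0 * (w : MvPowerSeries (Fin (n + 1)) ℂ))
    (hkN : k ≤ N) (hi : i ≤ N) {q : Fin (n + 1) → MvPolynomial (Fin (n + 1)) ℂ}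
    (hq : IsTr E N q) {γ : Fin (n + 1) × Fin (N + 1) → ℂ} (hγ : ∀ j, γ (j, 0) = 0) :
    γ ∈ AK h N k i ↔ polyMap (jetPoly q (N + 1)) γ ∈ AK G N k i := by
  have e2 : ((X 0 : MvPolynomial (Fin (n + 1)) ℂ) : MvPowerSeries (Fin (n + 1)) ℂ) =
      ((w⁻¹ : (MvPowerSeries (Fin (n + 1)) ℂ)ˣ) : MvPowerSeries (Fin (n + 1)) ℂ) *
        E ((X 0 : MvPolynomial (Fin (n + 1)) ℂ) : MvPowerSeries (Fin (n + 1)) ℂ) ^ 1 := by
    rw [pow_one, coe_X, h2, mul_comm (MvPowerSeries.X 0 : MvPowerSeries (Fin (n + 1)) ℂ),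
      Units.inv_mul_cancel_left]
  have o1 := order_jet' h1 hq hγ hi
  have o2 := order_jet e2 hq hγ hkN
  rw [one_smul] at o2
  rw [aeval_X, aeval_X] at o2
  constructor
  · rintro ⟨-, h3, h4⟩
    exact ⟨jet_zero hq hγ, o2.1 h3, o1.1 h4⟩
  · rintro ⟨-, h3, h4⟩
    exact ⟨hγ, o2.2 h3, o1.2 h4⟩

/-- The measures are invariant under the changes of coordinates. -/
theorem AKm_congr {h G : MvPolynomial (Fin (n + 1)) ℂ}
    {E : MvPowerSeries (Fin (n + 1)) ℂ ≃ₐ[ℂ] MvPowerSeries (Fin (n + 1)) ℂ}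
    {u w : (MvPowerSeries (Fin (n + 1)) ℂ)ˣ} {N k i : ℕ}
    (h1 : ∀ v : Fin (n + 1) →₀ ℕ, ∑ i, v i ≤ N →
      MvPowerSeries.coeff v (h : MvPowerSeries (Fin (n + 1)) ℂ) =
      MvPowerSeries.coeff v ((u : MvPowerSeries (Fin (n + 1)) ℂ) *
        E (G : MvPowerSeries (Fin (n + 1)) ℂ)))
    (h2 : E (MvPowerSeries.X 0) = MvPowerSeries.X 0 * (w : MvPowerSeries (Fin (n + 1)) ℂ))
    (hkN : k ≤ N) (hi : i ≤ N) : AKm h N k i = AKm G N k i := by
  obtain ⟨q, hq⟩ := exists_isTr E N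
  obtain ⟨q', hq'⟩ := exists_isTr E.symm N
  unfold AKm clsM
  congr 2
  refine cls_bijOn (isConstr_AK h N k i) (isConstr_AK G N k i) (jetPoly q (N + 1)) ⟨?_, ?_, ?_⟩
  · intro γ hγ
    exact (mem_AK_iff h1 h2 hkN hi hq hγ.1).1 hγ
  · intro γ hγ γ' hγ' heq
    rw [← jet_jet hq hq' hγ.1, heq, jet_jet hq hq' hγ'.1]
  · intro γ hγ
    have h3 : polyMap (jetPoly q (N + 1)) (polyMap (jetPoly q' (N + 1)) γ) = γ :=
      jet_jet (e := E.symm) hq' hq hγ.1
    have h4 := jet_zero hq' hγ.1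
    refine ⟨polyMap (jetPoly q' (N + 1)) γ, (mem_AK_iff h1 h2 hkN hi hq h4).2 ?_, h3⟩
    rw [h3]
    exact hγ

end

/-! ### The polynomial `k₀(u, y) + ∑ x_i²` -/

/-- The polynomial `k(u, y) + ∑ x_i²`. -/
def kp (t : ℕ) (k : MvPolynomial (Fin 2) ℂ) : MvPolynomial (Fin (t + 3)) ℂ :=
  rename (fun j : Fin 2 => Fin.castLE (by omega) j) k + ∑ i : Fin (t + 1), X i.succ.succ ^ 2

theorem coe_kp (t : ℕ) (k : MvPolynomial (Fin 2) ℂ) :
    (kp t k : MvPowerSeries (Fin (t + 3)) ℂ) = kzG t (k : P2) := by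
  have h1 : ((rename (fun j : Fin 2 => (Fin.castLE (by omega) j : Fin (t + 3))) k :
      MvPolynomial (Fin (t + 3)) ℂ) : MvPowerSeries (Fin (t + 3)) ℂ) =
      MvPowerSeries.subst (fun j : Fin 2 =>
        (MvPowerSeries.X (Fin.castLE (by omega) j) : MvPowerSeries (Fin (t + 3)) ℂ)) (k : P2) := by
    rw [MvPowerSeries.subst_coe]
    have h2 : ∀ p : MvPolynomial (Fin 2) ℂ,
        ((rename (fun j : Fin 2 => (Fin.castLE (by omega) j : Fin (t + 3))) p :
          MvPolynomial (Fin (t + 3)) ℂ) : MvPowerSeries (Fin (t + 3)) ℂ) =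
        aeval (fun j : Fin 2 => (MvPowerSeries.X (Fin.castLE (by omega) j) :
          MvPowerSeries (Fin (t + 3)) ℂ)) p := by
      intro p
      induction p using MvPolynomial.induction_on with
      | C a =>
        rw [rename_C, coe_C, aeval_C]
        rfl
      | add p q hp hq => rw [map_add, coe_add, hp, hq, map_add]
      | mul_X p i hp => rw [map_mul, coe_mul, hp, rename_X, coe_X, map_mul, aeval_X]
    exact h2 k
  rw [kp, kzG, coe_add, h1]
  congr 1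
  have h3 : ∀ s : Finset (Fin (t + 1)),
      ((∑ i ∈ s, (X i.succ.succ : MvPolynomial (Fin (t + 3)) ℂ) ^ 2 :
        MvPolynomial (Fin (t + 3)) ℂ) : MvPowerSeries (Fin (t + 3)) ℂ) =
      ∑ i ∈ s, MvPowerSeries.X i.succ.succ ^ 2 := by
    classical
    intro s
    induction s using Finset.induction_on with
    | empty => simp
    | insert a s ha ih => rw [Finset.sum_insert ha, Finset.sum_insert ha, coe_add, ih, coe_pow,
        coe_X]
  exact h3 _

theorem coeff_kzG_congr (t : ℕ) {k k' : P2} {N : ℕ}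
    (h : ∀ v : Fin 2 →₀ ℕ, ∑ i, v i ≤ N → MvPowerSeries.coeff v k = MvPowerSeries.coeff v k')
    (v : Fin (t + 3) →₀ ℕ) (hv : ∑ i, v i ≤ N) :
    MvPowerSeries.coeff v (kzG t k) = MvPowerSeries.coeff v (kzG t k') := by
  have hs : MvPowerSeries.HasSubst (fun j : Fin 2 =>
      (MvPowerSeries.X (Fin.castLE (by omega) j) : MvPowerSeries (Fin (t + 3)) ℂ)) :=
    MvPowerSeries.hasSubst_of_constantCoeff_zero fun j => by simp
  rw [← sub_eq_zero, ← map_sub]
  have h1 : kzG t k - kzG t k' = MvPowerSeries.subst (fun j : Fin 2 =>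
      (MvPowerSeries.X (Fin.castLE (by omega) j) : MvPowerSeries (Fin (t + 3)) ℂ)) (k - k') := by
    rw [kzG, kzG, MvPowerSeries.subst_sub hs]
    ring
  rw [h1]
  apply MvPowerSeries.coeff_of_lt_order
  refine lt_of_lt_of_le ?_ (MvPowerSeries.le_order_subst hs (k - k'))
  have h2 : ((N + 1 : ℕ) : ℕ∞) ≤ (k - k').order := by
    apply MvPowerSeries.le_order
    intro d hd
    have hd' : d.degree < N + 1 := by exact_mod_cast hd
    rw [Finsupp.degree_eq_sum] at hd'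
    rw [map_sub, h d (by omega), sub_self]
  have h3 : (1 : ℕ∞) ≤ ⨅ i : Fin 2,
      (MvPowerSeries.X (Fin.castLE (by omega) i) : MvPowerSeries (Fin (t + 3)) ℂ).order := by
    refine le_iInf fun i => ?_
    rw [MvPowerSeries.one_le_order_iff_constCoeff_eq_zero]
    simp
  have h4 : (v.degree : ℕ∞) < ((N + 1 : ℕ) : ℕ∞) := by
    rw [Finsupp.degree_eq_sum]
    exact_mod_cast Nat.lt_succ_of_le hv
  calc (v.degree : ℕ∞) < ((N + 1 : ℕ) : ℕ∞) := h4
    _ = 1 * ((N + 1 : ℕ) : ℕ∞) := (one_mul _).symm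
    _ ≤ _ := mul_le_mul' h3 h2

/-! ### The coordinates -/

/-- The coordinates of the jets in the two notations. -/
def eqG (t N : ℕ) : Fin (t + 3) × Fin N ≃ SU.JI (t + 1) N where
  toFun p := Fin.cases (motive := fun _ => SU.JI (t + 1) N) (Sum.inl (0, p.2))
    (fun a : Fin (t + 2) => Fin.cases (motive := fun _ => SU.JI (t + 1) N) (Sum.inl (1, p.2))
      (fun b : Fin (t + 1) => Sum.inr (b, p.2)) a) p.1
  invFun := Sum.elim (fun q => (Fin.castLE (by omega) q.1, q.2)) (fun q => (q.1.succ.succ, q.2))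
  left_inv := by
    rintro ⟨a, j⟩
    refine Fin.cases ?_ (fun a => ?_) a
    · rfl
    · refine Fin.cases ?_ (fun b => ?_) a
      · rfl
      · rfl
  right_inv := by
    rintro (⟨a, j⟩ | ⟨a, j⟩)
    · fin_cases a
      · rfl
      · rfl
    · rfl

theorem eqG_castLE (t N : ℕ) (a : Fin 2) (j : Fin N) :
    eqG t N (Fin.castLE (by omega) a, j) = Sum.inl (a, j) := by
  fin_cases a
  · rfl
  · rfl

theorem eqG_succ (t N : ℕ) (b : Fin (t + 1)) (j : Fin N) :
    eqG t N (b.succ.succ, j) = Sum.inr (b, j) := rfl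

theorem order_arc {n N : ℕ} (γ : Fin n × Fin N → ℂ) (i : Fin n) {k : ℕ} (hk : k < N) :
    (arc γ i).order = (k : ℕ∞) ↔ (∀ j : Fin N, (j : ℕ) < k → γ (i, j) = 0) ∧ γ (i, ⟨k, hk⟩) ≠ 0 := by
  rw [PowerSeries.order_eq_nat, coeff_arc, dif_pos hk, and_comm]
  refine and_congr_left fun _ => ⟨fun h j hj => ?_, fun h j hj => ?_⟩
  · have h1 := h j hj
    rwa [coeff_arc, dif_pos j.2] at h1
  · rw [coeff_arc, dif_pos (hj.trans hk)]
    exact h ⟨j, hj.trans hk⟩ hj

theorem val_eq (t : ℕ) (k : MvPolynomial (Fin 2) ℂ) {N : ℕ} (x : SU.JI (t + 1) N → ℂ) :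
    SU.val (k : P2) (fun _ : Fin (t + 1) => 2) x =
      (aeval (arc fun p => x (eqG t N p)) (kp t k) : PowerSeries ℂ) := by
  have h1 : SU.valF (k : P2) (SU.xyP x) =
      (aeval (fun j : Fin 2 => arc (fun p => x (eqG t N p)) (Fin.castLE (by omega) j)) k :
        PowerSeries ℂ) := by
    unfold SU.valF
    rw [MvPowerSeries.subst_coe]
    have h2 : (arc (SU.xyP x) : Fin 2 → PowerSeries ℂ) =
        fun j : Fin 2 => arc (fun p => x (eqG t N p)) (Fin.castLE (by omega) j) := by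
      funext j
      unfold arc
      refine Finset.sum_congr rfl fun l _ => ?_
      show PowerSeries.C (x (Sum.inl (j, l))) * _ =
        PowerSeries.C (x (eqG t N (Fin.castLE (by omega) j, l))) * _
      rw [eqG_castLE]
    rw [← h2]
  unfold SU.val
  rw [h1, kp, map_add, aeval_rename, map_sum]
  congr 1
  refine Finset.sum_congr rfl fun i _ => ?_
  rw [map_pow, aeval_X]
  rfl

theorem valF_congr {F F' : P2} {m : ℕ}
    (h : ∀ v : Fin 2 →₀ ℕ, v 0 + v 1 ≤ m → MvPowerSeries.coeff v F = MvPowerSeries.coeff v F')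
    {N : ℕ} {γ : Fin 2 × Fin N → ℂ} (hγ : γ ∈ Start 2 1 N) :
    ∃ H, valF F γ = valF F' γ + PowerSeries.X ^ (m + 1) * H := by
  have hx := X_dvd_arc_of_mem_Start hγ
  obtain ⟨H, hH⟩ := le_order_subst (F := F - F') (w := fun _ => 1) (r := m + 1)
    (fun _ => one_pos) (fun v hv => by
      rw [map_sub, h v (by
        rw [wt, Fin.sum_univ_two, one_mul, one_mul] at hv
        omega), sub_self]) hx
  refine ⟨H, ?_⟩
  unfold valF
  rw [← hH, MvPowerSeries.subst_sub (hasSubst_of_dvd (w := fun _ => 1) (fun _ => one_pos) hx)]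
  exact (add_sub_cancel _ _).symm

/-- The arcs of the polynomial in the notation of suspensions. -/
theorem AKm_kp (t : ℕ) (k : MvPolynomial (Fin 2) ℂ) {N j i : ℕ} (hjN : j ≤ N) :
    AKm (kp t k) N j i =
      SU.muJ (k : P2) (fun _ : Fin (t + 1) => 2) (N + 1) i (Start 2 1 (N + 1) ∩ Xo (N + 1) j)
        (SU.Rg (fun _ : Fin (t + 1) => 2) (N + 1) 0) := by
  have h1 : {x : SU.JI (t + 1) (N + 1) → ℂ | (fun p => x (eqG t (N + 1) p)) ∈
      AK (kp t k) N j i} =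
      SU.jset (k : P2) (fun _ : Fin (t + 1) => 2) (N + 1) i (Start 2 1 (N + 1) ∩ Xo (N + 1) j)
        (SU.Rg (fun _ : Fin (t + 1) => 2) (N + 1) 0) := by
    ext x
    simp only [AK, SU.jset, Set.mem_ofPred_eq, val_eq, order_arc _ _ (Nat.lt_succ_of_le hjN)]
    simp only [Start, Xo, SU.Rg, Set.mem_ofPred_eq, Set.mem_inter_iff]
    constructor
    · rintro ⟨h2, ⟨h3, h4⟩, h7⟩
      refine ⟨⟨fun a l hl => ?_, fun l hl => h3 l hl, fun _ => h4⟩, fun a l hl => ?_, h7⟩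
      · have h5 : l = 0 := Fin.ext (by
          simp only [Fin.val_zero]
          omega)
        rw [h5]
        have h6 := h2 (Fin.castLE (by omega) a)
        rwa [eqG_castLE] at h6
      · have h5 : l = 0 := Fin.ext (by
          simp only [Fin.val_zero]
          omega)
        rw [h5]
        exact h2 a.succ.succ
    · rintro ⟨⟨h2, h3, h4⟩, h5, h7⟩
      refine ⟨fun b => ?_, ⟨fun l hl => h3 l hl, h4 (Nat.lt_succ_of_le hjN)⟩, h7⟩
      refine Fin.cases ?_ (fun b => ?_) b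
      · exact h2 0 0 (by simp)
      · refine Fin.cases ?_ (fun b => ?_) b
        · exact h2 1 0 (by simp)
        · exact h5 b 0 (by simp)
  unfold AKm SU.muJ SU.mJ
  rw [← h1]
  unfold clsM
  rw [cls_equiv (eqG t (N + 1)) (isConstr_AK _ N j i)]
  have h2 : (t + 2 + 1) * (N + 1) = (2 + (t + 1)) * (N + 1) := by ring
  have h3 : LU ^ ((t + 2 + 1) * (N + 1)) = LU ^ ((2 + (t + 1)) * (N + 1)) := by rw [h2]
  rw [h3]

end KzGaux

open KzGaux in
/-- The measures in the coordinates of the normal form. As `YX.AKm_kz` (`agYX/Kz.lean`). -/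
theorem AKm_kzG {t : ℕ} {h : MvPolynomial (Fin (t + 3)) ℂ} {k : P2}
    (hk : UEqG (h : MvPowerSeries (Fin (t + 3)) ℂ) k) {N j i : ℕ} (hj : 0 < j) (hjN : j ≤ N)
    (hi : i ≤ N) : AKm h N j i =
      SU.muJ k (fun _ : Fin (t + 1) => 2) (N + 1) i (Start 2 1 (N + 1) ∩ Xo (N + 1) j)
        (SU.Rg (fun _ : Fin (t + 1) => 2) (N + 1) 0) := by
  obtain ⟨E, u, w, h1, h2⟩ := hk
  obtain ⟨k₀, hk₀⟩ := exists_truncP N k
  have hk₀' : ∀ v : Fin 2 →₀ ℕ, ∑ i, v i ≤ N →
      MvPowerSeries.coeff v k = MvPowerSeries.coeff v (k₀ : P2) := by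
    intro v hv
    rw [coeff_coe, hk₀ v hv]
  have h3 : ∀ v : Fin (t + 2 + 1) →₀ ℕ, ∑ i, v i ≤ N →
      MvPowerSeries.coeff v (h : MvPowerSeries (Fin (t + 2 + 1)) ℂ) =
      MvPowerSeries.coeff v ((u : MvPowerSeries (Fin (t + 3)) ℂ) *
        E (kp t k₀ : MvPowerSeries (Fin (t + 3)) ℂ)) := by
    intro v hv
    rw [h1]
    refine coeff_mul_congr (fun _ _ => rfl) (fun v hv => ?_) v hv
    rw [coe_kp, ← sub_eq_zero, ← map_sub, ← map_sub]
    refine coeff_equiv_eq_zero E N (fun v hv => ?_) v hv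
    rw [map_sub, coeff_kzG_congr t hk₀' v hv, sub_self]
  have h4 : AKm (n := t + 2) h N j i = AKm (n := t + 2) (kp t k₀) N j i :=
    AKm_congr (n := t + 2) h3 h2 hjN hi
  rw [h4, AKm_kp t k₀ hjN]
  unfold SU.muJ
  congr 1
  ext x
  simp only [SU.jset, Set.mem_ofPred_eq]
  refine and_congr_right fun hx => and_congr_right fun _ => ?_
  obtain ⟨H, hH⟩ := KzGaux.valF_congr (F := k) (F' := (k₀ : P2)) (m := N)
    (fun v hv => hk₀' v (by rw [Fin.sum_univ_two]; exact hv)) hx.1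
  symm
  refine order_congr (Nat.lt_succ_of_le hi) ⟨H, ?_⟩
  show _ = PowerSeries.X ^ (N + 1) * H
  unfold SU.val
  rw [hH]
  ring

end YG

end MPb07157
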