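import Pool.Agent.Lib.MP_b07157_agYG.ChartG
import Pool.Agent.Lib.MP_b07157_agYG.KzG
import Pool.Agent.Lib.MP_b07157_agYX.Ser2

/-!
# The series of a line
-/

noncomputable section

namespace MPb07157

open MvPolynomial

namespace YG

open PC SU SI

open SI.LineQ SI.LineA in
/-- The measures at a line, for every level. -/
theorem SerG_AKm_eq_Mk {n : ℕ} (f : MvPolynomial (Fin (n + 1)) ℂ) {d : ℕ} {k : ℕ} (hk : 0 < k)
    {q : Fin (n + 1) → ℂ} {j₀ : Fin (n + 1)} (hq : q j₀ = 1) {N i : ℕ} (hkN : k + i ≤ N) :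
    AKm (hg f d q j₀) N k i = ell ^ k * Mk f d k (lineW q) (k + i) i := by
  have h1 := Mk_eq_AKm f d hk hq (N := N) (i := i) (by omega) (by omega)
  have h2 := YL.Mk_level f d k (isConstr_lineW (ne_zero_of_apply hq)) (N := k + i)
    (N' := N) (i := i) (by omega) hkN
  rw [← h2, h1, ← mul_assoc, ell_pow_mul, one_mul]

/-- The series of a line as a zeta function `ZX`. As `YX.lineSer_eq_ZX` (`agYX/Ser2.lean`). -/
theorem lineSer_eq_ZX {t : ℕ} {f : MvPolynomial (Fin (t + 3)) ℂ} {d : ℕ} (hd : 0 < d)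
    {q : Fin (t + 3) → ℂ} {j₀ : Fin (t + 3)} (hq : q j₀ = 1) {k : P2}
    (hk : UEqG (hg f d q j₀ : MvPowerSeries (Fin (t + 3)) ℂ) k) {K : ℕ} (hK : 1 ≤ K) :
    lineSer f d q = YX.ZX k (fun _ : Fin (t + 1) => 2) (t + 3) d 0 K := by
  unfold lineSer serK YX.ZX
  ext m
  rw [PowerSeries.coeff_mk, PowerSeries.coeff_mk]
  have hmN : m + 1 ≤ K * (m + 1) := Nat.le_mul_of_pos_left _ (by omega)
  obtain ⟨N, hN⟩ : ∃ N, K * (m + 1) = N + 1 := ⟨K * (m + 1) - 1, by omega⟩
  rw [hN] at hmN ⊢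
  have hsub : Finset.Icc 1 m ⊆ Finset.Icc 1 (N + 1) := Finset.Icc_subset_Icc_right (by omega)
  rw [Finset.sum_subset hsub]
  · refine Finset.sum_congr rfl fun j hj => ?_
    rw [Finset.mem_Icc] at hj
    by_cases hjm : d * j ≤ m
    · have hjm' : j ≤ m := le_trans (Nat.le_mul_of_pos_left _ hd) hjm
      rw [if_pos hjm, if_pos hjm]
      have h2 := AKm_kzG (N := N) (j := j) (i := m - d * j) hk hj.1 (by omega) (by omega)
      have h4 := SerG_AKm_eq_Mk f (d := d) (k := j) hj.1 hq (N := N) (i := m - d * j) (by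
        have : j ≤ d * j := Nat.le_mul_of_pos_left _ hd
        omega)
      have h5 : (t + 2 + 1) * j = (t + 3 - 1) * j + j := by
        have h6 : t + 3 - 1 = t + 2 := rfl
        rw [h6]
        ring
      rw [Nat.zero_mul, ← h2, h4, YL.Lp_eq_ell, ← mul_assoc, ← pow_add, h5]
    · rw [if_neg hjm, if_neg hjm]
  · intro j hj hj'
    rw [Finset.mem_Icc] at hj hj'
    refine if_neg fun h => hj' ⟨hj.1, le_trans (Nat.le_mul_of_pos_left _ hd) h⟩

end YG

end MPb07157
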