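import Pool.Agent.Lib.MP_b07157_agYG.LamA

/-!
# The form `(1 + ∑ T_j²)^s dT` is not exact
-/

noncomputable section

namespace MPb07157

open MvPolynomial

namespace YG

namespace LamBaux

/-- Linear maps on the quotient. -/
theorem exists_liftQ {A M : Type} [CommRing A] [Algebra ℂ A] [AddCommGroup M] [Module ℂ M]
    (I : Ideal A) (φ : A →ₗ[ℂ] M) (h : ∀ p ∈ I, φ p = 0) :
    ∃ ψ : (A ⧸ I) →ₗ[ℂ] M, ∀ p, ψ (Ideal.Quotient.mk I p) = φ p := by
  have h' : I.restrictScalars ℂ ≤ LinearMap.ker φ := fun p hp => h p hp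
  refine ⟨((I.restrictScalars ℂ).liftQ φ h').comp
    (Submodule.Quotient.restrictScalarsEquiv ℂ I).symm.toLinearMap, fun p => ?_⟩
  have h1 : (Submodule.Quotient.restrictScalarsEquiv ℂ I).symm (Ideal.Quotient.mk I p) =
    Submodule.Quotient.mk p := rfl
  rw [LinearMap.comp_apply]
  have h2 : ((Submodule.Quotient.restrictScalarsEquiv ℂ I).symm.toLinearMap
    (Ideal.Quotient.mk I p)) = Submodule.Quotient.mk p := h1
  rw [h2]
  exact Submodule.liftQ_apply _ _ _

/-- Derivations on the quotient. -/
theorem exists_der {A : Type} [CommRing A] [Algebra ℂ A]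
    (I : Ideal A) (D : Derivation ℂ A A) (h : ∀ p ∈ I, D p ∈ I) :
    ∃ D' : Derivation ℂ (A ⧸ I) (A ⧸ I), ∀ p,
      D' (Ideal.Quotient.mk I p) = Ideal.Quotient.mk I (D p) := by
  obtain ⟨ψ, hψ⟩ := exists_liftQ I ((Ideal.Quotient.mkₐ ℂ I).toLinearMap ∘ₗ D.toLinearMap)
    (fun p hp => Ideal.Quotient.eq_zero_iff_mem.2 (h p hp))
  have hψ' : ∀ p, ψ (Ideal.Quotient.mk I p) = Ideal.Quotient.mk I (D p) := hψ
  refine ⟨Derivation.mk' ψ ?_, hψ'⟩
  intro a b
  obtain ⟨a, rfl⟩ := Ideal.Quotient.mk_surjective a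
  obtain ⟨b, rfl⟩ := Ideal.Quotient.mk_surjective b
  rw [← map_mul, hψ', hψ', hψ', D.leibniz, map_add, smul_eq_mul, smul_eq_mul, map_mul, map_mul]
  rfl

variable {r : ℕ}

/-- The polynomial `1 + ∑ T_j²`. -/
def QQ (r : ℕ) : MvPolynomial (Option (Fin r)) ℂ := 1 + ∑ j : Fin r, X (some j) ^ 2

/-- The relation. -/
def rel (r : ℕ) : MvPolynomial (Option (Fin r)) ℂ := X none * QQ r - 1

/-- The derivations. -/
def DA (a : Fin r) :
    Derivation ℂ (MvPolynomial (Option (Fin r)) ℂ) (MvPolynomial (Option (Fin r)) ℂ) :=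
  pderiv (some a) +
    (-(2 * X (some a) * X none ^ 2) : MvPolynomial (Option (Fin r)) ℂ) • pderiv none

theorem DA_some (a b : Fin r) : DA a (X (some b)) = if a = b then 1 else 0 := by
  have h0 : pderiv none (X (some b) : MvPolynomial (Option (Fin r)) ℂ) = 0 :=
    pderiv_X_of_ne (by simp)
  rw [DA, Derivation.add_apply, Derivation.smul_apply, h0, smul_zero, add_zero]
  split_ifs with h
  · rw [h, pderiv_X_self]
  · rw [pderiv_X_of_ne]
    intro h1
    exact h (Option.some_injective _ h1).symm

theorem DA_none (a : Fin r) : DA a (X none) = -(2 * X (some a) * X none ^ 2) := by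
  rw [DA, Derivation.add_apply, Derivation.smul_apply, pderiv_X_of_ne (by simp), pderiv_X_self,
    zero_add, smul_eq_mul, mul_one]

theorem DA_QQ (a : Fin r) : DA a (QQ r) = 2 * X (some a) := by
  rw [QQ, map_add, Derivation.map_one_eq_zero, zero_add, map_sum]
  rw [Finset.sum_eq_single a]
  · rw [Derivation.leibniz_pow, DA_some, if_pos rfl]
    simp
  · intro b _ hb
    rw [Derivation.leibniz_pow, DA_some, if_neg (Ne.symm hb), smul_zero, smul_zero]
  · intro h
    exact absurd (Finset.mem_univ a) h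

theorem DA_rel (a : Fin r) : DA a (rel r) = -(2 * X (some a) * X none) * rel r := by
  rw [rel, map_sub, Derivation.map_one_eq_zero, Derivation.leibniz, DA_QQ, DA_none, smul_eq_mul,
    smul_eq_mul]
  ring

theorem DA_mem (a : Fin r) (p : MvPolynomial (Option (Fin r)) ℂ)
    (hp : p ∈ Ideal.span {rel r}) : DA a p ∈ Ideal.span {rel r} := by
  obtain ⟨c, rfl⟩ := Ideal.mem_span_singleton.1 hp
  rw [Derivation.leibniz, DA_rel, smul_eq_mul, smul_eq_mul, Ideal.mem_span_singleton]
  exact ⟨DA a c + c * -(2 * X (some a) * X none), by ring⟩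

theorem DA_comm (a b : Fin r) (p : MvPolynomial (Option (Fin r)) ℂ) :
    DA a (DA b p) = DA b (DA a p) := by
  have h : ⁅DA a, DA b⁆ = 0 := by
    apply MvPolynomial.derivation_ext
    intro i
    rw [Derivation.commutator_apply]
    rcases i with _ | c
    · rw [DA_none, DA_none, map_neg, map_neg, Derivation.leibniz, Derivation.leibniz,
        Derivation.leibniz, Derivation.leibniz, Derivation.leibniz_pow, Derivation.leibniz_pow,
        DA_some, DA_some, DA_none, DA_none]
      have h2 : ∀ a : Fin r, DA a (2 : MvPolynomial (Option (Fin r)) ℂ) = 0 := by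
        intro a
        exact Derivation.map_natCast (DA a) 2
      rw [h2, h2]
      simp only [smul_eq_mul, Derivation.coe_zero, Pi.zero_apply]
      by_cases hab : a = b
      · rw [hab]
        ring
      · rw [if_neg hab, if_neg (Ne.symm hab)]
        ring
    · rw [DA_some, DA_some]
      have h3 : ∀ (a : Fin r) (P : Prop) [Decidable P],
          DA a (if P then (1 : MvPolynomial (Option (Fin r)) ℂ) else 0) = 0 := by
        intro a P _
        split_ifs
        · exact Derivation.map_one_eq_zero _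
        · exact map_zero _
      rw [h3, h3]
      simp
  have h1 := congrArg (fun D => D p) h
  simp only [Derivation.commutator_apply, Derivation.coe_zero, Pi.zero_apply] at h1
  exact sub_eq_zero.1 h1

/-- The functional. -/
def LA (g : (Fin r →₀ ℕ) → ℕ → ℂ) : MvPolynomial (Option (Fin r)) ℂ →ₗ[ℂ] ℂ :=
  (basisMonomials (Option (Fin r)) ℂ).constr ℂ fun m => g m.some (m none)

theorem LA_monomial (g : (Fin r →₀ ℕ) → ℕ → ℂ) (m : Option (Fin r) →₀ ℕ) (c : ℂ) :
    LA g (monomial m c) = c * g m.some (m none) := by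
  have h : monomial m c = c • (basisMonomials (Option (Fin r)) ℂ m) := by
    rw [coe_basisMonomials, smul_monomial, smul_eq_mul, mul_one]
  rw [h, map_smul, LA, Module.Basis.constr_basis, smul_eq_mul]

theorem mul_X_pow (m : Option (Fin r) →₀ ℕ) (c : ℂ) (i : Option (Fin r)) (k : ℕ) :
    monomial m c * X i ^ k = monomial (m + Finsupp.single i k) c := by
  rw [X_pow_eq_monomial, monomial_mul, mul_one]

theorem LA_rel {g : (Fin r →₀ ℕ) → ℕ → ℂ}
    (hg : ∀ a b, g a (b + 1) + ∑ j, g (a + Finsupp.single j 2) (b + 1) = g a b)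
    (m : Option (Fin r) →₀ ℕ) (c : ℂ) : LA g (monomial m c * rel r) = 0 := by
  have h1 : monomial m c * rel r = monomial (m + Finsupp.single none 1) c +
      ∑ j : Fin r, monomial (m + Finsupp.single none 1 + Finsupp.single (some j) 2) c -
        monomial m c := by
    rw [rel, QQ, mul_sub, mul_one, ← mul_assoc, mul_add, mul_one, Finset.mul_sum]
    have h2 := mul_X_pow m c none 1
    rw [pow_one] at h2
    rw [h2]
    simp only [mul_X_pow]
  rw [h1, map_sub, map_add, map_sum]
  simp only [LA_monomial, Finsupp.some_add, Finsupp.some_single_none, Finsupp.some_single_some,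
    Finsupp.add_apply, add_zero, Finsupp.single_eq_same]
  have h3 : ∀ j : Fin r, (Finsupp.single (some j) 2 : Option (Fin r) →₀ ℕ) none = 0 := by
    intro j
    exact Finsupp.single_eq_of_ne (by simp)
  simp only [h3, add_zero]
  rw [← Finset.mul_sum, ← mul_add, hg, sub_self]

theorem DA_monomial (a : Fin r) (m : Option (Fin r) →₀ ℕ) (c : ℂ) :
    DA a (monomial m c) = monomial (m - Finsupp.single (some a) 1) (c * m (some a)) -
      monomial (m + Finsupp.single (some a) 1 + Finsupp.single none 1) (2 * (c * m none)) := by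
  rw [DA, Derivation.add_apply, Derivation.smul_apply, pderiv_monomial, pderiv_monomial,
    smul_eq_mul, sub_eq_add_neg]
  congr 1
  have h1 : (2 : MvPolynomial (Option (Fin r)) ℂ) = C 2 := by
    rw [map_ofNat]
  by_cases h : m none = 0
  · rw [h, Nat.cast_zero, mul_zero, map_zero, mul_zero, mul_zero, map_zero, neg_zero]
  · have h2 : m - Finsupp.single none 1 + Finsupp.single none 2 = m + Finsupp.single none 1 := by
      ext i
      rcases i with _ | i
      · simp only [Finsupp.add_apply, Finsupp.tsub_apply, Finsupp.single_eq_same]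
        omega
      · have h3 : ∀ k : ℕ, (Finsupp.single none k : Option (Fin r) →₀ ℕ) (some i) = 0 :=
          fun k => Finsupp.single_eq_of_ne (by simp)
        simp only [Finsupp.add_apply, Finsupp.tsub_apply, h3]
        omega
    have h4 : -(2 * X (some a) * X none ^ 2 : MvPolynomial (Option (Fin r)) ℂ) *
        monomial (m - Finsupp.single none 1) (c * (m none : ℂ)) =
        -(C 2 * (monomial (m - Finsupp.single none 1) (c * (m none : ℂ)) * X none ^ 2 *
          X (some a) ^ 1)) := by
      rw [h1, pow_one]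
      ring
    rw [h4, mul_X_pow, mul_X_pow, C_mul_monomial, h2]
    congr 2
    rw [add_right_comm]

theorem LA_DA {g : (Fin r →₀ ℕ) → ℕ → ℂ} {s : ℂ}
    (hg : ∀ a b j, (a j : ℂ) * g (a - Finsupp.single j 1) b +
        2 * (s - b) * g (a + Finsupp.single j 1) (b + 1) = 0)
    (a : Fin r) (m : Option (Fin r) →₀ ℕ) (c : ℂ) :
    LA g (DA a (monomial m c) + C s * (X none * (2 * X (some a))) * monomial m c) = 0 := by
  have h1 : (2 : MvPolynomial (Option (Fin r)) ℂ) = C 2 := by
    rw [map_ofNat]
  have h2 : (C s * (X none * (2 * X (some a))) * monomial m c :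
      MvPolynomial (Option (Fin r)) ℂ) =
      monomial (m + Finsupp.single (some a) 1 + Finsupp.single none 1) (s * (2 * c)) := by
    have h3 : (C s * (X none * (2 * X (some a))) * monomial m c :
      MvPolynomial (Option (Fin r)) ℂ) =
      C s * (C 2 * (monomial m c * X (some a) ^ 1 * X none ^ 1)) := by
      rw [h1, pow_one, pow_one]
      ring
    rw [h3, mul_X_pow, mul_X_pow, C_mul_monomial, C_mul_monomial]
  rw [h2, DA_monomial, map_add, map_sub, LA_monomial, LA_monomial, LA_monomial]
  have e1 : (m - Finsupp.single (some a) 1).some = m.some - Finsupp.single a 1 := by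
    ext i
    simp only [Finsupp.some_apply, Finsupp.tsub_apply]
    by_cases hi : i = a
    · rw [hi, Finsupp.single_eq_same, Finsupp.single_eq_same]
    · rw [Finsupp.single_eq_of_ne (a := a) hi, Finsupp.single_eq_of_ne]
      intro h
      exact hi (Option.some_injective _ h)
  have e2 : (m - Finsupp.single (some a) 1 : Option (Fin r) →₀ ℕ) none = m none := by
    rw [Finsupp.tsub_apply, Finsupp.single_eq_of_ne (by simp), tsub_zero]
  have e3 : (m + Finsupp.single (some a) 1 + Finsupp.single none 1).some =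
      m.some + Finsupp.single a 1 := by
    rw [Finsupp.some_add, Finsupp.some_add, Finsupp.some_single_none, Finsupp.some_single_some,
      add_zero]
  have e4 : (m + Finsupp.single (some a) 1 + Finsupp.single none 1 :
      Option (Fin r) →₀ ℕ) none = m none + 1 := by
    rw [Finsupp.add_apply, Finsupp.add_apply, Finsupp.single_eq_same,
      Finsupp.single_eq_of_ne (by simp), add_zero]
  rw [e1, e2, e3, e4]
  have h4 := hg m.some (m none) a
  rw [Finsupp.some_apply] at h4
  linear_combination c * h4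

end LamBaux

open LamBaux

/-- The ring `B = ℂ[T_1, …, T_r, 1/(1 + ∑ T_j²)]`, its derivations, and a functional which kills the
derivatives and not the form `(1 + ∑ T_j²)^s dT`. `B = ℂ[T, V] / (V (1 + ∑ T_j²) - 1)`,
`δ_j = ∂/∂T_j - 2 T_j V² ∂/∂V`, `l(T^a V^b) = g a b` with `g` of `exists_g`. -/
theorem exists_lam (r : ℕ) {s : ℂ} (hs0 : ∀ m : ℕ, s ≠ m)
    (hs1 : ∀ m : ℕ, s + (r : ℂ) / 2 ≠ -((m : ℂ) + 1)) :
    ∃ (B : Type) (_ : CommRing B) (_ : Algebra ℂ B) (δ' : Fin r → Derivation ℂ B B)
      (T : Fin r → B) (Q : Bˣ) (l : B →ₗ[ℂ] ℂ), (Q : B) = 1 + ∑ j, T j ^ 2 ∧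
      (∀ a b, δ' a (T b) = if a = b then 1 else 0) ∧
      (∀ a b x, δ' a (δ' b x) = δ' b (δ' a x)) ∧
      (∀ a x, l (δ' a x + algebraMap ℂ B s * (((Q⁻¹ : Bˣ) : B) * δ' a Q) * x) = 0) ∧
      l 1 = 1 := by
  obtain ⟨g, hg0, hg1, hg2⟩ := exists_g r hs0 hs1
  choose D hD using fun a : Fin r => exists_der (Ideal.span {rel r}) (DA a) (DA_mem a)
  have hL : ∀ p ∈ Ideal.span {rel r}, LA g p = 0 := by
    intro p hp
    obtain ⟨c, rfl⟩ := Ideal.mem_span_singleton'.1 hp
    induction c using MvPolynomial.induction_on' with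
    | monomial m c => exact LA_rel hg1 m c
    | add c c' hc hc' =>
      rw [add_mul, map_add, hc (Ideal.mul_mem_left _ _ (Ideal.mem_span_singleton_self _)),
        hc' (Ideal.mul_mem_left _ _ (Ideal.mem_span_singleton_self _)), add_zero]
  obtain ⟨l, hl⟩ := exists_liftQ (Ideal.span {rel r}) (LA g) hL
  have hVQ : (Ideal.Quotient.mk (Ideal.span {rel r})) (X none * QQ r) = 1 := by
    rw [← map_one (Ideal.Quotient.mk (Ideal.span {rel r})), Ideal.Quotient.mk_eq_mk_iff_sub_mem]
    exact Ideal.mem_span_singleton_self _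
  refine ⟨MvPolynomial (Option (Fin r)) ℂ ⧸ Ideal.span {rel r}, inferInstance, inferInstance, D,
    fun j => Ideal.Quotient.mk _ (X (some j)),
    ⟨Ideal.Quotient.mk _ (QQ r), Ideal.Quotient.mk _ (X none), by rw [← map_mul, mul_comm, hVQ],
      by rw [← map_mul, hVQ]⟩, l, ?_, ?_, ?_, ?_, ?_⟩
  · show Ideal.Quotient.mk _ (QQ r) = _
    rw [QQ, map_add, map_one, map_sum]
    simp only [map_pow]
  · intro a b
    rw [hD, DA_some]
    split_ifs
    · exact map_one _
    · exact map_zero _
  · intro a b x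
    obtain ⟨x, rfl⟩ := Ideal.Quotient.mk_surjective x
    rw [hD, hD, hD, hD, DA_comm]
  · intro a x
    obtain ⟨x, rfl⟩ := Ideal.Quotient.mk_surjective x
    show l (D a _ + algebraMap ℂ _ s * (Ideal.Quotient.mk _ (X none) *
      D a (Ideal.Quotient.mk _ (QQ r))) * _) = 0
    rw [hD, hD, DA_QQ]
    have h1 : algebraMap ℂ (MvPolynomial (Option (Fin r)) ℂ ⧸ Ideal.span {rel r}) s =
        Ideal.Quotient.mk _ (C s) := rfl
    rw [h1, ← map_mul, ← map_mul, ← map_mul, ← map_add, hl]
    induction x using MvPolynomial.induction_on' with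
    | monomial m c => exact LA_DA hg2 a m c
    | add x y hx hy =>
      have h2 : DA a (x + y) + C s * (X none * (2 * X (some a))) * (x + y) =
          (DA a x + C s * (X none * (2 * X (some a))) * x) +
            (DA a y + C s * (X none * (2 * X (some a))) * y) := by
        rw [map_add]
        ring
      rw [h2, map_add, hx, hy, add_zero]
  · have h1 : (1 : MvPolynomial (Option (Fin r)) ℂ ⧸ Ideal.span {rel r}) =
        Ideal.Quotient.mk _ (monomial 0 1) := rfl
    rw [h1, hl, LA_monomial, one_mul, Finsupp.some_zero]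
    exact hg0

end YG

end MPb07157
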