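import Pool.Agent.Lib.MP_b07157_agYG.Defs
import Pool.Agent.Lib.MP_b07157_agYX.Res2

/-!
# The residue lemma at a node
-/

noncomputable section

namespace MPb07157

open MvPolynomial TensorProduct

namespace YG

open PC SU SI YL

namespace ResNA

variable {B : Type} [CommRing B] [Algebra ℂ B]

section Subst

variable {n : ℕ} {z : Fin n → MvPowerSeries Unit B}
  (hz : ∀ j, MvPowerSeries.constantCoeff (z j) = 0)

include hz

omit [Algebra ℂ B] in
theorem hs : MvPowerSeries.HasSubst z := MvPowerSeries.hasSubst_of_constantCoeff_zero hz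

/-- The substitution. -/
def ps : MvPowerSeries (Fin n) ℂ →ₐ[ℂ] MvPowerSeries Unit B :=
  MvPowerSeries.substAlgHom (hs hz)

theorem ps_X (j : Fin n) : ps hz (MvPowerSeries.X j) = z j :=
  MvPowerSeries.substAlgHom_X (hs hz) j

theorem cc_ps (g : MvPowerSeries (Fin n) ℂ) :
    MvPowerSeries.constantCoeff (ps hz g) = algebraMap ℂ B (MvPowerSeries.constantCoeff g) := by
  have h1 : g = MvPowerSeries.C (MvPowerSeries.constantCoeff g) +
      (g - MvPowerSeries.C (MvPowerSeries.constantCoeff g)) := by ring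
  have h2 : MvPowerSeries.constantCoeff (g - MvPowerSeries.C (MvPowerSeries.constantCoeff g)) =
      0 := by
    rw [map_sub, MvPowerSeries.constantCoeff_C, sub_self]
  have h3 : MvPowerSeries.constantCoeff (ps hz
      (g - MvPowerSeries.C (MvPowerSeries.constantCoeff g))) = 0 := by
    unfold ps
    rw [MvPowerSeries.coe_substAlgHom]
    exact MvPowerSeries.constantCoeff_subst_eq_zero (hs hz) hz h2
  have h4 : ps hz (MvPowerSeries.C (MvPowerSeries.constantCoeff g)) =
      algebraMap ℂ _ (MvPowerSeries.constantCoeff g) := (ps hz).commutes _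
  conv_lhs => rw [h1]
  rw [map_add, map_add, h3, add_zero, h4, MvPowerSeries.algebraMap_apply,
    MvPowerSeries.constantCoeff_C]

end Subst

/-- The images of the variables. -/
def im {t : ℕ} (κ : ℕ) (T : Fin (t + 2) → B) : Fin (t + 3) → MvPowerSeries Unit B :=
  Fin.cons (MvPowerSeries.X () ^ 2) fun j => MvPowerSeries.C (T j) * MvPowerSeries.X () ^ κ

omit [Algebra ℂ B] in
theorem im_zero {t κ : ℕ} (hκ : 0 < κ) (T : Fin (t + 2) → B) (j : Fin (t + 3)) :
    MvPowerSeries.constantCoeff (im κ T j) = 0 := by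
  refine Fin.cases ?_ (fun j => ?_) j
  · show MvPowerSeries.constantCoeff (MvPowerSeries.X () ^ 2 : MvPowerSeries Unit B) = 0
    rw [map_pow, MvPowerSeries.constantCoeff_X, zero_pow two_ne_zero]
  · show MvPowerSeries.constantCoeff (MvPowerSeries.C (T j) * MvPowerSeries.X () ^ κ :
      MvPowerSeries Unit B) = 0
    rw [map_mul, map_pow, MvPowerSeries.constantCoeff_X, zero_pow hκ.ne', mul_zero]

theorem kz_eq (t κ : ℕ) : kzG t (MvPowerSeries.X 1 ^ 2 + MvPowerSeries.X 0 ^ κ) =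
    MvPowerSeries.X 0 ^ κ + ∑ j : Fin (t + 2), MvPowerSeries.X j.succ ^ 2 := by
  have hcs : MvPowerSeries.HasSubst (fun j : Fin 2 =>
      (MvPowerSeries.X (Fin.castLE (by omega) j) : MvPowerSeries (Fin (t + 3)) ℂ)) :=
    MvPowerSeries.hasSubst_of_constantCoeff_zero fun j => MvPowerSeries.constantCoeff_X _
  unfold kzG
  rw [← MvPowerSeries.coe_substAlgHom hcs, map_add, map_pow, map_pow,
    MvPowerSeries.substAlgHom_X hcs, MvPowerSeries.substAlgHom_X hcs]
  have h0 : (Fin.castLE (by omega) (0 : Fin 2) : Fin (t + 3)) = 0 := rfl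
  have h1 : (Fin.castLE (by omega) (1 : Fin 2) : Fin (t + 3)) = (0 : Fin (t + 2)).succ := rfl
  have h2 : ∑ j : Fin (t + 2), (MvPowerSeries.X j.succ : MvPowerSeries (Fin (t + 3)) ℂ) ^ 2 =
      MvPowerSeries.X (0 : Fin (t + 2)).succ ^ 2 +
        ∑ i : Fin (t + 1), MvPowerSeries.X i.succ.succ ^ 2 := Fin.sum_univ_succ _
  rw [h0, h1, h2]
  ring

variable {t κ : ℕ} (hκ : 0 < κ) (T : Fin (t + 2) → B)

theorem ps_kz : ps (im_zero hκ T) (kzG t (MvPowerSeries.X 1 ^ 2 + MvPowerSeries.X 0 ^ κ)) =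
    MvPowerSeries.X () ^ (2 * κ) * MvPowerSeries.C (1 + ∑ j, T j ^ 2) := by
  rw [kz_eq, map_add, map_pow, map_sum, ps_X]
  have h1 : ∀ j : Fin (t + 2), ps (im_zero hκ T) (MvPowerSeries.X j.succ ^ 2) =
      MvPowerSeries.X () ^ (2 * κ) * MvPowerSeries.C (T j ^ 2) := by
    intro j
    rw [map_pow, ps_X]
    show (MvPowerSeries.C (T j) * MvPowerSeries.X () ^ κ) ^ 2 = _
    rw [mul_pow, ← pow_mul, mul_comm κ 2, map_pow]
    ring
  have h2 : im κ T 0 = MvPowerSeries.X () ^ 2 := rfl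
  rw [Finset.sum_congr rfl fun j _ => h1 j, h2, ← pow_mul, ← Finset.mul_sum, map_add, map_one,
    map_sum]
  ring

/-- The matrix of the derivatives of the images. -/
theorem det_im {δ' : Fin (t + 2) → Derivation ℂ B B}
    (hT : ∀ a b, δ' a (T b) = if a = b then 1 else 0) :
    (Matrix.of fun a j : Fin (t + 3) => ARL.rowD δ'
      ((Fin.cons (Sum.inl ()) Sum.inr : Fin (t + 3) → Unit ⊕ Fin (t + 2)) a)
        (im κ T j)).det =
      2 * MvPowerSeries.X () ^ 2 * (MvPowerSeries.X () ^ κ) ^ (t + 2) := by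
  classical
  set M := Matrix.of fun a j : Fin (t + 3) => ARL.rowD δ'
      ((Fin.cons (Sum.inl ()) Sum.inr : Fin (t + 3) → Unit ⊕ Fin (t + 2)) a)
        (im κ T j) with hM
  have e00 : M 0 0 = 2 * MvPowerSeries.X () ^ 2 := by
    show ARL.lg () (MvPowerSeries.X () ^ 2 : MvPowerSeries Unit B) = _
    rw [MvPowerSeries.X_pow_eq, ARL.lg_monomial, Finsupp.single_eq_same]
    norm_num
  have ei0 : ∀ i : Fin (t + 2), M i.succ 0 = 0 := by
    intro i
    show ARL.cw (δ' i) (MvPowerSeries.X () ^ 2 : MvPowerSeries Unit B) = _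
    rw [MvPowerSeries.X_pow_eq, ARL.cw_monomial]
  have eij : ∀ i j : Fin (t + 2), M i.succ j.succ = if i = j then MvPowerSeries.X () ^ κ
      else 0 := by
    intro i j
    show ARL.cw (δ' i) (MvPowerSeries.C (T j) * MvPowerSeries.X () ^ κ :
      MvPowerSeries Unit B) = _
    have h0 : ARL.cw (δ' i) (MvPowerSeries.X () ^ κ : MvPowerSeries Unit B) = 0 := by
      rw [MvPowerSeries.X_pow_eq, ARL.cw_monomial]
    rw [Derivation.leibniz, ARL.cw_C, h0, smul_zero, zero_add, smul_eq_mul, hT]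
    split_ifs with h
    · rw [(MvPowerSeries.C : B →+* MvPowerSeries Unit B).map_one, mul_one]
    · rw [(MvPowerSeries.C : B →+* MvPowerSeries Unit B).map_zero, mul_zero]
  have hup : M.BlockTriangular id := by
    intro i j hij
    revert hij
    refine Fin.cases ?_ (fun i => ?_) i
    · intro hij
      exact absurd hij (Fin.not_lt_zero _)
    · refine Fin.cases ?_ (fun j => ?_) j
      · intro _
        exact ei0 i
      · intro hij
        rw [eij, if_neg]
        rintro rfl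
        exact lt_irrefl _ hij
  rw [Matrix.det_of_isUpperTriangular hup, Fin.prod_univ_succ, e00]
  congr 1
  have h1 : ∀ i : Fin (t + 2), M i.succ i.succ = MvPowerSeries.X () ^ κ := fun i => by
    rw [eij, if_pos rfl]
  rw [Finset.prod_congr rfl fun i _ => h1 i, Finset.prod_const, Finset.card_univ,
    Fintype.card_fin]

/-- The Jacobian determinant. -/
theorem det_ps {n : ℕ} {im : Fin n → MvPowerSeries Unit B}
    (hz : ∀ j, MvPowerSeries.constantCoeff (im j) = 0) {z : Fin n → MvPowerSeries (Fin n) ℂ}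
    (D : Fin n → Derivation ℂ (MvPowerSeries Unit B) (MvPowerSeries Unit B)) :
    (ARL.jm D fun l => ps hz (z l)).det = (Matrix.of fun a j => D a (im j)).det *
      ps hz (Matrix.of fun i j => MvPowerSeries.pderiv ℂ j (z i)).det := by
  have h1 : (ARL.jm D fun l => ps hz (z l)) = (Matrix.of fun a j => D a (im j)) *
      ((Matrix.of fun i j => MvPowerSeries.pderiv ℂ j (z i)).map (ps hz)).transpose := by
    ext1 a l
    rw [Matrix.mul_apply]
    show D a (ps hz (z l)) = _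
    rw [ARL.chain (fun j => by rw [ps_X]; exact hz j) _ (z l)]
    refine Finset.sum_congr rfl fun j _ => ?_
    rw [ps_X, mul_comm]
    rfl
  rw [h1, Matrix.det_mul, Matrix.det_transpose]
  congr 1
  exact (AlgHom.map_det (ps hz) _).symm

end ResNA

variable {K : Type} [Field K] [Algebra ℂ K] {K' : Type} [CommRing K'] [Algebra ℂ K']
  {B : Type} [CommRing B] [Algebra ℂ B]

open ResNA in
/-- **The residue lemma at a node.** `u = t²`, `x_j = t^κ T_j` for all the `t + 2` other variables;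
`f = t^(2 (d + κ)) (U(0) (1 + ∑ T_j²) + O(t))`, the Jacobian determinant (in `log t`) is
`± t^(2 (t+3) + (t+2) κ) (2 D(0) + O(t))`; `R = B`, `K` does not occur. -/
theorem residue_nodeG {t : ℕ} {f : MvPolynomial (Fin (t + 3)) ℂ} {d κ : ℕ} (hκ : 0 < κ)
    {ξ : Fin (t + 3) → MvPowerSeries (Fin (t + 3)) ℂ} {U D : MvPowerSeries (Fin (t + 3)) ℂ}
    (hc : IsChartG f d (MvPowerSeries.X 1 ^ 2 + MvPowerSeries.X 0 ^ κ) ξ U D) {s : ℂ}
    (hs : s * (2 * ((d : ℂ) + κ)) = -(2 * ((t : ℂ) + 3) + ((t : ℂ) + 2) * κ))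
    {b : Polynomial ℂ} (hb : InPs (f : MvPowerSeries (Fin (t + 3)) ℂ) 1
      (b.map (MvPowerSeries.C (σ := Fin (t + 3)) (R := ℂ)))) (hb0 : b.eval s ≠ 0)
    (δ' : Fin (t + 2) → Derivation ℂ B B) {T : Fin (t + 2) → B}
    {Q : Bˣ} (hQ : (Q : B) = 1 + ∑ j, T j ^ 2) (hT : ∀ a b, δ' a (T b) = if a = b then 1 else 0)
    (hδ' : ∀ a b x, δ' a (δ' b x) = δ' b (δ' a x)) :
    ∃ r : Fin (t + 2) → B, (1 : B) =
      ∑ a, (δ' a (r a) + algebraMap ℂ B s * (((Q⁻¹ : Bˣ) : B) * δ' a Q) * r a) := by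
  classical
  have hz := im_zero hκ T
  set X' : MvPowerSeries Unit B := MvPowerSeries.X () with hX'
  have hps0 : ps hz (MvPowerSeries.X 0) = X' ^ 2 := ps_X hz 0
  have hX0 : ∀ l, MvPowerSeries.constantCoeff (ps hz (MvPowerSeries.X 0 * ξ l)) = 0 :=
    fun l => by
      rw [cc_ps, map_mul, MvPowerSeries.constantCoeff_X, zero_mul, map_zero]
  -- the substitution
  have hθX : ∀ l, ps hX0 (MvPowerSeries.X l) = ps hz (MvPowerSeries.X 0 * ξ l) := ps_X hX0
  have hθf : ps hX0 (f : MvPowerSeries (Fin (t + 3)) ℂ) =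
      ps hz (MvPowerSeries.subst (fun i => MvPowerSeries.X 0 * ξ i)
        (f : MvPowerSeries (Fin (t + 3)) ℂ)) := by
    have h1 : ps hX0 (f : MvPowerSeries (Fin (t + 3)) ℂ) =
        aeval (fun l => ps hz (MvPowerSeries.X 0 * ξ l)) f := by
      unfold ps
      rw [MvPowerSeries.coe_substAlgHom, MvPowerSeries.subst_coe]
    rw [h1, MvPowerSeries.subst_coe]
    have h2 := comp_aeval (R := ℂ) (fun i => MvPowerSeries.X 0 * ξ i) (ps hz)
    exact (DFunLike.congr_fun h2 f).symm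
  have hVf : ps hX0 (f : MvPowerSeries (Fin (t + 3)) ℂ) =
      MvPowerSeries.monomial (Finsupp.single () (2 * (d + κ))) 1 *
        (MvPowerSeries.C (Q : B) * ps hz U) := by
    rw [hθf, hc.hf, map_mul, map_mul, map_pow, hps0, ps_kz hκ T, ← hQ, ← MvPowerSeries.X_pow_eq,
      ← hX']
    ring
  -- the unit
  set cU : ℂ := MvPowerSeries.constantCoeff U with hcU
  set cD : ℂ := MvPowerSeries.constantCoeff D with hcD
  have hcU0 : cU ≠ 0 := hc.hU
  have hcD0 : cD ≠ 0 := hc.hD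
  let φ₀ : Bˣ := Units.map (algebraMap ℂ B).toMonoidHom (Units.mk0 cU hcU0)
  let φ : Bˣ := Q * φ₀
  have hφ1 : (φ : B) = Q * algebraMap ℂ B cU := rfl
  have hφ : MvPowerSeries.constantCoeff (MvPowerSeries.C (Q : B) * ps hz U) = (φ : B) := by
    rw [map_mul, MvPowerSeries.constantCoeff_C, cc_ps, hφ1]
  have hlog : ∀ a, ((φ⁻¹ : Bˣ) : B) * δ' a φ = ((Q⁻¹ : Bˣ) : B) * δ' a Q := by
    intro a
    have h1 : ((φ⁻¹ : Bˣ) : B) = ((Q⁻¹ : Bˣ) : B) * ((φ₀⁻¹ : Bˣ) : B) := by
      have h5 : φ⁻¹ = Q⁻¹ * φ₀⁻¹ := _root_.mul_inv Q φ₀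
      rw [h5, Units.val_mul]
    have h2 : ((φ₀⁻¹ : Bˣ) : B) * algebraMap ℂ B cU = 1 := Units.inv_mul φ₀
    rw [hφ1, Derivation.leibniz, Derivation.map_algebraMap, smul_zero, zero_add, smul_eq_mul, h1]
    linear_combination (((Q⁻¹ : Bˣ) : B) * δ' a Q) * h2
  -- the Jacobian
  have hdet : (ARL.jm (fun l => ARL.rowD δ'
      ((Fin.cons (Sum.inl ()) Sum.inr : Fin (t + 3) → Unit ⊕ Fin (t + 2)) l))
        fun l => ps hX0 (MvPowerSeries.X l)).det =
      MvPowerSeries.monomial (Finsupp.single () (2 * (t + 3) + (t + 2) * κ)) 1 *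
        (2 * ps hz D) := by
    rw [funext hθX, det_ps hz, det_im T hT, hc.hdet, map_mul, map_pow, hps0,
      ← MvPowerSeries.X_pow_eq, ← hX']
    ring
  have hDN : 0 < 2 * (d + κ) := by omega
  have hDC : (2 * ((d : ℂ) + κ)) ≠ 0 := by exact_mod_cast hDN.ne'
  have hs1 : s = -(((2 * (t + 3) + (t + 2) * κ : ℕ) : ℂ) / ((2 * (d + κ) : ℕ) : ℂ)) := by
    push_cast
    rw [← neg_div, eq_div_iff hDC]
    linear_combination hs
  obtain ⟨r, hr⟩ := ARL.residue_corner (τ := Unit) (β := Fin (t + 2))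
    (Fin.cons (Sum.inl ()) Sum.inr : Fin (t + 3) → Unit ⊕ Fin (t + 2)) hδ' (θ := ps hX0)
    (fun l => by rw [hθX]; exact hX0 l) hVf hφ (ν := 2 * (t + 3) + (t + 2) * κ)
    (D := 2 * (d + κ)) hDN hs1 (Mon := ∅) (M := fun _ => 0) (by simp)
    (l := fun _ => 0) hdet (fun j => by
      rw [Finsupp.single_apply, Finsupp.single_apply, if_pos (Subsingleton.elim _ _),
        if_pos (Subsingleton.elim _ _), Finset.sum_empty, add_zero]
      push_cast
      linear_combination hs) (j₀ := ()) (by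
      rw [Finsupp.single_eq_same]; exact hDN) (by simp) hb hb0
  -- the constant coefficient
  have hleft : algebraMap ℂ B ((2 * cD)⁻¹) *
      MvPowerSeries.constantCoeff (2 * ps hz D : MvPowerSeries Unit B) = 1 := by
    have h2 : (2 : MvPowerSeries Unit B) = algebraMap ℂ (MvPowerSeries Unit B) 2 := by
      rw [map_ofNat]
    have h3 : (2 * ps hz D : MvPowerSeries Unit B) = ps hz (2 * D) := by
      rw [map_mul, map_ofNat]
    rw [h3, cc_ps, map_mul, map_ofNat, ← hcD, ← map_mul,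
      inv_mul_cancel₀ (mul_ne_zero two_ne_zero hcD0), map_one]
  refine ⟨fun a => algebraMap ℂ B ((2 * cD)⁻¹) * r a, ?_⟩
  rw [← hleft, hr, Finset.mul_sum]
  refine Finset.sum_congr rfl fun a _ => ?_
  rw [Derivation.leibniz, Derivation.map_algebraMap, smul_zero, add_zero, smul_eq_mul, hlog]
  ring

end YG

end MPb07157
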