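import Pool.Agent.Lib.MP_b07157_agYG.ResN

/-!
# The residue lemma in the chart of the normal form
-/

noncomputable section

namespace MPb07157

open MvPolynomial TensorProduct

namespace YG

open PC SU SI YL

namespace ResGA

/-- A block determinant. -/
theorem det_blk {R : Type} [CommRing R] {t : ℕ} (M : Matrix (Fin (t + 3)) (Fin (t + 3)) R) (c : R)
    (h0 : ∀ i : Fin (t + 1), M i.succ.succ 0 = 0) (h1 : ∀ i : Fin (t + 1), M i.succ.succ 1 = 0)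
    (h2 : ∀ i j : Fin (t + 1), M i.succ.succ j.succ.succ = if i = j then c else 0) :
    M.det = c ^ (t + 1) * (M 0 0 * M 1 1 - M 0 1 * M 1 0) := by
  classical
  -- the determinant of a matrix of size `t + 2`
  have key : ∀ N : Matrix (Fin (t + 2)) (Fin (t + 2)) R, (∀ i : Fin (t + 1), N i.succ 0 = 0) →
      (∀ i j : Fin (t + 1), N i.succ j.succ = if i = j then c else 0) →
      N.det = N 0 0 * c ^ (t + 1) := by
    intro N hN0 hN1
    have hup : N.BlockTriangular id := by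
      intro i j hij
      revert hij
      refine Fin.cases ?_ (fun i => ?_) i
      · intro hij
        exact absurd hij (Fin.not_lt_zero _)
      · refine Fin.cases ?_ (fun j => ?_) j
        · intro _
          exact hN0 i
        · intro hij
          rw [hN1, if_neg]
          rintro rfl
          exact lt_irrefl _ hij
    rw [Matrix.det_of_isUpperTriangular hup, Fin.prod_univ_succ]
    congr 1
    have h3 : ∀ i : Fin (t + 1), N i.succ i.succ = c := fun i => by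
      rw [hN1, if_pos rfl]
    rw [Finset.prod_congr rfl fun i _ => h3 i, Finset.prod_const, Finset.card_univ,
      Fintype.card_fin]
  have e1 : (1 : Fin (t + 3)) = (0 : Fin (t + 2)).succ := rfl
  rw [Matrix.det_succ_column_zero, Fin.sum_univ_succ, Fin.sum_univ_succ]
  rw [Finset.sum_eq_zero (fun i _ => by rw [h0, mul_zero, zero_mul]), add_zero]
  have k0 : (M.submatrix ((0 : Fin (t + 3)).succAbove) Fin.succ).det = M 1 1 * c ^ (t + 1) := by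
    refine key _ (fun i => ?_) (fun i j => ?_)
    · exact h1 i
    · exact h2 i j
  have hs : ∀ i : Fin (t + 1), (0 : Fin (t + 2)).succ.succAbove i.succ = i.succ.succ := by
    intro i
    rw [Fin.succ_succAbove_succ, Fin.zero_succAbove]
  have hz : (0 : Fin (t + 2)).succ.succAbove 0 = (0 : Fin (t + 3)) :=
    Fin.succ_succAbove_zero _
  have k1 : (M.submatrix ((0 : Fin (t + 2)).succ.succAbove) Fin.succ).det =
      M 0 1 * c ^ (t + 1) := by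
    refine (key _ (fun i => ?_) (fun i j => ?_)).trans ?_
    · rw [Matrix.submatrix_apply, hs]
      exact h1 i
    · rw [Matrix.submatrix_apply, hs]
      exact h2 i j
    · rw [Matrix.submatrix_apply, hz]
      rfl
  rw [k0, k1, ← e1]
  simp only [Fin.val_zero, pow_zero, one_mul]
  have e2 : ((1 : Fin (t + 3)) : ℕ) = 1 := rfl
  rw [e2, pow_one]
  ring

section

variable {K : Type} [Field K] [Algebra ℂ K] {K' : Type} [CommRing K'] [Algebra ℂ K']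
  {B : Type} [CommRing B] [Algebra ℂ B]

/-- The images of `u, y, x`. -/
def im {t : ℕ} (i : K →ₐ[ℂ] K') {e : ℕ} (he : e ≠ 0) (w : K') (T : Fin (t + 1) → B) (N : ℕ)
    (Θ : Fin 2 → PowerSeries K) : Fin (t + 3) → MvPowerSeries Unit (K' ⊗[ℂ] B) :=
  Fin.cons (iS B (eE i he (Θ 0))) (Fin.cons (iS B (eE i he (Θ 1))) fun j => ucE w (T j) N)

variable {t : ℕ} (i : K →ₐ[ℂ] K') {e : ℕ} (he : e ≠ 0) (w : K') (T : Fin (t + 1) → B) {N : ℕ}
  (hN : 0 < N) {Θ : Fin 2 → PowerSeries K} (h0 : ∀ i, PowerSeries.constantCoeff (Θ i) = 0)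

include hN h0 in
theorem im_zero (j : Fin (t + 3)) : MvPowerSeries.constantCoeff (im i he w T N Θ j) = 0 := by
  have h1 : ∀ j, MvPowerSeries.constantCoeff (iS B (eE i he (Θ j))) = 0 := fun j => by
    rw [constantCoeff_iS, constantCoeff_eE i he (h0 j), TensorProduct.zero_tmul]
  refine Fin.cases ?_ (fun j => ?_) j
  · exact h1 0
  · refine Fin.cases ?_ (fun j => ?_) j
    · exact h1 1
    · show MvPowerSeries.constantCoeff (ucE w (T j) N) = 0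
      unfold ucE
      rw [map_mul, map_pow, MvPowerSeries.constantCoeff_X, zero_pow hN.ne', mul_zero]

/-- The value of `k(u, y) + ∑ x_j²`. -/
theorem ps_kz (k : P2) : ResNA.ps (im_zero i he w T hN h0) (kzG t k) =
    iS B (eE i he (MvPowerSeries.subst (Θ : Fin 2 → MvPowerSeries Unit K) k : PowerSeries K)) +
      ∑ j, ucE w (T j) N ^ 2 := by
  have hcs : MvPowerSeries.HasSubst (fun j : Fin 2 =>
      (MvPowerSeries.X (Fin.castLE (by omega) j) : MvPowerSeries (Fin (t + 3)) ℂ)) :=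
    MvPowerSeries.hasSubst_of_constantCoeff_zero fun j => MvPowerSeries.constantCoeff_X _
  have hΘs : MvPowerSeries.HasSubst (Θ : Fin 2 → MvPowerSeries Unit K) :=
    MvPowerSeries.hasSubst_of_constantCoeff_zero h0
  have hz := im_zero i he w T hN h0
  let A₁ : MvPowerSeries (Fin 2) ℂ →ₐ[ℂ] MvPowerSeries Unit (K' ⊗[ℂ] B) :=
    (ResNA.ps hz).comp (MvPowerSeries.substAlgHom hcs)
  let A₂ : MvPowerSeries (Fin 2) ℂ →ₐ[ℂ] MvPowerSeries Unit (K' ⊗[ℂ] B) :=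
    (iS B).comp ((eE i he).comp (MvPowerSeries.substAlgHom hΘs))
  have hA₁ : ∀ j, A₁ (MvPowerSeries.X j) = im i he w T N Θ (Fin.castLE (by omega) j) := fun j => by
    show ResNA.ps hz (MvPowerSeries.substAlgHom hcs (MvPowerSeries.X j)) = _
    rw [MvPowerSeries.substAlgHom_X hcs j, ResNA.ps_X]
  have hA₂ : ∀ j, A₂ (MvPowerSeries.X j) = iS B (eE i he (Θ j)) := fun j => by
    show iS B (eE i he (MvPowerSeries.substAlgHom hΘs (MvPowerSeries.X j))) = _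
    rw [MvPowerSeries.substAlgHom_X hΘs j]
  have h1 : A₁ k = A₂ k := by
    refine YX.Res2.hom_eq (fun j => ?_) (fun j => ?_) k
    · rw [hA₁]
      exact hz _
    · rw [hA₁, hA₂]
      fin_cases j
      · rfl
      · rfl
  have h2 : A₁ k = ResNA.ps hz (MvPowerSeries.subst (fun j : Fin 2 =>
      (MvPowerSeries.X (Fin.castLE (by omega) j) : MvPowerSeries (Fin (t + 3)) ℂ)) k) := by
    show ResNA.ps hz (MvPowerSeries.substAlgHom hcs k) = _
    rw [MvPowerSeries.coe_substAlgHom]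
  have h3 : A₂ k = iS B (eE i he (MvPowerSeries.subst (Θ : Fin 2 → MvPowerSeries Unit K) k :
      PowerSeries K)) := by
    show iS B (eE i he (MvPowerSeries.substAlgHom hΘs k)) = _
    rw [MvPowerSeries.coe_substAlgHom]
  unfold kzG
  rw [map_add, map_sum, ← h2, h1, h3]
  congr 1
  refine Finset.sum_congr rfl fun j _ => ?_
  rw [map_pow, ResNA.ps_X]
  rfl

/-- The determinant of the matrix of the derivatives of the images. -/
theorem det_im {δ : Derivation ℂ K K} {δ₁ : Derivation ℂ K' K'}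
    (hδ : ∀ a, δ₁ (i a) = i (δ a)) {δ' : Fin (t + 1) → Derivation ℂ B B}
    (hT : ∀ a b, δ' a (T b) = if a = b then 1 else 0)
    {D' : Option (Fin (t + 1)) → Derivation ℂ (K' ⊗[ℂ] B) (K' ⊗[ℂ] B)}
    (hD0 : D' none = dL δ₁) (hD1 : ∀ a, D' (some a) = dR (δ' a)) :
    (Matrix.of fun a j : Fin (t + 3) => ARL.rowD D'
      ((Fin.cons (Sum.inl ()) (Fin.cons (Sum.inr none) fun j => Sum.inr (some j)) :
        Fin (t + 3) → Unit ⊕ Option (Fin (t + 1))) a) (im i he w T N Θ j)).det =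
      (MvPowerSeries.C (w ⊗ₜ[ℂ] (1 : B)) * MvPowerSeries.X () ^ N) ^ (t + 1) *
        ((e : MvPowerSeries Unit (K' ⊗[ℂ] B)) *
          (MvPowerSeries.X () ^ e * iS B (eE i he (PC.jacK δ Θ)))) := by
  classical
  set M := Matrix.of fun a j : Fin (t + 3) => ARL.rowD D'
      ((Fin.cons (Sum.inl ()) (Fin.cons (Sum.inr none) fun j => Sum.inr (some j)) :
        Fin (t + 3) → Unit ⊕ Option (Fin (t + 1))) a) (im i he w T N Θ j) with hM
  have k00 : M 0 0 = ARL.lg () (iS B (eE i he (Θ 0))) := rfl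
  have k01 : M 0 1 = ARL.lg () (iS B (eE i he (Θ 1))) := rfl
  have k10 : M 1 0 = ARL.cw (dL δ₁) (iS B (eE i he (Θ 0))) := by
    rw [← hD0]
    rfl
  have k11 : M 1 1 = ARL.cw (dL δ₁) (iS B (eE i he (Θ 1))) := by
    rw [← hD0]
    rfl
  have hj := jac_iS_eE (B := B) i he hδ (Θ := Θ) (fun _ => 0)
  simp only [map_zero, add_zero] at hj
  rw [det_blk M (MvPowerSeries.C (w ⊗ₜ[ℂ] (1 : B)) * MvPowerSeries.X () ^ N) ?_ ?_ ?_, k00, k01,
    k10, k11, ← hj]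
  · intro a
    show ARL.cw (D' (some a)) (iS B (eE i he (Θ 0))) = 0
    rw [hD1, cw_dR_iS B (δ' a) (eE i he (Θ 0))]
  · intro a
    show ARL.cw (D' (some a)) (iS B (eE i he (Θ 1))) = 0
    rw [hD1, cw_dR_iS B (δ' a) (eE i he (Θ 1))]
  · intro a j
    show ARL.cw (D' (some a)) (ucE w (T j) N) = _
    rw [hD1, cw_dR_ucE (δ' a) w (T j) N, hT]
    split_ifs with h
    · rfl
    · rw [TensorProduct.tmul_zero, map_zero, zero_mul]

end

end ResGA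

variable {K : Type} [Field K] [Algebra ℂ K] {K' : Type} [CommRing K'] [Algebra ℂ K']
  {B : Type} [CommRing B] [Algebra ℂ B]

/-- **The residue lemma.** As `YX.residue_kz` (`agYX/Res2.lean`): `(u, y) = Θ(t²)`,
`x_j = t^N w T_j`; `f = t^(2 (d m + N)) (U(0) i(u₀)^d w² ⊗ (1 + ∑ T_j²) + O(t))`, and the Jacobian
determinant (in `log t`) is `± t^(2 (t+2) m + (t+1) N + 2 ν) (2 D(0) i(u₀^(t+2) J₀) w^(t+1) ⊗ 1 + ⋯)`
(block matrix: `u`, `y` do not depend on the `T_j`). -/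
theorem residue_kzG {t : ℕ} {f : MvPolynomial (Fin (t + 3)) ℂ} {d : ℕ} {k : P2}
    {ξ : Fin (t + 3) → MvPowerSeries (Fin (t + 3)) ℂ} {U D : MvPowerSeries (Fin (t + 3)) ℂ}
    (hc : IsChartG f d k ξ U D) {s : ℂ} {ν N m : ℕ} (hN : 0 < N) (hν : 0 < ν) (hm : 0 < m)
    (hs : s * (2 * ((d : ℂ) * m + N)) = -(2 * (ν : ℂ) + 2 * ((t : ℂ) + 2) * m + ((t : ℂ) + 1) * N))
    {b : Polynomial ℂ} (hb : InPs (f : MvPowerSeries (Fin (t + 3)) ℂ) 1
      (b.map (MvPowerSeries.C (σ := Fin (t + 3)) (R := ℂ)))) (hb0 : b.eval s ≠ 0)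
    (i : K →ₐ[ℂ] K') (δ : Derivation ℂ K K) (δ₁ : Derivation ℂ K' K')
    (hδ : ∀ a, δ₁ (i a) = i (δ a)) {J₀ f₀ u₀ : K} (hf₀ : f₀ ≠ 0) (hu₀ : u₀ ≠ 0) (w : K'ˣ)
    (hw : (w : K') ^ 2 = i f₀) (δ' : Fin (t + 1) → Derivation ℂ B B) {T : Fin (t + 1) → B}
    {Q : Bˣ} (hQ : (Q : B) = 1 + ∑ j, T j ^ 2) (hT : ∀ a b, δ' a (T b) = if a = b then 1 else 0)
    (hδ' : ∀ a b x, δ' a (δ' b x) = δ' b (δ' a x))
    {Θ : Fin 2 → PowerSeries K} (h0 : ∀ i, PowerSeries.constantCoeff (Θ i) = 0)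
    {J₁ F₁ U₁ : PowerSeries K}
    (hJ : PC.jacK δ Θ = PowerSeries.X ^ (ν - 1) * (PowerSeries.C J₀ + PowerSeries.X * J₁))
    (hF : (MvPowerSeries.subst (Θ : Fin 2 → MvPowerSeries Unit K) k : PowerSeries K) =
      PowerSeries.X ^ N * (PowerSeries.C f₀ + PowerSeries.X * F₁))
    (hΘ : Θ 0 = PowerSeries.X ^ m * (PowerSeries.C u₀ + PowerSeries.X * U₁)) :
    ∃ (r₀ : K' ⊗[ℂ] B) (r₁ : Fin (t + 1) → K' ⊗[ℂ] B),
      ((w : K') ^ (t + 1) * i (u₀ ^ (t + 2) * J₀)) ⊗ₜ (1 : B) =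
        dL δ₁ r₀ + ((algebraMap ℂ K' s * i ((d : K) * (δ u₀ / u₀) + δ f₀ / f₀)) ⊗ₜ[ℂ] (1 : B)) *
          r₀ +
        ∑ a, (dR (δ' a) (r₁ a) + ((1 : K') ⊗ₜ[ℂ] (algebraMap ℂ B s *
          (((Q⁻¹ : Bˣ) : B) * δ' a Q))) * r₁ a) := by
  classical
  obtain ⟨e, he⟩ : ∃ e : ℕ, e = 2 := ⟨2, rfl⟩
  have he' : e ≠ 0 := by omega
  have hz := ResGA.im_zero i he' (w : K') T hN h0
  set X' : MvPowerSeries Unit (K' ⊗[ℂ] B) := MvPowerSeries.X () with hX'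
  -- the substitution
  have hps0 : ResNA.ps hz (MvPowerSeries.X 0) = iS B (eE i he' (Θ 0)) := ResNA.ps_X hz 0
  have hX0 : ∀ l, MvPowerSeries.constantCoeff (ResNA.ps hz (MvPowerSeries.X 0 * ξ l)) = 0 :=
    fun l => by
      rw [ResNA.cc_ps, map_mul, MvPowerSeries.constantCoeff_X, zero_mul, map_zero]
  have hθX : ∀ l, ResNA.ps hX0 (MvPowerSeries.X l) = ResNA.ps hz (MvPowerSeries.X 0 * ξ l) :=
    ResNA.ps_X hX0
  have hθf : ResNA.ps hX0 (f : MvPowerSeries (Fin (t + 3)) ℂ) =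
      ResNA.ps hz (MvPowerSeries.subst (fun i => MvPowerSeries.X 0 * ξ i)
        (f : MvPowerSeries (Fin (t + 3)) ℂ)) := by
    have h1 : ResNA.ps hX0 (f : MvPowerSeries (Fin (t + 3)) ℂ) =
        aeval (fun l => ResNA.ps hz (MvPowerSeries.X 0 * ξ l)) f := by
      unfold ResNA.ps
      rw [MvPowerSeries.coe_substAlgHom, MvPowerSeries.subst_coe]
    rw [h1, MvPowerSeries.subst_coe]
    have h2 := comp_aeval (R := ℂ) (fun i => MvPowerSeries.X 0 * ξ i) (ResNA.ps hz)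
    exact (DFunLike.congr_fun h2 f).symm
  -- the value of `f`
  have l0 := YX.Res2.lead (B := B) i he' hΘ
  have lF := YX.Res2.lead (B := B) i he' hF
  have lJ := YX.Res2.lead (B := B) i he' hJ
  rw [← hX'] at l0 lF lJ
  obtain ⟨V₀, hV₀⟩ : ∃ V₀ : MvPowerSeries Unit (K' ⊗[ℂ] B), V₀ =
      MvPowerSeries.C (i u₀ ⊗ₜ[ℂ] (1 : B)) + X' ^ e * iS B (eE i he' U₁) := ⟨_, rfl⟩
  obtain ⟨V₁, hV₁⟩ : ∃ V₁ : MvPowerSeries Unit (K' ⊗[ℂ] B), V₁ =
      MvPowerSeries.C (i f₀ ⊗ₜ[ℂ] (Q : B)) + X' ^ e * iS B (eE i he' F₁) := ⟨_, rfl⟩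
  obtain ⟨V₂, hV₂⟩ : ∃ V₂ : MvPowerSeries Unit (K' ⊗[ℂ] B), V₂ =
      MvPowerSeries.C (i J₀ ⊗ₜ[ℂ] (1 : B)) + X' ^ e * iS B (eE i he' J₁) := ⟨_, rfl⟩
  rw [← hV₀] at l0
  rw [← hV₂] at lJ
  have hucE : ∀ j, ucE (w : K') (T j) N ^ 2 =
      X' ^ (e * N) * MvPowerSeries.C (i f₀ ⊗ₜ[ℂ] (T j ^ 2)) := by
    intro j
    unfold ucE
    rw [mul_pow, ← map_pow, Algebra.TensorProduct.tmul_pow, hw, ← pow_mul, mul_comm N 2, ← hX',
      mul_comm, he]
  have hkz : ResNA.ps hz (kzG t k) = X' ^ (e * N) * V₁ := by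
    rw [ResGA.ps_kz i he' (w : K') T hN h0 k, lF, Finset.sum_congr rfl fun j _ => hucE j, hV₁, hQ,
      TensorProduct.tmul_add, TensorProduct.tmul_sum, map_add, map_sum, ← Finset.mul_sum]
    ring
  have hVf : ResNA.ps hX0 (f : MvPowerSeries (Fin (t + 3)) ℂ) =
      MvPowerSeries.monomial (Finsupp.single () (e * (d * m + N))) 1 *
        (V₀ ^ d * (V₁ * ResNA.ps hz U)) := by
    rw [hθf, hc.hf, map_mul, map_mul, map_pow, hps0, hkz, l0, ← MvPowerSeries.X_pow_eq, ← hX']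
    ring
  have hcB : ∀ x : ℂ, algebraMap ℂ (K' ⊗[ℂ] B) x = (1 : K') ⊗ₜ[ℂ] (algebraMap ℂ B x) := by
    intro x
    rw [Algebra.TensorProduct.algebraMap_apply, Algebra.algebraMap_eq_smul_one,
      TensorProduct.smul_tmul, Algebra.algebraMap_eq_smul_one]
  have hcK : ∀ x : ℂ, algebraMap ℂ (K' ⊗[ℂ] B) x = (algebraMap ℂ K' x) ⊗ₜ[ℂ] (1 : B) := by
    intro x
    rw [Algebra.TensorProduct.algebraMap_apply]
  -- the unit
  set cU : ℂ := MvPowerSeries.constantCoeff U with hcU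
  set cD : ℂ := MvPowerSeries.constantCoeff D with hcD
  have hcU0 : cU ≠ 0 := hc.hU
  have hcD0 : cD ≠ 0 := hc.hD
  let φ₀ : Bˣ := Units.map (algebraMap ℂ B).toMonoidHom (Units.mk0 cU hcU0)
  obtain ⟨P, hPdef⟩ : ∃ P : Bˣ, P = φ₀ * Q := ⟨_, rfl⟩
  have hP : (P : B) = algebraMap ℂ B cU * Q := by
    rw [hPdef]
    rfl
  have hPi : ((P⁻¹ : Bˣ) : B) * P = 1 := Units.inv_mul P
  have hPi' : (P : B) * ((P⁻¹ : Bˣ) : B) = 1 := Units.mul_inv P
  obtain ⟨g₀, hg₀⟩ : ∃ g₀ : K, g₀ = u₀ ^ d * f₀ := ⟨_, rfl⟩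
  have hg0 : g₀ ≠ 0 := by
    rw [hg₀]
    exact mul_ne_zero (pow_ne_zero _ hu₀) hf₀
  have hgg : i g₀ * i g₀⁻¹ = 1 := by rw [← map_mul, mul_inv_cancel₀ hg0, map_one]
  let φ : (K' ⊗[ℂ] B)ˣ := ⟨(i g₀) ⊗ₜ[ℂ] (P : B), (i g₀⁻¹) ⊗ₜ[ℂ] ((P⁻¹ : Bˣ) : B), by
    rw [Algebra.TensorProduct.tmul_mul_tmul, hgg, hPi']; rfl, by
    rw [Algebra.TensorProduct.tmul_mul_tmul, mul_comm (i g₀⁻¹), hgg, hPi]; rfl⟩
  have hφ1 : (φ : K' ⊗[ℂ] B) = (i g₀) ⊗ₜ[ℂ] (P : B) := rfl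
  have hφ2 : ((φ⁻¹ : (K' ⊗[ℂ] B)ˣ) : K' ⊗[ℂ] B) = (i g₀⁻¹) ⊗ₜ[ℂ] ((P⁻¹ : Bˣ) : B) := rfl
  have c0 : MvPowerSeries.constantCoeff V₀ = i u₀ ⊗ₜ[ℂ] (1 : B) := by
    rw [hV₀, map_add, map_mul, map_pow, MvPowerSeries.constantCoeff_C, hX',
      MvPowerSeries.constantCoeff_X, zero_pow he', zero_mul, add_zero]
  have c1 : MvPowerSeries.constantCoeff V₁ = i f₀ ⊗ₜ[ℂ] (Q : B) := by
    rw [hV₁, map_add, map_mul, map_pow, MvPowerSeries.constantCoeff_C, hX',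
      MvPowerSeries.constantCoeff_X, zero_pow he', zero_mul, add_zero]
  have c2 : MvPowerSeries.constantCoeff V₂ = i J₀ ⊗ₜ[ℂ] (1 : B) := by
    rw [hV₂, map_add, map_mul, map_pow, MvPowerSeries.constantCoeff_C, hX',
      MvPowerSeries.constantCoeff_X, zero_pow he', zero_mul, add_zero]
  have hφ : MvPowerSeries.constantCoeff (V₀ ^ d * (V₁ * ResNA.ps hz U)) = φ := by
    rw [map_mul, map_mul, map_pow, c0, c1, ResNA.cc_ps, ← hcU, hcB,
      Algebra.TensorProduct.tmul_pow, one_pow, Algebra.TensorProduct.tmul_mul_tmul,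
      Algebra.TensorProduct.tmul_mul_tmul, hφ1, hP, hg₀, map_mul, map_pow, mul_one, one_mul,
      mul_comm (Q : B)]
  -- the derivations
  let D' : Option (Fin (t + 1)) → Derivation ℂ (K' ⊗[ℂ] B) (K' ⊗[ℂ] B) :=
    fun o => o.elim (dL δ₁) fun a => dR (δ' a)
  have hRR : ∀ (a a' : Fin (t + 1)) (x : K' ⊗[ℂ] B),
      dR (δ' a) (dR (δ' a') x) = dR (δ' a') (dR (δ' a) x) := by
    intro a a' x
    induction x using TensorProduct.induction_on with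
    | zero => simp
    | tmul x y => rw [dR_tmul, dR_tmul, dR_tmul, dR_tmul, hδ']
    | add x y hx hy => rw [map_add, map_add, map_add, map_add, hx, hy]
  have hD' : ∀ b b' x, D' b (D' b' x) = D' b' (D' b x) := by
    intro b b' x
    rcases b with _ | a <;> rcases b' with _ | a'
    · rfl
    · exact dL_dR δ₁ (δ' a') x
    · exact (dL_dR δ₁ (δ' a) x).symm
    · exact hRR a a' x
  -- the Jacobian
  have hdet : (ARL.jm (fun l => ARL.rowD D'
      ((Fin.cons (Sum.inl ()) (Fin.cons (Sum.inr none) fun j => Sum.inr (some j)) :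
        Fin (t + 3) → Unit ⊕ Option (Fin (t + 1))) l))
        fun l => ResNA.ps hX0 (MvPowerSeries.X l)).det =
      MvPowerSeries.monomial (Finsupp.single () (e * ν + e * (t + 2) * m + (t + 1) * N)) 1 *
        (MvPowerSeries.C ((w : K') ⊗ₜ[ℂ] (1 : B)) ^ (t + 1) *
          ((e : MvPowerSeries Unit (K' ⊗[ℂ] B)) * V₂) * (V₀ ^ (t + 2) * ResNA.ps hz D)) := by
    rw [funext hθX, ResNA.det_ps hz, ResGA.det_im i he' (w : K') T hδ hT rfl (fun _ => rfl),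
      hc.hdet, map_mul, map_pow, hps0, l0, lJ, ← MvPowerSeries.X_pow_eq, ← hX']
    obtain ⟨ν', rfl⟩ : ∃ ν', ν = ν' + 1 := ⟨ν - 1, by omega⟩
    rw [Nat.add_sub_cancel]
    ring
  have hDN : 0 < e * (d * m + N) := Nat.mul_pos (by omega) (by omega)
  have hDC : (2 * ((d : ℂ) * m + N)) ≠ 0 := by
    have h1 : (2 * (d * m + N) : ℕ) ≠ 0 := by omega
    exact_mod_cast h1
  have hs1 : s = -(((e * ν + e * (t + 2) * m + (t + 1) * N : ℕ) : ℂ) /
      ((e * (d * m + N) : ℕ) : ℂ)) := by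
    rw [he]
    push_cast
    rw [← neg_div, eq_div_iff hDC]
    linear_combination hs
  obtain ⟨r, hr⟩ := ARL.residue_corner (τ := Unit) (β := Option (Fin (t + 1)))
    (Fin.cons (Sum.inl ()) (Fin.cons (Sum.inr none) fun j => Sum.inr (some j)) :
        Fin (t + 3) → Unit ⊕ Option (Fin (t + 1))) hD' (θ := ResNA.ps hX0)
    (fun l => by rw [hθX]; exact hX0 l) hVf hφ (ν := e * ν + e * (t + 2) * m + (t + 1) * N)
    (D := e * (d * m + N)) hDN hs1 (Mon := ∅) (M := fun _ => 0) (by simp)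
    (l := fun _ => 0) hdet (fun j => by
      rw [Finsupp.single_apply, Finsupp.single_apply, if_pos (Subsingleton.elim _ _),
        if_pos (Subsingleton.elim _ _), Finset.sum_empty, add_zero, he]
      push_cast
      linear_combination hs) (j₀ := ()) (by
      rw [Finsupp.single_eq_same]; exact hDN) (by simp) hb hb0
  -- the constant coefficient
  obtain ⟨κ, hκ⟩ : ∃ κ : K' ⊗[ℂ] B, κ = algebraMap ℂ (K' ⊗[ℂ] B) ((e : ℂ)⁻¹ * cD⁻¹) := ⟨_, rfl⟩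
  have heC : (e : ℂ) ≠ 0 := by exact_mod_cast he'
  have hleft : κ * MvPowerSeries.constantCoeff (MvPowerSeries.C ((w : K') ⊗ₜ[ℂ] (1 : B)) ^ (t + 1) *
      ((e : MvPowerSeries Unit (K' ⊗[ℂ] B)) * V₂) * (V₀ ^ (t + 2) * ResNA.ps hz D)) =
      ((w : K') ^ (t + 1) * i (u₀ ^ (t + 2) * J₀)) ⊗ₜ[ℂ] (1 : B) := by
    rw [map_mul, map_mul, map_mul, map_mul, map_pow, map_pow, map_natCast,
      MvPowerSeries.constantCoeff_C, c0, c2, ResNA.cc_ps, ← hcD, Algebra.TensorProduct.tmul_pow,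
      Algebra.TensorProduct.tmul_pow, one_pow, one_pow, hκ,
      ← map_natCast (algebraMap ℂ (K' ⊗[ℂ] B)) e]
    have h1 : algebraMap ℂ (K' ⊗[ℂ] B) ((e : ℂ)⁻¹ * cD⁻¹) *
        (algebraMap ℂ (K' ⊗[ℂ] B) (e : ℂ) * algebraMap ℂ (K' ⊗[ℂ] B) cD) = 1 := by
      rw [← map_mul, ← map_mul, show (e : ℂ)⁻¹ * cD⁻¹ * ((e : ℂ) * cD) = 1 by field_simp, map_one]
    have h2 : ((w : K') ^ (t + 1)) ⊗ₜ[ℂ] (1 : B) * (i J₀ ⊗ₜ[ℂ] (1 : B)) *
        ((i u₀ ^ (t + 2)) ⊗ₜ[ℂ] (1 : B)) =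
        ((w : K') ^ (t + 1) * i (u₀ ^ (t + 2) * J₀)) ⊗ₜ[ℂ] (1 : B) := by
      rw [Algebra.TensorProduct.tmul_mul_tmul, Algebra.TensorProduct.tmul_mul_tmul, mul_one,
        mul_one, map_mul, map_pow]
      congr 1
      ring
    rw [← h2]
    linear_combination (((w : K') ^ (t + 1)) ⊗ₜ[ℂ] (1 : B) * (i J₀ ⊗ₜ[ℂ] (1 : B)) *
      ((i u₀ ^ (t + 2)) ⊗ₜ[ℂ] (1 : B))) * h1
  have hDκ : ∀ b, D' b κ = 0 := by
    intro b
    rw [hκ, Derivation.map_algebraMap]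
  rw [Fintype.sum_option] at hr
  refine ⟨κ * r none, fun a => κ * r (some a), ?_⟩
  rw [← hleft, hr]
  have e0 : D' none = dL δ₁ := rfl
  have e1 : ∀ a, D' (some a) = dR (δ' a) := fun _ => rfl
  have g0 : dL δ₁ (κ * r none) = κ * dL δ₁ (r none) := by
    rw [Derivation.leibniz, ← e0, hDκ, smul_zero, add_zero, smul_eq_mul]
  have g1 : ∀ a, dR (δ' a) (κ * r (some a)) = κ * dR (δ' a) (r (some a)) := by
    intro a
    rw [Derivation.leibniz, ← e1, hDκ, smul_zero, add_zero, smul_eq_mul]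
  have hlog : i g₀⁻¹ * δ₁ (i g₀) = i ((d : K) * (δ u₀ / u₀) + δ f₀ / f₀) := by
    rw [hδ, ← map_mul]
    congr 1
    rw [hg₀, Derivation.leibniz, Derivation.leibniz_pow, smul_eq_mul, smul_eq_mul, nsmul_eq_mul,
      smul_eq_mul]
    rcases d with _ | d'
    · simp only [pow_zero, Nat.cast_zero, zero_mul, mul_zero, add_zero, one_mul, zero_add]
      rw [div_eq_inv_mul]
    · rw [Nat.add_sub_cancel]
      field_simp
      push_cast
      ring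
  have k0 : algebraMap ℂ (K' ⊗[ℂ] B) s * (((φ⁻¹ : (K' ⊗[ℂ] B)ˣ) : K' ⊗[ℂ] B) * dL δ₁ φ) =
      ((algebraMap ℂ K' s * i ((d : K) * (δ u₀ / u₀) + δ f₀ / f₀)) ⊗ₜ[ℂ] (1 : B)) := by
    rw [hφ1, hφ2, dL_tmul, Algebra.TensorProduct.tmul_mul_tmul, hPi, hcK,
      Algebra.TensorProduct.tmul_mul_tmul, one_mul, hlog]
  have hPT : ∀ a, ((P⁻¹ : Bˣ) : B) * δ' a P = ((Q⁻¹ : Bˣ) : B) * δ' a Q := by
    intro a
    have h3 : δ' a P = algebraMap ℂ B cU * δ' a Q := by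
      rw [hP, Derivation.leibniz, Derivation.map_algebraMap, smul_zero, add_zero, smul_eq_mul]
    have h5 : ((P⁻¹ : Bˣ) : B) = ((φ₀⁻¹ : Bˣ) : B) * ((Q⁻¹ : Bˣ) : B) := by
      rw [hPdef, _root_.mul_inv φ₀ Q, Units.val_mul]
    have h6 : ((φ₀⁻¹ : Bˣ) : B) * algebraMap ℂ B cU = 1 := Units.inv_mul φ₀
    rw [h3, h5]
    linear_combination (((Q⁻¹ : Bˣ) : B) * δ' a Q) * h6
  have k1 : ∀ a, algebraMap ℂ (K' ⊗[ℂ] B) s *
      (((φ⁻¹ : (K' ⊗[ℂ] B)ˣ) : K' ⊗[ℂ] B) * dR (δ' a) φ) =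
      (1 : K') ⊗ₜ[ℂ] (algebraMap ℂ B s * (((Q⁻¹ : Bˣ) : B) * δ' a Q)) := by
    intro a
    rw [hφ1, hφ2, dR_tmul, Algebra.TensorProduct.tmul_mul_tmul, mul_comm (i g₀⁻¹), hgg, hcB,
      Algebra.TensorProduct.tmul_mul_tmul, one_mul, hPT]
  rw [e0, k0, g0, mul_add, Finset.mul_sum]
  have hsum : ∀ a : Fin (t + 1), κ * (D' (some a) (r (some a)) + algebraMap ℂ (K' ⊗[ℂ] B) s *
      (((φ⁻¹ : (K' ⊗[ℂ] B)ˣ) : K' ⊗[ℂ] B) * D' (some a) φ) * r (some a)) =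
      dR (δ' a) (κ * r (some a)) + ((1 : K') ⊗ₜ[ℂ] (algebraMap ℂ B s *
        (((Q⁻¹ : Bˣ) : B) * δ' a Q))) * (κ * r (some a)) := by
    intro a
    rw [e1, k1, g1]
    ring
  rw [Finset.sum_congr rfl fun a _ => hsum a]
  ring

end YG

end MPb07157
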