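import Pool.Agent.Lib.MP_b07157_agYG.Defs
import Pool.Agent.Lib.MP_b07157_agYX.Iso2

/-!
# The components of `k` for isolated singularities
-/

noncomputable section

namespace MPb07157

open MvPolynomial

namespace YG

open PC SU SI

variable {t : ℕ} {f : MvPolynomial (Fin (t + 3)) ℂ} {d : ℕ} {k : P2}
  {ξ : Fin (t + 3) → MvPowerSeries (Fin (t + 3)) ℂ} {U D : MvPowerSeries (Fin (t + 3)) ℂ}

/-- Cramer's rule modulo a prime. -/
theorem dvd_of_vecMulG {R : Type} [CommRing R] {p : R} (hp : Prime p) {n : ℕ}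
    (M : Matrix (Fin n) (Fin n) R) (hM : ¬ p ∣ M.det) (a : Fin n → R)
    (h : ∀ j, p ∣ ∑ i, a i * M i j) (i : Fin n) : p ∣ a i := by
  have h1 : Matrix.vecMul (Matrix.vecMul a M) M.adjugate = M.det • a := by
    rw [Matrix.vecMul_vecMul, Matrix.mul_adjugate, Matrix.vecMul_smul, Matrix.vecMul_one]
  have h2 := congrFun h1 i
  rw [Pi.smul_apply, smul_eq_mul] at h2
  refine (hp.dvd_or_dvd (a := M.det) (b := a i) ?_).resolve_left hM
  rw [← h2]
  have h3 : Matrix.vecMul (Matrix.vecMul a M) M.adjugate i =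
      ∑ j, (∑ i, a i * M i j) * M.adjugate j i := rfl
  rw [h3]
  exact Finset.dvd_sum fun j _ => Dvd.dvd.mul_right (h j) _

/-- The arc `t ↦ (θ_0(t, 0), θ_1(t, 0), 0)`. -/
def arcG (t : ℕ) (θ : Fin 2 → P2) : Fin (t + 3) → P2 :=
  Fin.cons (θ 0) (Fin.cons (θ 1) (fun _ => 0))

theorem arcG_succ (θ : Fin 2 → P2) (i : Fin (t + 1)) : arcG t θ i.succ.succ = 0 := rfl

theorem arcG_castLE (h : 2 ≤ t + 3) (θ : Fin 2 → P2) (j : Fin 2) :
    arcG t θ (Fin.castLE h j) = θ j := by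
  fin_cases j
  · rfl
  · rfl

theorem arcG_zero (θ : Fin 2 → P2) : arcG t θ 0 = θ 0 := rfl

/-- The power series `k` and its derivatives do not vanish along a curve which is not contained in
`u = 0`. -/
theorem iso_core (hf : IsolG f) (hc : IsChartG f d k ξ U D) {θ : Fin 2 → P2}
    (h0 : ∀ i, MvPowerSeries.constantCoeff (θ i) = 0) (hθ : ¬ MvPowerSeries.X 1 ∣ θ 0)
    (hk1 : (MvPowerSeries.X 1 : P2) ∣ MvPowerSeries.subst θ k)
    (hl : ∀ l, (MvPowerSeries.X 1 : P2) ∣ MvPowerSeries.subst θ (MvPowerSeries.pderiv ℂ l k)) :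
    False := by
  have hpr := prime_X2 1
  -- the homomorphisms
  have hΦ0 : ∀ i, MvPowerSeries.constantCoeff (MvPowerSeries.X 0 * ξ i) = 0 := by
    intro i
    rw [map_mul, MvPowerSeries.constantCoeff_X, zero_mul]
  have hΦs : MvPowerSeries.HasSubst (fun i => MvPowerSeries.X 0 * ξ i) :=
    MvPowerSeries.hasSubst_of_constantCoeff_zero hΦ0
  set Φ : MvPowerSeries (Fin (t + 3)) ℂ →ₐ[ℂ] MvPowerSeries (Fin (t + 3)) ℂ :=
    MvPowerSeries.substAlgHom (R := ℂ) hΦs with hΦdef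
  have hΦa : ∀ a, Φ a = MvPowerSeries.subst (fun i => MvPowerSeries.X 0 * ξ i) a := fun a => by
    rw [hΦdef]
    exact congrFun (MvPowerSeries.coe_substAlgHom hΦs) a
  have hΦX : ∀ i, Φ (MvPowerSeries.X i) = MvPowerSeries.X 0 * ξ i := fun i => by
    rw [hΦa]
    exact MvPowerSeries.subst_X hΦs i
  have hΨ0 : ∀ i, MvPowerSeries.constantCoeff (arcG t θ i) = 0 := by
    intro i
    refine Fin.cases (h0 0) (fun i => ?_) i
    refine Fin.cases (h0 1) (fun i => ?_) i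
    exact map_zero _
  have hΨs : MvPowerSeries.HasSubst (arcG t θ) :=
    MvPowerSeries.hasSubst_of_constantCoeff_zero hΨ0
  set Ψ : MvPowerSeries (Fin (t + 3)) ℂ →ₐ[ℂ] P2 :=
    MvPowerSeries.substAlgHom (R := ℂ) hΨs with hΨdef
  have hΨa : ∀ a, Ψ a = MvPowerSeries.subst (arcG t θ) a := fun a => by
    rw [hΨdef]
    exact congrFun (MvPowerSeries.coe_substAlgHom hΨs) a
  have hΨX : ∀ i, Ψ (MvPowerSeries.X i) = arcG t θ i := fun i => by
    rw [hΨa]
    exact MvPowerSeries.subst_X hΨs i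
  have hle : 2 ≤ t + 3 := by omega
  have hι0 : ∀ j : Fin 2, MvPowerSeries.constantCoeff
      (MvPowerSeries.X (Fin.castLE hle j) : MvPowerSeries (Fin (t + 3)) ℂ) = 0 := fun j =>
    MvPowerSeries.constantCoeff_X _
  have hιs : MvPowerSeries.HasSubst
      (fun j : Fin 2 => (MvPowerSeries.X (Fin.castLE hle j) : MvPowerSeries (Fin (t + 3)) ℂ)) :=
    MvPowerSeries.hasSubst_of_constantCoeff_zero hι0
  set ι : P2 →ₐ[ℂ] MvPowerSeries (Fin (t + 3)) ℂ :=
    MvPowerSeries.substAlgHom (R := ℂ) hιs with hιdef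
  have hιa : ∀ a, ι a = MvPowerSeries.subst
      (fun j : Fin 2 => (MvPowerSeries.X (Fin.castLE hle j) : MvPowerSeries (Fin (t + 3)) ℂ))
      a := fun a => by
    rw [hιdef]
    exact congrFun (MvPowerSeries.coe_substAlgHom hιs) a
  have hιX : ∀ j : Fin 2, ι (MvPowerSeries.X j) =
      (MvPowerSeries.X (Fin.castLE hle j) : MvPowerSeries (Fin (t + 3)) ℂ) := fun i => by
    rw [hιa]
    exact MvPowerSeries.subst_X hιs i
  have hΨι : ∀ a, Ψ (ι a) = MvPowerSeries.subst θ a := by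
    intro a
    have h1 : (fun j : Fin 2 => MvPowerSeries.subst (arcG t θ)
        (MvPowerSeries.X (Fin.castLE hle j) : MvPowerSeries (Fin (t + 3)) ℂ)) = θ := by
      funext j
      rw [MvPowerSeries.subst_X hΨs, arcG_castLE]
    rw [hΨa, hιa, MvPowerSeries.subst_comp_subst_apply hιs hΨs, h1]
  have hunit : ∀ a : MvPowerSeries (Fin (t + 3)) ℂ, MvPowerSeries.constantCoeff a ≠ 0 →
      ¬ (MvPowerSeries.X 1 : P2) ∣ Ψ a := by
    intro a ha hdv
    have h1 : IsUnit a := MvPowerSeries.isUnit_iff_constantCoeff.2 (isUnit_iff_ne_zero.2 ha)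
    exact hpr.not_isUnit (isUnit_of_dvd_unit hdv (h1.map Ψ))
  -- `h = k + ∑ x²` and its derivatives at the arc
  have hkz : kzG t k = ι k + ∑ i : Fin (t + 1), MvPowerSeries.X i.succ.succ ^ 2 := by
    rw [hιa]
    rfl
  have hX2 : ∀ i : Fin (t + 1), Ψ (MvPowerSeries.X i.succ.succ) = 0 := by
    intro i
    rw [hΨX, arcG_succ]
  have hh : (MvPowerSeries.X 1 : P2) ∣ Ψ (kzG t k) := by
    rw [hkz, map_add, hΨι, map_sum, Finset.sum_eq_zero, add_zero]
    · exact hk1
    · intro i _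
      rw [map_pow, hX2, zero_pow two_ne_zero]
  have hdh : ∀ j, (MvPowerSeries.X 1 : P2) ∣ Ψ (MvPowerSeries.pderiv ℂ j (kzG t k)) := by
    intro j
    rw [hkz, map_add, map_sum, map_add, map_sum]
    refine dvd_add ?_ (Finset.dvd_sum fun i _ => ?_)
    · rw [ARL.chain (θ := ι) (fun i => by rw [hιX]; exact hι0 i) (MvPowerSeries.pderiv ℂ j) k,
        map_sum]
      refine Finset.dvd_sum fun i _ => ?_
      rw [map_mul, hΨι]
      exact (hl i).mul_right _
    · rw [Derivation.leibniz_pow, smul_eq_mul, nsmul_eq_mul, map_mul, map_mul, map_pow, hX2,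
        show (2 : ℕ) - 1 = 1 from rfl, pow_one, zero_mul, mul_zero]
      exact dvd_zero _
  -- `F = u^d h U` and its derivatives at the arc
  have hdF : ∀ j, (MvPowerSeries.X 1 : P2) ∣
      Ψ (MvPowerSeries.pderiv ℂ j (Φ (f : MvPowerSeries (Fin (t + 3)) ℂ))) := by
    intro j
    rw [hΦa, hc.hf, Derivation.leibniz, Derivation.leibniz (MvPowerSeries.pderiv ℂ j) (kzG t k) U,
      smul_eq_mul, smul_eq_mul, smul_eq_mul, smul_eq_mul, map_add, map_mul, map_add, map_mul,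
      map_mul, map_mul, map_mul]
    refine dvd_add (Dvd.dvd.mul_left (dvd_add (hh.mul_right _) ((hdh j).mul_left _)) _) ?_
    exact (hh.mul_right _).mul_right _
  have hsum : ∀ j, (MvPowerSeries.X 1 : P2) ∣ ∑ i,
      Ψ (Φ (pderiv i f : MvPolynomial (Fin (t + 3)) ℂ)) *
      (Matrix.of fun i j : Fin (t + 3) => Ψ (MvPowerSeries.pderiv ℂ j
        (MvPowerSeries.X 0 * ξ i : MvPowerSeries (Fin (t + 3)) ℂ))) i j := by
    intro j
    have h1 := hdF j
    rw [ARL.chain (θ := Φ) (fun i => by rw [hΦX]; exact hΦ0 i) (MvPowerSeries.pderiv ℂ j)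
      (f : MvPowerSeries (Fin (t + 3)) ℂ), map_sum] at h1
    have h2 : ∑ i, Ψ (Φ (pderiv i f : MvPolynomial (Fin (t + 3)) ℂ)) *
        (Matrix.of fun i j : Fin (t + 3) => Ψ (MvPowerSeries.pderiv ℂ j
          (MvPowerSeries.X 0 * ξ i : MvPowerSeries (Fin (t + 3)) ℂ))) i j =
        ∑ i, Ψ (Φ (MvPowerSeries.pderiv ℂ i (f : MvPowerSeries (Fin (t + 3)) ℂ)) *
          MvPowerSeries.pderiv ℂ j (Φ (MvPowerSeries.X i))) := by
      refine Finset.sum_congr rfl fun i _ => ?_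
      rw [map_mul, hΦX, MvPowerSeries.pderiv_coe, Matrix.of_apply]
    rw [h2]
    exact h1
  have hdet : (Matrix.of fun i j : Fin (t + 3) => Ψ (MvPowerSeries.pderiv ℂ j
      (MvPowerSeries.X 0 * ξ i : MvPowerSeries (Fin (t + 3)) ℂ))).det = θ 0 ^ (t + 2) * Ψ D := by
    have h1 := congrArg Ψ hc.hdet
    rw [map_mul, map_pow, hΨX, arcG_zero] at h1
    rw [AlgHom.map_det] at h1
    exact h1
  have hndet : ¬ (MvPowerSeries.X 1 : P2) ∣ (Matrix.of fun i j : Fin (t + 3) =>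
      Ψ (MvPowerSeries.pderiv ℂ j (MvPowerSeries.X 0 * ξ i :
        MvPowerSeries (Fin (t + 3)) ℂ))).det := by
    rw [hdet]
    intro h1
    rcases hpr.dvd_or_dvd h1 with h2 | h2
    · exact hθ (hpr.dvd_of_dvd_pow h2)
    · exact hunit D hc.hD h2
  have hall := dvd_of_vecMulG hpr _ hndet _ hsum
  obtain ⟨N, hN⟩ := hf
  obtain ⟨i, hi⟩ := hc.hξ
  have h1 : Ideal.span (Set.range fun j : Fin (t + 3) =>
      ((pderiv j f : MvPolynomial (Fin (t + 3)) ℂ) : MvPowerSeries (Fin (t + 3)) ℂ)) ≤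
      (Ideal.span {(MvPowerSeries.X 1 : P2)}).comap (Ψ.comp Φ) := by
    rw [Ideal.span_le]
    rintro _ ⟨j, rfl⟩
    rw [SetLike.mem_coe, Ideal.mem_comap, Ideal.mem_span_singleton]
    exact hall j
  have h2 := h1 (hN i)
  rw [Ideal.mem_comap, Ideal.mem_span_singleton, map_pow] at h2
  have h3 := hpr.dvd_of_dvd_pow h2
  rw [AlgHom.comp_apply, hΦX, map_mul, hΨX, arcG_zero] at h3
  rcases hpr.dvd_or_dvd h3 with h4 | h4
  · exact hθ h4
  · exact hunit _ hi h4

/-- As `YX.axOK2_of_iso` (`agYX/Iso2.lean`). -/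
theorem axOK2_of_isoG (hf : IsolG f) (hc : IsChartG f d k ξ U D) {s : ℚ} (hs : -1 < s) :
    YX.AxOK2 k s := by
  intro θ h0 hθ hJ B hB0 hB hcon
  have hB2 : 2 ≤ B := by
    by_contra hlt
    have h1 : B = 1 := by omega
    rw [h1] at hcon
    push_cast at hcon
    linarith
  have hk2 : (MvPowerSeries.X 1 : P2) ^ 2 ∣ MvPowerSeries.subst θ k :=
    (pow_dvd_pow _ hB2).trans hB.1
  exact iso_core hf hc h0 hθ ((dvd_pow_self _ two_ne_zero).trans hk2)
    (YX.dvd_subst_pderiv h0 hJ hk2)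

/-- The normal form `∑ x_i²` does not occur for isolated singularities (`f` and its derivatives
vanish along the curve `x = 0`; a special case of the argument of `axOK2_of_isoG`). -/
theorem not_chart_sq (hf : IsolG f) (hc : IsChartG f d (MvPowerSeries.X 1 ^ 2) ξ U D) : False := by
  have h0 : ∀ i, MvPowerSeries.constantCoeff ((![MvPowerSeries.X 0, 0] : Fin 2 → P2) i) = 0 := by
    intro i
    fin_cases i
    · exact MvPowerSeries.constantCoeff_X _
    · exact map_zero _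
  have hs : MvPowerSeries.HasSubst (![MvPowerSeries.X 0, 0] : Fin 2 → P2) :=
    MvPowerSeries.hasSubst_of_constantCoeff_zero h0
  have h1 : MvPowerSeries.substAlgHom (R := ℂ) hs (MvPowerSeries.X 1) = 0 := by
    rw [MvPowerSeries.substAlgHom_X]
    rfl
  have hz : ∀ g : P2, MvPowerSeries.X 1 ∣ g →
      MvPowerSeries.subst (![MvPowerSeries.X 0, 0] : Fin 2 → P2) g = (0 : P2) := by
    rintro _ ⟨g, rfl⟩
    rw [← MvPowerSeries.coe_substAlgHom hs, map_mul, h1, zero_mul]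
  refine iso_core hf hc h0 ?_ ?_ ?_
  · show ¬ MvPowerSeries.X 1 ∣ (MvPowerSeries.X 0 : P2)
    rw [MvPowerSeries.X_dvd_iff]
    intro h
    have h2 := h (Finsupp.single 0 1) (by simp)
    rw [MvPowerSeries.coeff_index_single_self_X] at h2
    exact one_ne_zero h2
  · rw [hz _ (dvd_pow_self _ two_ne_zero)]
    exact dvd_zero _
  · intro l
    rw [hz]
    · exact dvd_zero _
    · rw [Derivation.leibniz_pow, smul_eq_mul, nsmul_eq_mul, show (2 : ℕ) - 1 = 1 from rfl, pow_one]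
      exact (dvd_mul_right _ _).mul_left _

end YG

end MPb07157
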