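import Pool.Agent.Lib.MP_b07157_agYX.K2

/-!
# The series of a node
-/

noncomputable section

namespace MPb07157

open MvPolynomial

namespace YG

open PC SU

namespace NodeSaux

/-- The support of `y² + x^κ`. -/
theorem supp {κ : ℕ} {v : Fin 2 →₀ ℕ}
    (hv : MvPowerSeries.coeff v (MvPowerSeries.X 1 ^ 2 + MvPowerSeries.X 0 ^ κ : P2) ≠ 0) :
    (v 0 = 0 ∧ v 1 = 2) ∨ (v 0 = κ ∧ v 1 = 0) := by
  classical
  rw [map_add, MvPowerSeries.coeff_X_pow, MvPowerSeries.coeff_X_pow] at hv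
  by_cases h1 : v = Finsupp.single 1 2
  · left
    rw [h1, Finsupp.single_eq_same, Finsupp.single_eq_of_ne (by decide)]
    exact ⟨rfl, rfl⟩
  · by_cases h2 : v = Finsupp.single 0 κ
    · right
      rw [h2, Finsupp.single_eq_same, Finsupp.single_eq_of_ne (by decide)]
      exact ⟨rfl, rfl⟩
    · rw [if_neg h1, if_neg h2, add_zero] at hv
      exact absurd rfl hv

theorem coeff_y {κ : ℕ} (hκ : 0 < κ) :
    MvPowerSeries.coeff (Finsupp.single 1 2)
      (MvPowerSeries.X 1 ^ 2 + MvPowerSeries.X 0 ^ κ : P2) ≠ 0 := by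
  classical
  rw [map_add, MvPowerSeries.coeff_X_pow, MvPowerSeries.coeff_X_pow, if_pos rfl, if_neg, add_zero]
  · exact one_ne_zero
  · intro h
    have := DFunLike.congr_fun h 0
    rw [Finsupp.single_eq_same, Finsupp.single_eq_of_ne (by decide)] at this
    omega

theorem coeff_x {κ : ℕ} :
    MvPowerSeries.coeff (Finsupp.single 0 κ)
      (MvPowerSeries.X 1 ^ 2 + MvPowerSeries.X 0 ^ κ : P2) ≠ 0 := by
  classical
  rw [map_add, MvPowerSeries.coeff_X_pow, MvPowerSeries.coeff_X_pow, if_pos rfl, if_neg, zero_add]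
  · exact one_ne_zero
  · intro h
    have := DFunLike.congr_fun h 1
    rw [Finsupp.single_eq_same, Finsupp.single_eq_of_ne (by decide)] at this
    omega

/-- The edges of `y² + x^κ`. -/
theorem edges {κ : ℕ} (hκ : 0 < κ) {p q A B : ℕ} {lam : ℂ} {R : Finset ℂ} {μ : ℂ → ℕ}
    (hE : IsEdge (MvPowerSeries.X 1 ^ 2 + MvPowerSeries.X 0 ^ κ : P2) p q A B lam R μ) :
    A = 0 ∧ B = 0 ∧ p * ∑ c ∈ R, μ c = 2 ∧ q * ∑ c ∈ R, μ c = κ ∧ ∀ c ∈ R, μ c = 1 := by
  classical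
  obtain ⟨hP0, hPN, hcoef⟩ := hE.init
  have hp := hE.hp
  have hq := hE.hq
  have hS := Finset.sum_pos hE.hm hE.hR
  obtain ⟨k1, k2, -⟩ := edgeP_support hp hq (A := A) (B := B) hE.hlam hE.hR0 μ
  rw [← hcoef _ (hPN _ (mem_support_iff.2 k1)).le] at k1
  rw [← hcoef _ (hPN _ (mem_support_iff.2 k2)).le] at k2
  have hpS : 0 < p * ∑ c ∈ R, μ c := Nat.mul_pos hp hS
  have hqS : 0 < q * ∑ c ∈ R, μ c := Nat.mul_pos hq hS
  have l1 := supp k1
  have l2 := supp k2
  rw [VM.ex_zero, VM.ex_one] at l1 l2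
  have hA : A = 0 := by omega
  have hB : B = 0 := by omega
  have h2 : p * ∑ c ∈ R, μ c = 2 := by omega
  have hk : q * ∑ c ∈ R, μ c = κ := by omega
  refine ⟨hA, hB, h2, hk, ?_⟩
  intro c hc
  by_contra hne
  have hc1 := hE.hm c hc
  have hcS : μ c ≤ ∑ c ∈ R, μ c := Finset.single_le_sum (fun _ _ => Nat.zero_le _) hc
  have hS2 : ∑ c ∈ R, μ c ≤ 2 := by
    rw [← h2]
    exact Nat.le_mul_of_pos_left _ hp
  have hS' : ∑ c ∈ R, μ c = 2 := by omega
  have hμ : μ c = 2 := by omega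
  have hp1 : p = 1 := by
    rw [hS'] at h2
    omega
  have hR : R = {c} := by
    ext c'
    rw [Finset.mem_singleton]
    constructor
    · intro hc'
      by_contra hcc
      have h6 : μ c + μ c' ≤ ∑ c ∈ R, μ c := by
        rw [← Finset.add_sum_erase _ _ hc]
        exact Nat.add_le_add_left (Finset.single_le_sum (f := μ) (fun _ _ => Nat.zero_le _)
          (Finset.mem_erase.2 ⟨hcc, hc'⟩)) _
      have := hE.hm c' hc'
      omega
    · intro h
      rw [h]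
      exact hc
  have hc0 : c ≠ 0 := by
    rintro rfl
    exact hE.hR0 hc
  -- the middle coefficient
  have h7 := coeff_n2qh (q := q) (A := A) (B := B) hp
      (Polynomial.C lam * ∏ c ∈ R, (Polynomial.X - Polynomial.C c) ^ μ c)
      (show 1 + 1 = ∑ c ∈ R, μ c by omega)
  rw [← edgeP_eq_n2qh] at h7
  have h8 : (Polynomial.C lam * ∏ c ∈ R, (Polynomial.X - Polynomial.C c) ^ μ c).coeff 1 =
      lam * (-(2 * c)) := by
    rw [hR, Finset.prod_singleton, hμ, Polynomial.coeff_C_mul]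
    have : ((Polynomial.X - Polynomial.C c) ^ 2 : Polynomial ℂ) =
        Polynomial.X ^ 2 + Polynomial.C (-(2 * c)) * Polynomial.X + Polynomial.C (c ^ 2) := by
      simp only [map_neg, map_mul, map_pow, map_ofNat]
      ring
    rw [this, Polynomial.coeff_add, Polynomial.coeff_add, Polynomial.coeff_X_pow,
      if_neg (by decide), Polynomial.coeff_C_mul, Polynomial.coeff_X_one, Polynomial.coeff_C,
      if_neg (by decide)]
    ring
  rw [h8] at h7
  have h9 : (edgeP p q A B lam R μ).coeff (ex (A + q * 1) (B + p * 1)) ≠ 0 := by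
    rw [h7]
    exact mul_ne_zero hE.hlam (neg_ne_zero.2 (mul_ne_zero two_ne_zero hc0))
  rw [← hcoef _ (hPN _ (mem_support_iff.2 h9)).le] at h9
  have l3 := supp h9
  rw [VM.ex_zero, VM.ex_one] at l3
  omega

end NodeSaux

open NodeSaux in
/-- The series of `u^d (u^κ + y² + ∑ x_i²)`, by `YX.ZX_mem_of_edges` (the only edge has `p = 2`,
`q = κ`, or `p = 1`, `q = κ / 2`; simple roots) and `YX.ZX_simple`. -/
theorem ZX_node_mem {t d κ : ℕ} (hd : 0 < d) (hκ : 0 < κ) {s₀ : ℚ} (h1 : s₀ ≠ -1)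
    (h : ((t : ℚ) + 3) + d * s₀ ≠ 0)
    (h2 : 2 * ((t : ℚ) + 3) + ((t : ℚ) + 2) * κ + s₀ * (2 * ((d : ℚ) + κ)) ≠ 0) {K : ℕ}
    (hK : 1 ≤ K) (hKs : -s₀ < K) :
    YX.ZX (MvPowerSeries.X 1 ^ 2 + MvPowerSeries.X 0 ^ κ) (fun _ : Fin (t + 1) => 2)
      (t + 3) d 0 K ∈ regularAt s₀ := by
  classical
  set F : P2 := MvPowerSeries.X 1 ^ 2 + MvPowerSeries.X 0 ^ κ with hFdef
  have hhn : hn (fun _ : Fin (t + 1) => 2) = ((t : ℚ) + 1) / 2 := by
    unfold hn
    rw [Finset.sum_const, Finset.card_univ, Fintype.card_fin, nsmul_eq_mul]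
    push_cast
    ring
  have hF : F ≠ 0 := by
    intro h0
    have h3 := coeff_y hκ
    rw [← hFdef, h0] at h3
    exact h3 (map_zero _)
  have hnum : ∀ (p q A B : ℕ) (lam : ℂ) (R : Finset ℂ) (μ : ℂ → ℕ), IsEdge F p q A B lam R μ →
      (((t + 3) * p + q : ℕ) : ℚ) + (d * p : ℕ) * s₀ +
        (s₀ + hn (fun _ : Fin (t + 1) => 2)) * (edgeN p q A B R μ : ℕ) ≠ 0 := by
    intro p q A B lam R μ hE h3
    obtain ⟨rfl, rfl, h4, h5, -⟩ := edges hκ hE
    apply h2
    unfold edgeN at h3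
    have h4' : (p : ℚ) * ((∑ c ∈ R, μ c : ℕ) : ℚ) = 2 := by exact_mod_cast h4
    have h5' : (q : ℚ) * ((∑ c ∈ R, μ c : ℕ) : ℚ) = κ := by exact_mod_cast h5
    rw [hhn] at h3
    rw [Nat.mul_zero, Nat.mul_zero, Nat.zero_add] at h3
    rw [Nat.cast_add, Nat.cast_mul, Nat.cast_mul, Nat.cast_mul, Nat.cast_mul, Nat.cast_add] at h3
    generalize ((∑ c ∈ R, μ c : ℕ) : ℚ) = S at h3 h4' h5'
    have h6 : (((t : ℚ) + (3 : ℕ)) * p + q + d * p * s₀ + (s₀ + ((t : ℚ) + 1) / 2) *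
      (p * q * S)) * S = 0 := by
      rw [h3, zero_mul]
    have h7 : (2 * ((t : ℚ) + 3) + ((t : ℚ) + 2) * κ + s₀ * (2 * ((d : ℚ) + κ))) =
        (((t : ℚ) + (3 : ℕ)) * p + q + d * p * s₀ + (s₀ + ((t : ℚ) + 1) / 2) *
          (p * q * S)) * S := by
      rw [← h5']
      push_cast
      have h8 : (p : ℚ) * S * (q * S) = 2 * (q * S) := by rw [h4']
      linear_combination (-((t : ℚ) + 3) - d * s₀) * h4' - (s₀ + ((t : ℚ) + 1) / 2) * h8
    rw [h7, h6]
  refine YX.ZX_mem_of_edges hF (fun _ => by norm_num) (by omega) hd ⟨?_, ?_⟩ ?_ h1 hK hKs ?_ ?_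
    ?_ ?_
  · rw [pow_zero]
    exact one_dvd _
  · intro h3
    rw [MvPowerSeries.X_pow_dvd_iff] at h3
    refine coeff_y hκ (h3 _ ?_)
    rw [Finsupp.single_eq_of_ne (by decide)]
    omega
  · intro v hv
    refine ⟨Nat.zero_le _, ?_⟩
    rintro rfl
    have h3 := supp hv
    rw [VM.ex_zero, VM.ex_one] at h3
    omega
  · rw [Nat.cast_zero, zero_mul, add_zero]
    push_cast
    exact h
  · intro B hB hB0 _
    have h3 := hB.1
    rw [MvPowerSeries.X_pow_dvd_iff] at h3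
    refine coeff_x (h3 _ ?_)
    rw [Finsupp.single_eq_of_ne (by decide)]
    exact hB0
  · exact hnum
  · intro p q A B lam R μ hE c' hc' α β hab
    obtain ⟨-, -, -, -, h3⟩ := edges hκ hE
    have hY := YOrd.sub hE hc' hab
    rw [h3 c' hc'] at hY
    refine YX.ZX_simple hY (fun _ => by norm_num) ?_ (Nat.mul_pos hd hE.hp) hK h1 ?_
    · have := hE.hq
      omega
    · have h4 := hnum p q A B lam R μ hE
      rw [mul_comm (s₀ + _)] at h4
      exact h4

end YG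

end MPb07157
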