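import Pool.Agent.Lib.MP_b07157_agI.Main

/-!
# The root `-n/d`
-/

noncomputable section

namespace MPb07157

open MvPolynomial

namespace YG

/-- The root `-n/d` if `F^(-n/d)` is not a sum of derivatives, `F` the initial form. As
`SI.root_of_nonEx` (`agI/Main.lean`), which is the case `n = 3`. -/
theorem root_of_nonExG {n : ℕ} (hn : 2 ≤ n) {f : MvPolynomial (Fin n) ℂ} {d : ℕ} (hd : 2 ≤ d)
    (hlow : ∀ k < d, homogeneousComponent k f = 0) (hF0 : homogeneousComponent d f ≠ 0)
    (h : NonEx (homogeneousComponent d f) ((n : ℂ) / (d : ℂ))) {b : Polynomial ℂ}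
    (hb : InDnForm f 1 (b.map (MvPowerSeries.C (σ := Fin n) (R := ℂ)))) :
    b.eval (-((n : ℂ) / (d : ℂ))) = 0 := by
  classical
  set F := homogeneousComponent d f with hF
  have hFh : F.IsHomogeneous d := homogeneousComponent_isHomogeneous d f
  have hd0 : 0 < d := by omega
  have hdC : (d : ℂ) ≠ 0 := by exact_mod_cast hd0.ne'
  have hb' : InDnForm (F + (f - F)) 1 (b.map (MvPowerSeries.C (σ := Fin n) (R := ℂ))) := by
    rw [add_sub_cancel]
    exact hb
  have hwt : ∀ v : Fin n →₀ ℕ, wt (fun _ : Fin n => 1) v = v.degree := by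
    intro v
    rw [Finsupp.degree_eq_sum]
    unfold wt
    simp
  refine root_of_initial (w := fun _ : Fin n => 1) (fun _ => one_pos) (fun _ => hd) hd0 hF0 hFh
    ?_ ?_ h hb'
  · intro v hv
    rw [hwt]
    by_contra hcon
    apply mem_support_iff.1 hv
    rw [coeff_sub, hF, coeff_homogeneousComponent]
    by_cases h1 : v.degree = d
    · rw [if_pos h1, sub_self]
    · rw [if_neg h1, sub_zero]
      have h2 := congrArg (coeff v) (hlow v.degree (by omega))
      rw [coeff_homogeneousComponent, if_pos rfl, coeff_zero] at h2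
      exact h2
  · rw [div_mul_cancel₀ _ hdC]
    simp

end YG

end MPb07157
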