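import Pool.Agent.Lib.MP_b07157_agYG.ResN
import Pool.Agent.Lib.MP_b07157_agYG.LamB

/-!
# The root at a node
-/

noncomputable section

namespace MPb07157

open MvPolynomial TensorProduct

namespace YG

open PC SU SI YL

variable {t : ℕ} {f : MvPolynomial (Fin (t + 3)) ℂ} {d : ℕ}
  {ξ : Fin (t + 3) → MvPowerSeries (Fin (t + 3)) ℂ} {U D : MvPowerSeries (Fin (t + 3)) ℂ}

/-- **The root at a node**: `residue_nodeG` and `exists_lam` with `r = t + 2`; `s + r/2 ≥ 0`, as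
`d ≥ 3`. -/
theorem root_nodeG {κ : ℕ} (hd : 3 ≤ d) (hκ : 0 < κ)
    (hc : IsChartG f d (MvPowerSeries.X 1 ^ 2 + MvPowerSeries.X 0 ^ κ) ξ U D)
    {b : Polynomial ℂ} (hb : InPs (f : MvPowerSeries (Fin (t + 3)) ℂ) 1
      (b.map (MvPowerSeries.C (σ := Fin (t + 3)) (R := ℂ)))) :
    b.eval (-((2 * ((t : ℂ) + 3) + ((t : ℂ) + 2) * κ) / (2 * ((d : ℂ) + κ)))) = 0 := by
  by_contra hb0
  set s : ℂ := -((2 * ((t : ℂ) + 3) + ((t : ℂ) + 2) * κ) / (2 * ((d : ℂ) + κ))) with hs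
  have hden : (2 * ((d : ℂ) + κ)) ≠ 0 := by
    have h : 2 * (d + κ) ≠ 0 := by omega
    exact_mod_cast h
  have hs' : s * (2 * ((d : ℂ) + κ)) = -(2 * ((t : ℂ) + 3) + ((t : ℂ) + 2) * κ) := by
    rw [hs, neg_mul, div_mul_cancel₀ _ hden]
  have hs0 : ∀ m : ℕ, s ≠ m := by
    intro m h
    rw [h] at hs'
    have h1 : (m : ℝ) * (2 * ((d : ℝ) + κ)) = -(2 * ((t : ℝ) + 3) + ((t : ℝ) + 2) * κ) := by
      exact_mod_cast hs'
    have h2 : (0 : ℝ) ≤ (m : ℝ) * (2 * ((d : ℝ) + κ)) := by positivity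
    have h3 : (0 : ℝ) < 2 * ((t : ℝ) + 3) + ((t : ℝ) + 2) * κ := by positivity
    linarith
  have hs1 : ∀ m : ℕ, s + ((t + 2 : ℕ) : ℂ) / 2 ≠ -((m : ℂ) + 1) := by
    intro m h
    have h0 : (s + ((t + 2 : ℕ) : ℂ) / 2) * (2 * ((d : ℂ) + κ)) =
        -((m : ℂ) + 1) * (2 * ((d : ℂ) + κ)) := by rw [h]
    have h1 : ((t : ℂ) + 2) * (d : ℂ) - 2 * ((t : ℂ) + 3) =
        -((m : ℂ) + 1) * (2 * ((d : ℂ) + κ)) := by
      push_cast at h0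
      linear_combination h0 - hs'
    have h2 : ((t : ℝ) + 2) * (d : ℝ) - 2 * ((t : ℝ) + 3) =
        -((m : ℝ) + 1) * (2 * ((d : ℝ) + κ)) := by exact_mod_cast h1
    have h3 : (3 : ℝ) ≤ d := by exact_mod_cast hd
    have h4 : (0 : ℝ) ≤ ((t : ℝ) + 2) * (d : ℝ) - 2 * ((t : ℝ) + 3) := by
      nlinarith [(Nat.cast_nonneg t : (0 : ℝ) ≤ t)]
    have h5 : (0 : ℝ) < ((m : ℝ) + 1) * (2 * ((d : ℝ) + κ)) := by positivity
    linarith
  obtain ⟨B, _, _, δ', T, Q, l, hQ, hT, hδ, hl, hl1⟩ := exists_lam (t + 2) hs0 hs1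
  obtain ⟨r, hr⟩ := residue_nodeG hκ hc hs' hb hb0 δ' hQ hT hδ
  have h := congrArg l hr
  rw [map_sum, hl1, Finset.sum_eq_zero fun a _ => hl a (r a)] at h
  exact one_ne_zero h

end YG

end MPb07157
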