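import Pool.Agent.Lib.MP_b07157_agYG.Defs
import Pool.Agent.Lib.MP_b07157_agYL.Hess
import Pool.Agent.Lib.MP_b07157_agI.Geo

/-!
# The order of `k(0, y)`
-/

noncomputable section

namespace MPb07157

open MvPolynomial

namespace YG

open PC SU SI

variable {t : ℕ} {f : MvPolynomial (Fin (t + 3)) ℂ} {d : ℕ} {q : Fin (t + 3) → ℂ}
  {j₀ : Fin (t + 3)}

/-! ### The Nullstellensatz in the affine chart -/

/-- The derivatives of the germ in the chart. -/
private theorem pderiv_gch' {n : ℕ} (F : MvPolynomial (Fin (n + 1)) ℂ) (q : Fin (n + 1) → ℂ)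
    (j₀ : Fin (n + 1)) (i : Fin n) :
    pderiv i (gch F q j₀) = gch (pderiv (j₀.succAbove i) F) q j₀ := by
  unfold gch
  induction F using MvPolynomial.induction_on with
  | C a => simp
  | add p r hp hr => simp only [map_add, hp, hr]
  | mul_X p l hp =>
    rw [map_mul, aeval_X, Derivation.leibniz, hp, Derivation.leibniz, map_add, smul_eq_mul,
      smul_eq_mul, smul_eq_mul, smul_eq_mul, map_mul, map_mul, aeval_X]
    rcases Fin.eq_self_or_eq_succAbove j₀ l with rfl | ⟨m, rfl⟩
    · rw [Fin.insertNth_apply_same, pderiv_one, pderiv_X_of_ne (Fin.succAbove_ne _ _).symm]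
      simp
    · rw [Fin.insertNth_apply_succAbove, map_add, pderiv_C, add_zero]
      by_cases h : m = i
      · subst h
        rw [pderiv_X_self, pderiv_X_self, map_one]
      · rw [pderiv_X_of_ne h, pderiv_X_of_ne (fun hh => h (Fin.succAbove_right_injective hh))]
        simp

/-- The point of the affine chart. -/
private def pt {n : ℕ} (q : Fin (n + 1) → ℂ) (j₀ : Fin (n + 1)) (z : Fin n → ℂ) :
    Fin (n + 1) → ℂ :=
  j₀.insertNth (α := fun _ => ℂ) 1 fun i => z i + q (j₀.succAbove i)

private theorem eval_gch' {n : ℕ} (F : MvPolynomial (Fin (n + 1)) ℂ) (q : Fin (n + 1) → ℂ)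
    (j₀ : Fin (n + 1)) (z : Fin n → ℂ) : eval z (gch F q j₀) = eval (pt q j₀ z) F := by
  unfold gch pt
  induction F using MvPolynomial.induction_on with
  | C a => simp
  | add p r hp hr => simp only [map_add, hp, hr]
  | mul_X p l hp =>
    rw [map_mul, map_mul, map_mul, hp, aeval_X, eval_X]
    congr 1
    rcases Fin.eq_self_or_eq_succAbove j₀ l with rfl | ⟨m, rfl⟩
    · rw [Fin.insertNth_apply_same, Fin.insertNth_apply_same, map_one]
    · rw [Fin.insertNth_apply_succAbove, Fin.insertNth_apply_succAbove]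
      simp

private theorem pt_injective {n : ℕ} (q : Fin (n + 1) → ℂ) (j₀ : Fin (n + 1)) :
    Function.Injective (pt q j₀) := by
  intro z z' h
  funext i
  have h1 := congrFun h (j₀.succAbove i)
  unfold pt at h1
  rw [Fin.insertNth_apply_succAbove, Fin.insertNth_apply_succAbove] at h1
  exact add_right_cancel h1

/-- The common zeros of the germ and of its derivatives are finite in number. -/
private theorem finite_zeros {n : ℕ} {F : MvPolynomial (Fin (n + 1)) ℂ} {d : ℕ}
    (hF : F.IsHomogeneous d) (hfin : FinSing F) (q : Fin (n + 1) → ℂ) (j₀ : Fin (n + 1)) :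
    {z : Fin n → ℂ | eval z (gch F q j₀) = 0 ∧
      ∀ l, eval z (pderiv l (gch F q j₀)) = 0}.Finite := by
  obtain ⟨P, hP⟩ := hfin
  have h1 : (pt q j₀ '' {z : Fin n → ℂ | eval z (gch F q j₀) = 0 ∧
      ∀ l, eval z (pderiv l (gch F q j₀)) = 0}).Finite := by
    refine Set.Finite.subset (P.finite_toSet.image fun p => (p j₀)⁻¹ • p) ?_
    rintro _ ⟨z, ⟨hz0, hz⟩, rfl⟩
    have hj : pt q j₀ z j₀ = 1 := Fin.insertNth_apply_same _ _ _
    have h0 : pt q j₀ z ≠ 0 := by
      intro h
      rw [h, Pi.zero_apply] at hj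
      exact zero_ne_one hj
    have hs : ∀ i, eval (pt q j₀ z) (pderiv (j₀.succAbove i) F) = 0 := by
      intro i
      rw [← eval_gch', ← pderiv_gch']
      exact hz i
    have hall : ∀ j, eval (pt q j₀ z) (pderiv j F) = 0 := by
      intro j
      rcases Fin.eq_self_or_eq_succAbove j₀ j with rfl | ⟨m, rfl⟩
      · have h2 := congrArg (eval (pt q j z)) hF.sum_X_mul_pderiv
        rw [Fin.sum_univ_succAbove _ j, map_add, map_nsmul, ← eval_gch' F, hz0, smul_zero,
          map_mul, eval_X, hj, one_mul, map_sum] at h2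
        rw [← h2, Finset.sum_eq_zero, add_zero]
        intro i _
        rw [map_mul, hs, mul_zero]
      · exact hs m
    obtain ⟨p, hp, c, hc⟩ := hP _ h0 hall
    refine ⟨p, hp, ?_⟩
    have h3 : c * p j₀ = 1 := by
      rw [← hj, hc, Pi.smul_apply, smul_eq_mul]
    have h4 : (p j₀)⁻¹ = c := by
      rw [inv_eq_iff_eq_inv]
      exact eq_inv_of_mul_eq_one_right h3
    change (p j₀)⁻¹ • p = pt q j₀ z
    rw [h4, hc]
  exact Set.Finite.of_finite_image h1 (pt_injective q j₀).injOn

/-- The Nullstellensatz in the affine chart. -/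
private theorem exists_loc {n : ℕ} {F : MvPolynomial (Fin (n + 1)) ℂ} {d : ℕ}
    (hF : F.IsHomogeneous d) (hfin : FinSing F) (q : Fin (n + 1) → ℂ) (j₀ : Fin (n + 1)) :
    ∃ s : MvPolynomial (Fin n) ℂ, eval 0 s ≠ 0 ∧ ∀ i, ∃ N : ℕ, (s * X i) ^ N ∈
      Ideal.span (insert (gch F q j₀) (Set.range fun l => pderiv l (gch F q j₀))) := by
  classical
  have hZ := finite_zeros hF hfin q j₀
  set Z : Finset (Fin n → ℂ) := hZ.toFinset with hZdef
  have hex : ∀ z : Fin n → ℂ, ∃ s : MvPolynomial (Fin n) ℂ, eval 0 s ≠ 0 ∧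
      (z ≠ 0 → eval z s = 0) := by
    intro z
    by_cases h : z = 0
    · exact ⟨1, by simp, fun h' => absurd h h'⟩
    · obtain ⟨i, hi⟩ : ∃ i, z i ≠ 0 := by
        by_contra hh
        push Not at hh
        exact h (funext hh)
      refine ⟨X i - C (z i), ?_, fun _ => ?_⟩
      · rw [map_sub, eval_X, eval_C, Pi.zero_apply, zero_sub]
        exact neg_ne_zero.2 hi
      · rw [map_sub, eval_X, eval_C, sub_self]
  choose s hs0 hs1 using hex
  refine ⟨∏ z ∈ Z, s z, ?_, fun i => ?_⟩
  · rw [map_prod]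
    exact Finset.prod_ne_zero_iff.2 fun z _ => hs0 z
  · set I : Ideal (MvPolynomial (Fin n) ℂ) :=
      Ideal.span (insert (gch F q j₀) (Set.range fun l => pderiv l (gch F q j₀))) with hI
    have h1 : (∏ z ∈ Z, s z) * X i ∈ I.radical := by
      rw [← vanishingIdeal_zeroLocus_eq_radical (K := ℂ) (k := ℂ), mem_vanishingIdeal_iff]
      intro z hz
      rw [mem_zeroLocus_iff] at hz
      have hae : ∀ p : MvPolynomial (Fin n) ℂ, aeval z p = eval z p := fun p => by
        rw [← coe_aeval_eq_eval]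
        rfl
      have h2 : z ∈ Z := by
        rw [hZdef, Set.Finite.mem_toFinset]
        refine ⟨?_, fun l => ?_⟩
        · have h3 := hz _ (Ideal.subset_span (Set.mem_insert _ _))
          rwa [hae] at h3
        · have h3 := hz _ (Ideal.subset_span (Set.mem_insert_of_mem _ (Set.mem_range_self l)))
          rwa [hae] at h3
      rw [hae, map_mul, map_prod, eval_X]
      by_cases h0 : z = 0
      · rw [h0, Pi.zero_apply, mul_zero]
      · rw [Finset.prod_eq_zero h2 (hs1 z h0), zero_mul]
    exact h1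

/-! ### Power series without constant term -/

private theorem mem_span_X {n : ℕ} {e : MvPowerSeries (Fin n) ℂ}
    (he : MvPowerSeries.constantCoeff e = 0) :
    e ∈ Ideal.span (Set.range fun i : Fin n => (MvPowerSeries.X i : MvPowerSeries (Fin n) ℂ)) := by
  classical
  let p : Fin n → MvPowerSeries (Fin n) ℂ := fun i m =>
    if m i ≠ 0 ∧ ∀ j < i, m j = 0 then MvPowerSeries.coeff m e else 0
  have hp : ∀ i m, MvPowerSeries.coeff m (p i) =
      if m i ≠ 0 ∧ ∀ j < i, m j = 0 then MvPowerSeries.coeff m e else 0 := fun i m => rfl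
  have h1 : e = ∑ i, p i := by
    ext m
    rw [map_sum]
    simp only [hp]
    by_cases hm : m = 0
    · subst hm
      rw [MvPowerSeries.coeff_zero_eq_constantCoeff_apply, he]
      symm
      apply Finset.sum_eq_zero
      intro i _
      rw [if_neg]
      rintro ⟨h, -⟩
      exact h rfl
    · have hne : m.support.Nonempty := Finsupp.support_nonempty_iff.2 hm
      rw [Finset.sum_eq_single (m.support.min' hne)]
      · rw [if_pos]
        refine ⟨Finsupp.mem_support_iff.1 (Finset.min'_mem _ hne), fun j hj => ?_⟩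
        by_contra h
        exact absurd (Finset.min'_le _ j (Finsupp.mem_support_iff.2 h)) (not_le.2 hj)
      · intro i _ hi
        rw [if_neg]
        rintro ⟨h, h'⟩
        have h2 := Finset.min'_le _ i (Finsupp.mem_support_iff.2 h)
        have h3 := h' _ (lt_of_le_of_ne h2 (Ne.symm hi))
        exact (Finsupp.mem_support_iff.1 (Finset.min'_mem _ hne)) h3
      · intro h
        exact absurd (Finset.mem_univ _) h
  rw [h1]
  refine Ideal.sum_mem _ fun i _ => ?_
  have h2 : (MvPowerSeries.X i : MvPowerSeries (Fin n) ℂ) ∣ p i := by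
    rw [MvPowerSeries.X_dvd_iff]
    intro m hm
    rw [hp, if_neg]
    rintro ⟨h, -⟩
    exact h hm
  exact Ideal.mem_of_dvd _ h2 (Ideal.subset_span (Set.mem_range_self i))

/-! ### The curve -/

/-- The substitution `y ↦ T`, all the other variables to `0`. -/
private def cv (t : ℕ) : Fin (t + 3) → MvPowerSeries (Fin 1) ℂ := fun i =>
  if i = 1 then MvPowerSeries.X 0 else 0

private theorem hcv (t : ℕ) : MvPowerSeries.HasSubst (cv t) :=
  MvPowerSeries.hasSubst_of_constantCoeff_zero fun i => by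
    unfold cv
    split_ifs
    · simp
    · simp

private theorem hgsplit (f : MvPolynomial (Fin (t + 3)) ℂ) (d : ℕ) (q : Fin (t + 3) → ℂ)
    (j₀ : Fin (t + 3)) : ∃ R : MvPolynomial (Fin (t + 3)) ℂ,
      hg f d q j₀ = rename Fin.succ (gch (homogeneousComponent d f) q j₀) + X 0 * R := by
  rw [hg, Finset.sum_range_succ']
  refine ⟨∑ j ∈ Finset.range f.totalDegree,
    X 0 ^ j * rename Fin.succ (gch (homogeneousComponent (d + (j + 1)) f) q j₀), ?_⟩
  rw [Finset.mul_sum, pow_zero, one_mul, show d + 0 = d from rfl,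
    add_comm (∑ k ∈ Finset.range f.totalDegree, _)]
  congr 1
  refine Finset.sum_congr rfl fun j _ => ?_
  rw [pow_succ]
  ring

/-- If `k(0, y) = 0`, then `gch f_d = unit * E₀(∑ x_i²)` has a curve of singular points through the
origin, but `FinSing` and the Nullstellensatz give powers of the variables in the ideal of
`gch f_d` and its derivatives (compare `SI.isoSing_gch`, `agI/Geo.lean`). -/
theorem exists_yOrdG (hd : 0 < d) (hq : q j₀ = 1) (hfin : FinSing (homogeneousComponent d f))
    {k : P2} (hk0 : MvPowerSeries.constantCoeff k = 0)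
    (hk : UEqG (hg f d q j₀ : MvPowerSeries (Fin (t + 3)) ℂ) k) : ∃ M, 1 ≤ M ∧ YOrd k 0 M := by
  classical
  by_cases hex : ∃ j, MvPowerSeries.coeff (ex 0 j) k ≠ 0
  · refine ⟨Nat.find hex, ?_, fun i hi => absurd hi (Nat.not_lt_zero _),
      fun j hj => not_not.1 (Nat.find_min hex hj), Nat.find_spec hex⟩
    rw [Nat.one_le_iff_ne_zero]
    intro h
    have h1 := Nat.find_spec hex
    rw [h] at h1
    apply h1
    have h2 : ex 0 0 = 0 := by simp [ex]
    rw [h2]
    simpa using hk0
  · exfalso
    push Not at hex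
    -- `k` is divisible by `X 0`
    have hdvd : (MvPowerSeries.X 0 : P2) ∣ k := by
      rw [MvPowerSeries.X_dvd_iff]
      intro m hm
      have h1 : m = ex 0 (m 1) := by
        ext i
        fin_cases i
        · simp [ex, hm]
        · simp [ex]
      rw [h1]
      exact hex _
    obtain ⟨k', rfl⟩ := hdvd
    obtain ⟨E, u, w, h1, h2⟩ := hk
    have hcs : MvPowerSeries.HasSubst (fun j : Fin 2 =>
        (MvPowerSeries.X (Fin.castLE (by omega) j) : MvPowerSeries (Fin (t + 3)) ℂ)) :=
      MvPowerSeries.hasSubst_of_constantCoeff_zero fun j => by simp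
    obtain ⟨K, hK⟩ : ∃ K : MvPowerSeries (Fin (t + 3)) ℂ, kzG t (MvPowerSeries.X 0 * k') =
        MvPowerSeries.X 0 * K + ∑ i : Fin (t + 1), MvPowerSeries.X i.succ.succ ^ 2 := by
      refine ⟨MvPowerSeries.subst (fun j : Fin 2 =>
          (MvPowerSeries.X (Fin.castLE (by omega) j) : MvPowerSeries (Fin (t + 3)) ℂ)) k', ?_⟩
      rw [kzG, MvPowerSeries.subst_mul hcs, MvPowerSeries.subst_X hcs]
      rfl
    -- the curve
    set φ : MvPowerSeries (Fin (t + 3)) ℂ →ₐ[ℂ] MvPowerSeries (Fin 1) ℂ :=
      MvPowerSeries.substAlgHom (hcv t) with hφ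
    have hφX : ∀ i, φ (MvPowerSeries.X i) = cv t i := by
      intro i
      rw [hφ, MvPowerSeries.coe_substAlgHom, MvPowerSeries.subst_X (hcv t)]
    set Ψ : MvPowerSeries (Fin (t + 3)) ℂ →ₐ[ℂ] MvPowerSeries (Fin 1) ℂ :=
      φ.comp (E.symm : MvPowerSeries (Fin (t + 3)) ℂ →ₐ[ℂ] MvPowerSeries (Fin (t + 3)) ℂ) with hΨ
    have hΨE : ∀ a, Ψ (E a) = φ a := by
      intro a
      rw [hΨ, AlgHom.comp_apply]
      congr 1
      exact E.symm_apply_apply a
    have hX0 : Ψ (MvPowerSeries.X 0) = 0 := by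
      have h3 := hΨE (MvPowerSeries.X 0)
      rw [h2, hφX, map_mul] at h3
      have h4 : cv t 0 = 0 := by
        unfold cv
        rw [if_neg]
        exact Fin.zero_ne_one
      rw [h4] at h3
      have h5 : IsUnit (Ψ (w : MvPowerSeries (Fin (t + 3)) ℂ)) := w.isUnit.map Ψ
      exact (h5.mul_left_eq_zero).1 h3
    have hXi : ∀ i : Fin (t + 1), Ψ (E (MvPowerSeries.X i.succ.succ)) = 0 := by
      intro i
      rw [hΨE, hφX]
      unfold cv
      rw [if_neg]
      intro h
      have h3 := congrArg Fin.val h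
      simp at h3
    have hh : (hg f d q j₀ : MvPowerSeries (Fin (t + 3)) ℂ) = (u : MvPowerSeries (Fin (t + 3)) ℂ) *
        (MvPowerSeries.X 0 * ((w : MvPowerSeries (Fin (t + 3)) ℂ) * E K) +
          ∑ i : Fin (t + 1), E (MvPowerSeries.X i.succ.succ) ^ 2) := by
      rw [h1, hK, map_add, map_mul, h2, map_sum]
      simp only [map_pow]
      rw [mul_assoc]
    have hb : Ψ (MvPowerSeries.X 0 * ((w : MvPowerSeries (Fin (t + 3)) ℂ) * E K) +
          ∑ i : Fin (t + 1), E (MvPowerSeries.X i.succ.succ) ^ 2) = 0 := by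
      rw [map_add, map_mul, hX0, zero_mul, zero_add, map_sum]
      refine Finset.sum_eq_zero fun i _ => ?_
      rw [map_pow, hXi, zero_pow two_ne_zero]
    have hh0 : Ψ (hg f d q j₀ : MvPowerSeries (Fin (t + 3)) ℂ) = 0 := by
      rw [hh, map_mul, hb, mul_zero]
    have hd0 : ∀ (l : Fin (t + 2)) (a : MvPowerSeries (Fin (t + 3)) ℂ),
        Ψ (MvPowerSeries.pderiv ℂ l.succ (MvPowerSeries.X 0 * a)) = 0 := by
      intro l a
      rw [Derivation.leibniz, smul_eq_mul, smul_eq_mul, MvPowerSeries.pderiv_X_of_ne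
        (Fin.succ_ne_zero l).symm, mul_zero, add_zero, map_mul, hX0, zero_mul]
    have hh1 : ∀ l : Fin (t + 2), Ψ (MvPowerSeries.pderiv ℂ l.succ
        (hg f d q j₀ : MvPowerSeries (Fin (t + 3)) ℂ)) = 0 := by
      intro l
      rw [hh, Derivation.leibniz, smul_eq_mul, smul_eq_mul, map_add, map_mul, map_mul, hb,
        zero_mul, add_zero]
      rw [map_add, map_add, hd0, zero_add, map_sum, map_sum]
      rw [Finset.sum_eq_zero, mul_zero]
      intro i _
      rw [Derivation.leibniz_pow]
      simp [hXi]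
    -- the germ in the chart
    obtain ⟨R, hR⟩ := hgsplit f d q j₀
    set g := gch (homogeneousComponent d f) q j₀ with hg'
    have hg0 : Ψ ((rename Fin.succ g : MvPolynomial (Fin (t + 3)) ℂ) :
        MvPowerSeries (Fin (t + 3)) ℂ) = 0 := by
      rw [hR, MvPolynomial.coe_add, MvPolynomial.coe_mul, MvPolynomial.coe_X, map_add, map_mul,
        hX0, zero_mul, add_zero] at hh0
      exact hh0
    have hg1 : ∀ l : Fin (t + 2), Ψ ((rename Fin.succ (pderiv l g) :
        MvPolynomial (Fin (t + 3)) ℂ) : MvPowerSeries (Fin (t + 3)) ℂ) = 0 := by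
      intro l
      have h3 := hh1 l
      rw [hR, MvPolynomial.coe_add, MvPolynomial.coe_mul, MvPolynomial.coe_X, map_add, map_add,
        hd0, add_zero, MvPowerSeries.pderiv_coe, pderiv_rename (Fin.succ_injective _)] at h3
      exact h3
    have hI : Ideal.span (insert g (Set.range fun l => pderiv l g)) ≤
        RingHom.ker ((Ψ : MvPowerSeries (Fin (t + 3)) ℂ →+* MvPowerSeries (Fin 1) ℂ).comp
          ((MvPolynomial.coeToMvPowerSeries.ringHom (σ := Fin (t + 3)) (R := ℂ)).comp
            (rename Fin.succ : MvPolynomial (Fin (t + 2)) ℂ →ₐ[ℂ]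
              MvPolynomial (Fin (t + 3)) ℂ).toRingHom)) := by
      rw [Ideal.span_le]
      rintro p (rfl | ⟨l, rfl⟩)
      · exact hg0
      · exact hg1 l
    obtain ⟨s, hs, hN⟩ := exists_loc (homogeneousComponent_isHomogeneous d f) hfin q j₀
    have hsu : Ψ ((rename Fin.succ s : MvPolynomial (Fin (t + 3)) ℂ) :
        MvPowerSeries (Fin (t + 3)) ℂ) ≠ 0 := by
      have h3 : IsUnit ((rename Fin.succ s : MvPolynomial (Fin (t + 3)) ℂ) :
          MvPowerSeries (Fin (t + 3)) ℂ) := by
        rw [MvPowerSeries.isUnit_iff_constantCoeff, isUnit_iff_ne_zero]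
        rw [← MvPowerSeries.coeff_zero_eq_constantCoeff_apply, MvPolynomial.coeff_coe]
        have h4 : coeff 0 (rename Fin.succ s : MvPolynomial (Fin (t + 3)) ℂ) = eval 0 s := by
          rw [← MvPolynomial.constantCoeff_eq, constantCoeff_rename]
          rw [MvPolynomial.eval_zero]
        rw [h4]
        exact hs
      exact (h3.map Ψ).ne_zero
    have hXs : ∀ i : Fin (t + 2), Ψ (MvPowerSeries.X i.succ) = 0 := by
      intro i
      obtain ⟨N, hN⟩ := hN i
      have h3 := hI hN
      rw [RingHom.mem_ker] at h3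
      have h4 : Ψ (((rename Fin.succ ((s * X i) ^ N)) : MvPolynomial (Fin (t + 3)) ℂ) :
        MvPowerSeries (Fin (t + 3)) ℂ) = 0 := h3
      rw [map_pow, map_mul, rename_X, MvPolynomial.coe_pow, MvPolynomial.coe_mul,
        MvPolynomial.coe_X, map_pow, map_mul] at h4
      rcases mul_eq_zero.1 (eq_zero_of_pow_eq_zero h4) with h6 | h6
      · exact absurd h6 hsu
      · exact h6
    -- all the variables go to zero
    have hall : ∀ e : MvPowerSeries (Fin (t + 3)) ℂ, MvPowerSeries.constantCoeff e = 0 →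
        Ψ e = 0 := by
      intro e he
      have h3 : Ideal.span (Set.range fun i : Fin (t + 3) =>
          (MvPowerSeries.X i : MvPowerSeries (Fin (t + 3)) ℂ)) ≤
            RingHom.ker (Ψ : MvPowerSeries (Fin (t + 3)) ℂ →+* MvPowerSeries (Fin 1) ℂ) := by
        rw [Ideal.span_le]
        rintro _ ⟨i, rfl⟩
        refine Fin.cases ?_ (fun i => ?_) i
        · exact hX0
        · exact hXs i
      exact h3 (mem_span_X he)
    have hE1 : MvPowerSeries.constantCoeff (E (MvPowerSeries.X 1)) = 0 := by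
      by_contra h6
      have h7 : IsUnit (E (MvPowerSeries.X 1)) := by
        rw [MvPowerSeries.isUnit_iff_constantCoeff]
        exact isUnit_iff_ne_zero.2 h6
      have h8 := (MulEquiv.isUnit_map E).1 h7
      rw [MvPowerSeries.isUnit_iff_constantCoeff] at h8
      simp at h8
    have h9 := hall _ hE1
    rw [hΨE, hφX] at h9
    have h10 : cv t 1 = MvPowerSeries.X 0 := if_pos rfl
    rw [h10] at h9
    have h11 := congrArg (MvPowerSeries.coeff (Finsupp.single (0 : Fin 1) 1)) h9
    rw [MvPowerSeries.coeff_X] at h11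
    simp at h11

end YG

end MPb07157
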