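import Pool.Agent.Lib.MP_b07157_agYG.ExG
import Pool.Agent.Lib.MP_b07157_agYG.RootN
import Pool.Agent.Lib.MP_b07157_agYG.NodeS
import Pool.Agent.Lib.MP_b07157_agYG.NonExG
import Pool.Agent.Lib.MP_b07157_agYG.PoleG
import Pool.Agent.Lib.MP_b07157_agYG.SerG
import Pool.Agent.Lib.MP_b07157_agYG.HsG
import Pool.Agent.Lib.MP_b07157_agYG.YoG
import Pool.Agent.Lib.MP_b07157_agYG.ChG
import Pool.Agent.Lib.MP_b07157_agYG.IsoG
import Pool.Agent.Lib.MP_b07157_agYX.Main2

/-!
# Hypersurface germs whose tangent cone has nodes or points of corank one: the main theorem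
-/

noncomputable section

namespace MPb07157

open MvPolynomial

namespace YG

open PC SU SI

/-- `f` is an isolated singularity of multiplicity `d ≥ 3` in `n = t + 3 ≥ 4` variables, the
projective hypersurface `f_d = 0` has finitely many singular points, and each of them is a node or,
if `(n - 2) d ≤ 2 n`, a point of corank one. -/
structure IsTCG {t : ℕ} (f : MvPolynomial (Fin (t + 3)) ℂ) (d : ℕ) : Prop where
  ht : 1 ≤ t
  hd : 3 ≤ d
  low : ∀ j < d, homogeneousComponent j f = 0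
  fin : FinSing (homogeneousComponent d f)
  iso : ∀ q : Fin (t + 3) → ℂ, q ≠ 0 →
    (∀ j, eval q (pderiv j (homogeneousComponent d f)) = 0) → IsolG f
  sing : ∀ q : Fin (t + 3) → ℂ, q ≠ 0 →
    (∀ j, eval q (pderiv j (homogeneousComponent d f)) = 0) →
    (hessAt (homogeneousComponent d f) q).rank = t + 2 ∨
      ((t + 1) * d ≤ 2 * (t + 3) ∧ t + 1 ≤ (hessAt (homogeneousComponent d f) q).rank)

theorem hn_twoG (t : ℕ) : hn (fun _ : Fin (t + 1) => 2) = ((t : ℚ) + 1) / 2 := by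
  unfold hn
  rw [Finset.sum_const, Finset.card_univ, Fintype.card_fin, nsmul_eq_mul]
  push_cast
  ring

variable {t : ℕ} {f : MvPolynomial (Fin (t + 3)) ℂ} {d : ℕ} {q : Fin (t + 3) → ℂ}
  {j₀ : Fin (t + 3)}

/-- The points of corank one. -/
theorem corank_case (ht : 1 ≤ t) (hd : 3 ≤ d) (hd6 : (t + 1) * d ≤ 2 * (t + 3)) (hf : IsolG f)
    (hlow : ∀ j < d, homogeneousComponent j f = 0)
    (hfin : FinSing (homogeneousComponent d f)) (hq : q j₀ = 1)
    (h0 : eval q (homogeneousComponent d f) = 0)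
    (hs : ∀ j, eval q (pderiv j (homogeneousComponent d f)) = 0)
    (hr : t + 1 ≤ (hessAt (homogeneousComponent d f) q).rank) {s₀ : ℚ}
    (h : ((t : ℚ) + 3) + d * s₀ ≠ 0) (h1 : s₀ ≠ -1) (hreg : lineSer f d q ∉ regularAt s₀)
    {b : Polynomial ℂ} (hb : InPs (f : MvPowerSeries (Fin (t + 3)) ℂ) 1
      (b.map (MvPowerSeries.C (σ := Fin (t + 3)) (R := ℂ)))) : b.eval (s₀ : ℂ) = 0 := by
  have htQ : (1 : ℚ) ≤ t := by exact_mod_cast ht
  have hd3Q : (3 : ℚ) ≤ d := by exact_mod_cast hd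
  have hd6Q : ((t : ℚ) + 1) * d ≤ 2 * (t + 3) := by exact_mod_cast hd6
  obtain ⟨k, hk0, hk⟩ := exists_ueqG_hg hq h0 hs hr
  obtain ⟨M, hM1, hM⟩ := exists_yOrdG (by omega) hq hfin hk0 hk
  obtain ⟨K, hK⟩ := exists_nat_gt (-s₀)
  have hK1 : 1 ≤ K + 1 := by omega
  have hK2 : -s₀ < ((K + 1 : ℕ) : ℚ) := by
    push_cast
    linarith
  rw [lineSer_eq_ZX (by omega) hq hk hK1] at hreg
  have he : ∀ l : Fin (t + 1), 0 < (fun _ : Fin (t + 1) => 2) l := fun _ => two_pos
  by_contra hb0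
  apply hreg
  set s : ℚ := s₀ + ((t : ℚ) + 1) / 2 with hsdef
  have hs₀ : s₀ = s - ((t : ℚ) + 1) / 2 := by rw [hsdef]; ring
  rcases lt_or_ge s (-(1 / 2)) with hs1 | hs1
  · refine YX.out_neg he ?_ h1 hK1 hK2 M k (t + 3) d 0 (by omega) (by omega) hM hM1 ?_
    · rw [hn_twoG]
      exact hs1
    · push_cast
      rw [zero_mul, add_zero, hs₀]
      nlinarith
  rcases le_or_gt 0 s with hs2 | hs2
  · refine YX.out_pos he ?_ h1 hK1 hK2 M k (t + 3) d 0 (by omega) (by omega) hM hM1 ?_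
    · rw [hn_twoG]
      exact hs2
    · push_cast
      rw [zero_mul, add_zero]
      refine lt_of_le_of_ne ?_ (Ne.symm h)
      rw [hs₀]
      nlinarith
  obtain ⟨ξ, U, D, hc⟩ := exists_chartG hlow hk
  have hex := ex2_of_rootG hc (by linarith) hs2 hb hb0
  have hax : YX.AxOK2 k (s₀ + hn (fun _ : Fin (t + 1) => 2)) := by
    refine axOK2_of_isoG hf hc ?_
    rw [hn_twoG]
    linarith
  have key := YX.later2 (g := k) he (s₀ := s₀) (by rw [hn_twoG]; exact hs2) (D := d) (b := t + 3)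
    (by omega) (by omega) (by
      rw [hn_twoG]
      have e1 : (((t + 3 : ℕ) : ℚ) - 1 + d * s₀) = (t : ℚ) + 2 + d * s₀ := by
        push_cast
        ring
      rw [e1]
      exact hex) hax h1 hK1 hK2 M MvPowerSeries.X k 1 1 0 (YX.isStg_id k) hM hM1 (by
      left
      rw [hn_twoG]
      push_cast
      rw [hs₀]
      nlinarith) (by
      rw [hn_twoG]
      push_cast
      intro h5
      apply h
      linarith)
  have e2 : (1 + (t + 3 - 1) * 1 : ℕ) = t + 3 := by omega
  rw [e2, mul_one] at key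
  exact key

/-- The nodes. -/
theorem node_case (hd : 3 ≤ d) (hf : IsolG f)
    (hlow : ∀ j < d, homogeneousComponent j f = 0) (hq : q j₀ = 1)
    (h0 : eval q (homogeneousComponent d f) = 0)
    (hs : ∀ j, eval q (pderiv j (homogeneousComponent d f)) = 0)
    (hr : (hessAt (homogeneousComponent d f) q).rank = t + 2) {s₀ : ℚ}
    (h : ((t : ℚ) + 3) + d * s₀ ≠ 0) (h1 : s₀ ≠ -1) (hreg : lineSer f d q ∉ regularAt s₀)
    {b : Polynomial ℂ} (hb : InPs (f : MvPowerSeries (Fin (t + 3)) ℂ) 1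
      (b.map (MvPowerSeries.C (σ := Fin (t + 3)) (R := ℂ)))) : b.eval (s₀ : ℂ) = 0 := by
  obtain ⟨K, hK⟩ := exists_nat_gt (-s₀)
  have hK1 : 1 ≤ K + 1 := by omega
  have hK2 : -s₀ < ((K + 1 : ℕ) : ℚ) := by
    push_cast
    linarith
  rcases exists_ueqG_hg_node hq h0 hs hr with hk | ⟨κ, hκ, hk⟩
  · obtain ⟨ξ, U, D, hc⟩ := exists_chartG hlow hk
    exact (not_chart_sq hf hc).elim
  · obtain ⟨ξ, U, D, hc⟩ := exists_chartG hlow hk
    have hr := root_nodeG hd hκ hc hb
    by_cases h2 : 2 * ((t : ℚ) + 3) + ((t : ℚ) + 2) * κ + s₀ * (2 * ((d : ℚ) + κ)) = 0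
    · have hpos : (0 : ℚ) < 2 * ((d : ℚ) + κ) := by positivity
      have h5 : s₀ = -((2 * ((t : ℚ) + 3) + ((t : ℚ) + 2) * κ) / (2 * ((d : ℚ) + κ))) := by
        rw [← neg_div, eq_div_iff hpos.ne']
        linarith
      rw [← hr, h5]
      push_cast
      rfl
    · refine absurd ?_ hreg
      rw [lineSer_eq_ZX (by omega) hq hk hK1]
      exact ZX_node_mem (by omega) hκ h1 h h2 hK1 hK2

/-- **Hypersurface germs whose tangent cone has nodes or points of corank one.** -/
theorem smc_tcG (hf : IsTCG f d) {s₀ : ℚ}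
    (hlct : s₀ = -(((t : ℚ) + 3) / d) → Lct.HasLct f (((t : ℝ) + 3) / d) ∨
      NonEx (homogeneousComponent d f) (((t : ℂ) + 3) / d))
    (hp : IsPole (Zmot0 f) s₀) {b : Polynomial ℂ}
    (hb : InDnForm f 1 (b.map (MvPowerSeries.C (σ := Fin (t + 3)) (R := ℂ)))) :
    b.eval (s₀ : ℂ) = 0 := by
  have hd := hf.hd
  have hdQ : (0 : ℚ) < d := by exact_mod_cast (by omega : 0 < d)
  have hF0 : homogeneousComponent d f ≠ 0 := by
    intro h0
    have h2 : hessAt (homogeneousComponent d f) (fun _ => (1 : ℂ)) = 0 := by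
      ext i j
      show eval _ (pderiv i (pderiv j (homogeneousComponent d f))) = 0
      rw [h0, map_zero, map_zero, map_zero]
    have h3 := hf.sing (fun _ => 1) (fun h => one_ne_zero (congrFun h 0)) (fun j => by
      rw [h0, map_zero, map_zero])
    rw [h2, Matrix.rank_zero] at h3
    omega
  have hf0 : f ≠ 0 := by
    rintro rfl
    exact hF0 (map_zero _)
  have h00 : coeff 0 f = 0 := by
    have h1 := hf.low 0 (by omega)
    rw [homogeneousComponent_zero] at h1
    exact C_eq_zero.1 h1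
  by_cases hs1 : s₀ = -1
  · subst hs1
    exact neg_one_root hf0 (by rwa [notMem_support_iff]) b hb
  by_cases hs2 : s₀ = -(((t : ℚ) + 3) / d)
  · rcases hlct hs2 with hc | hc
    · have h1 := Lct.root_order (n := t + 3) (by omega : 0 < d) (by omega) hf0 hf.low
        (by push_cast; exact hc) hb
      rw [hs2]
      exact_mod_cast h1
    · have h1 := root_of_nonExG (n := t + 3) (by omega) (by omega : 2 ≤ d) hf.low hF0
        (by push_cast; exact hc) hb
      rw [hs2]
      push_cast at h1 ⊢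
      exact h1
  have hcand : ((t + 2 + 1 : ℕ) : ℚ) / d ≠ -s₀ := by
    intro h
    apply hs2
    rw [← neg_eq_iff_eq_neg, ← h]
    push_cast
    ring
  have hcand' : ((t : ℚ) + 3) + d * s₀ ≠ 0 := by
    intro h
    apply hs2
    rw [← neg_div, eq_div_iff hdQ.ne']
    linarith
  obtain ⟨q, j₀, hq, hsing, hFq, hreg⟩ := exists_pole_line (by omega) hf.low hf.fin hcand hs1 hp
  have hq0 : q ≠ 0 := by
    rintro rfl
    simp at hq
  have hbps := inPs_of_form hb
  rcases hf.sing q hq0 hsing with h | ⟨hd6, h⟩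
  · exact node_case hd (hf.iso q hq0 hsing) hf.low hq hFq hsing h hcand' hs1 hreg hbps
  · exact corank_case hf.ht hd hd6 (hf.iso q hq0 hsing) hf.low hf.fin hq hFq hsing h hcand' hs1 hreg hbps

end YG

/-- Hypersurface germs whose tangent cone has nodes or points of corank one, with the condition at
`-n/d`. -/
theorem SmcLoc.of_tcG {t : ℕ} {f : MvPolynomial (Fin (t + 3)) ℂ} {d : ℕ} (hf : YG.IsTCG f d)
    (hc : Lct.HasLct f (((t : ℝ) + 3) / d) ∨
      NonEx (homogeneousComponent d f) (((t : ℂ) + 3) / d)) : SmcLoc f :=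
  fun _ _ hp _ hb => YG.smc_tcG hf (fun _ => hc) hp hb

end MPb07157
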