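import Mathlib

/-!
# The integrals of monomials times powers of `1 + ∑ T_j²`
-/

noncomputable section

namespace MPb07157

namespace YG

namespace LamAaux

/-- The solution of `c (j + 1) = (j - z) c j`, `c 0 = 1`. -/
def cc (z : ℂ) : ℤ → ℂ
  | Int.ofNat n => ∏ i ∈ Finset.range n, ((i : ℂ) - z)
  | Int.negSucc n => ∏ i ∈ Finset.range (n + 1), (-((i : ℂ) + 1) - z)⁻¹

theorem cc_zero (z : ℂ) : cc z 0 = 1 := by
  change ∏ i ∈ Finset.range 0, ((i : ℂ) - z) = 1
  rw [Finset.prod_range_zero]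

theorem cc_succ {z : ℂ} (hz : ∀ m : ℕ, z ≠ -((m : ℂ) + 1)) (j : ℤ) :
    cc z (j + 1) = ((j : ℂ) - z) * cc z j := by
  have h1 : ∀ m : ℕ, -((m : ℂ) + 1) - z ≠ 0 := fun m h => hz m (by linear_combination -h)
  rcases j with n | n
  · change cc z (((n + 1 : ℕ) : ℤ)) = (((n : ℕ) : ℤ) - z) * cc z ((n : ℕ) : ℤ)
    change ∏ i ∈ Finset.range (n + 1), ((i : ℂ) - z) =
      (((n : ℕ) : ℤ) - z) * ∏ i ∈ Finset.range n, ((i : ℂ) - z)
    rw [Finset.prod_range_succ]
    push_cast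
    ring
  · have h2 : cc z (Int.negSucc n) = ∏ i ∈ Finset.range (n + 1), (-((i : ℂ) + 1) - z)⁻¹ := rfl
    rw [h2, Finset.prod_range_succ]
    have h3 : ((Int.negSucc n : ℤ) : ℂ) = -((n : ℂ) + 1) := by
      rw [Int.cast_negSucc]
      push_cast
      ring
    rw [h3]
    have h4 : cc z (Int.negSucc n + 1) = ∏ i ∈ Finset.range n, (-((i : ℂ) + 1) - z)⁻¹ := by
      rcases n with _ | n
      · change cc z 0 = _
        rw [cc_zero, Finset.prod_range_zero]
      · rfl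
    rw [h4]
    have h5 := mul_inv_cancel₀ (h1 n)
    linear_combination (-∏ i ∈ Finset.range n, (-((i : ℂ) + 1) - z)⁻¹) * h5

/-- The solution of `h b = (b - s) h (b + 1)`, `h 0 = 1`. -/
def hh (s : ℂ) (b : ℕ) : ℂ := ∏ i ∈ Finset.range b, ((i : ℂ) - s)⁻¹

theorem hh_succ {s : ℂ} (hs : ∀ m : ℕ, s ≠ m) (b : ℕ) :
    ((b : ℂ) - s) * hh s (b + 1) = hh s b := by
  unfold hh
  rw [Finset.prod_range_succ]
  have h1 : (b : ℂ) - s ≠ 0 := fun h => hs b (by linear_combination -h)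
  have h2 := mul_inv_cancel₀ h1
  linear_combination (∏ i ∈ Finset.range b, ((i : ℂ) - s)⁻¹) * h2

/-- `(1/2)_α` for `n = 2 α`, zero if `n` is odd. -/
def ph : ℕ → ℂ
  | 0 => 1
  | 1 => 0
  | n + 2 => ((n : ℂ) + 1) / 2 * ph n

theorem ph_odd (n : ℕ) : ph (2 * n + 1) = 0 := by
  induction n with
  | zero => rfl
  | succ n ih =>
    have h : 2 * (n + 1) + 1 = (2 * n + 1) + 2 := by ring
    rw [h, ph, ih, mul_zero]

variable {r : ℕ}

/-- The product of the numbers `ph (a j)`. -/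
def pp (a : Fin r →₀ ℕ) : ℂ := ∏ j, ph (a j)

theorem pp_eq (a : Fin r →₀ ℕ) (j : Fin r) :
    pp a = ph (a j) * ∏ i ∈ Finset.univ.erase j, ph (a i) := by
  unfold pp
  rw [Finset.mul_prod_erase _ (fun i => ph (a i)) (Finset.mem_univ j)]

theorem pp_congr {a a' : Fin r →₀ ℕ} {j : Fin r} (h : ∀ i, i ≠ j → a' i = a i) :
    ∏ i ∈ Finset.univ.erase j, ph (a' i) = ∏ i ∈ Finset.univ.erase j, ph (a i) :=
  Finset.prod_congr rfl fun i hi => by rw [h i (Finset.ne_of_mem_erase hi)]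

theorem pp_two (a : Fin r →₀ ℕ) (j : Fin r) :
    pp (a + Finsupp.single j 2) = ((a j : ℂ) + 1) / 2 * pp a := by
  rw [pp_eq _ j, pp_eq a j, pp_congr (a := a)]
  · have h : (a + Finsupp.single j 2 : Fin r →₀ ℕ) j = a j + 2 := by simp
    rw [h, ph]
    ring
  · intro i hi
    simp [Finsupp.single_eq_of_ne hi]

/-- The total degree. -/
def dg (a : Fin r →₀ ℕ) : ℕ := ∑ j, a j

theorem dg_add (a : Fin r →₀ ℕ) (j : Fin r) (n : ℕ) : dg (a + Finsupp.single j n) = dg a + n := by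
  unfold dg
  have h : ∀ i, (a + Finsupp.single j n : Fin r →₀ ℕ) i = a i + (if i = j then n else 0) := by
    intro i
    rw [Finsupp.add_apply, Finsupp.single_apply]
    by_cases h : i = j
    · rw [if_pos h.symm, if_pos h]
    · rw [if_neg (fun h' => h h'.symm), if_neg h]
  simp only [h, Finset.sum_add_distrib, Finset.sum_ite_eq', Finset.mem_univ, if_true]

theorem even_of_pp {a : Fin r →₀ ℕ} (h : pp a ≠ 0) : ∃ n, dg a = 2 * n := by
  have h1 : ∀ j, ∃ n, a j = 2 * n := by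
    intro j
    by_contra hcon
    apply h
    have h2 : ph (a j) = 0 := by
      obtain ⟨n, hn | hn⟩ := Nat.even_or_odd' (a j)
      · exact absurd ⟨n, hn⟩ hcon
      · rw [hn, ph_odd]
    rw [pp_eq a j, h2, zero_mul]
  choose n hn using h1
  refine ⟨∑ j, n j, ?_⟩
  unfold dg
  rw [Finset.mul_sum]
  exact Finset.sum_congr rfl fun j _ => hn j

/-- The numbers `g a b`. -/
def gg (s : ℂ) (a : Fin r →₀ ℕ) (b : ℕ) : ℂ :=
  pp a * cc (s + (r : ℂ) / 2) ((b : ℤ) - (dg a / 2 : ℕ)) * hh s b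

theorem gg_one {s : ℂ} (hs0 : ∀ m : ℕ, s ≠ m)
    (hs1 : ∀ m : ℕ, s + (r : ℂ) / 2 ≠ -((m : ℂ) + 1)) (a : Fin r →₀ ℕ) (b : ℕ) :
    gg s a (b + 1) + ∑ j, gg s (a + Finsupp.single j 2) (b + 1) = gg s a b := by
  by_cases hp : pp a = 0
  · have h1 : ∀ j, gg s (a + Finsupp.single j 2) (b + 1) = 0 := by
      intro j
      unfold gg
      rw [pp_two, hp]
      ring
    simp only [h1, Finset.sum_const_zero]
    unfold gg
    rw [hp]
    ring
  · obtain ⟨n, hn⟩ := even_of_pp hp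
    have hd : dg a / 2 = n := by omega
    have hd' : ∀ j, dg (a + Finsupp.single j 2) / 2 = n + 1 := by
      intro j
      rw [dg_add]
      omega
    have h1 : ∀ j, gg s (a + Finsupp.single j 2) (b + 1) =
        ((a j : ℂ) + 1) * (pp a * cc (s + (r : ℂ) / 2) ((b : ℤ) - n) * hh s (b + 1) / 2) := by
      intro j
      unfold gg
      rw [pp_two, hd']
      have h2 : (((b + 1 : ℕ) : ℤ) - ((n + 1 : ℕ) : ℤ)) = (b : ℤ) - n := by
        push_cast
        ring
      rw [h2]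
      ring
    simp only [h1]
    rw [← Finset.sum_mul, Finset.sum_add_distrib]
    have h3 : ∑ j, (a j : ℂ) = 2 * n := by
      have h4 : ((dg a : ℕ) : ℂ) = 2 * n := by rw [hn]; push_cast; ring
      rw [← h4]
      unfold dg
      push_cast
      rfl
    have h5 : ∑ _j : Fin r, (1 : ℂ) = r := by simp
    rw [h3, h5]
    unfold gg
    rw [hd]
    have h6 : (((b + 1 : ℕ) : ℤ) - (n : ℤ)) = ((b : ℤ) - n) + 1 := by
      push_cast
      ring
    rw [h6, cc_succ hs1, ← hh_succ hs0 b]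
    push_cast
    ring

theorem gg_two {s : ℂ} (hs0 : ∀ m : ℕ, s ≠ m) (a : Fin r →₀ ℕ) (b : ℕ) (j : Fin r) :
    (a j : ℂ) * gg s (a - Finsupp.single j 1) b +
      2 * (s - b) * gg s (a + Finsupp.single j 1) (b + 1) = 0 := by
  obtain h0 | ⟨n, hn⟩ : a j = 0 ∨ ∃ n, a j = n + 1 := by
    rcases Nat.eq_zero_or_pos (a j) with h | h
    · exact Or.inl h
    · exact Or.inr ⟨a j - 1, by omega⟩
  · have h1 : pp (a + Finsupp.single j 1) = 0 := by
      rw [pp_eq _ j]
      have h : (a + Finsupp.single j 1 : Fin r →₀ ℕ) j = 1 := by simp [h0]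
      rw [h, ph, zero_mul]
    unfold gg
    rw [h0, h1]
    push_cast
    ring
  · have e1 : a - Finsupp.single j 1 + Finsupp.single j 1 = a := by
      ext i
      by_cases hi : i = j
      · subst hi
        simp [hn]
      · simp [Finsupp.single_eq_of_ne hi]
    set a' := a - Finsupp.single j 1 with ha'
    have haj : a' j = n := by
      rw [ha']
      simp [hn]
    have e2 : a + Finsupp.single j 1 = a' + Finsupp.single j 2 := by
      rw [← e1, add_assoc, ← Finsupp.single_add]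
    have hd : dg (a' + Finsupp.single j 2) / 2 = dg a' / 2 + 1 := by
      rw [dg_add]
      omega
    unfold gg
    rw [e2, pp_two, hd, haj, hn]
    have h2 : (((b + 1 : ℕ) : ℤ) - ((dg a' / 2 + 1 : ℕ) : ℤ)) = (b : ℤ) - (dg a' / 2 : ℕ) := by
      push_cast
      ring
    rw [h2, ← hh_succ hs0 b]
    push_cast
    ring

end LamAaux

open LamAaux

/-- The numbers `g a b = ∫ T^a (1 + Q)^(s - b) dT / ∫ (1 + Q)^s dT`, `Q = ∑ T_j²`, in the sense of
analytic continuation: `g a b = 0` if some `a_j` is odd, and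
`g (2α) b = ∏ (1/2)_{α_j} · γ(b - s' - |α|) / γ(-s') · Γ(-s) / Γ(b - s)`, `s' = s + r/2`, where `γ` is
Euler's gamma function if `s'` is not an integer; if `s' ≥ 0` is an integer,
`γ(-l) = (-1)^l / l!` for natural numbers `l`, `γ(z) = 0` for `z ≥ 1` (residues). In both cases
`γ(z + 1) = z γ(z)`. -/
theorem exists_g (r : ℕ) {s : ℂ} (hs0 : ∀ m : ℕ, s ≠ m)
    (hs1 : ∀ m : ℕ, s + (r : ℂ) / 2 ≠ -((m : ℂ) + 1)) :
    ∃ g : (Fin r →₀ ℕ) → ℕ → ℂ, g 0 0 = 1 ∧
      (∀ a b, g a (b + 1) + ∑ j, g (a + Finsupp.single j 2) (b + 1) = g a b) ∧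
      ∀ a b j, (a j : ℂ) * g (a - Finsupp.single j 1) b +
        2 * (s - b) * g (a + Finsupp.single j 1) (b + 1) = 0 := by
  refine ⟨gg s, ?_, gg_one hs0 hs1, gg_two hs0⟩
  unfold gg
  have h1 : pp (0 : Fin r →₀ ℕ) = 1 := by
    unfold pp
    exact Finset.prod_eq_one fun j _ => rfl
  have h2 : dg (0 : Fin r →₀ ℕ) = 0 := by
    unfold dg
    exact Finset.sum_eq_zero fun j _ => rfl
  have h3 : hh s 0 = 1 := by
    unfold hh
    rw [Finset.prod_range_zero]
  rw [h1, h2, h3]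
  change 1 * cc (s + (r : ℂ) / 2) 0 * 1 = 1
  rw [cc_zero]
  ring

end YG

end MPb07157
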