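import Pool.Agent.Lib.MP_b07157_agYG.Defs
import Pool.Agent.Lib.MP_b07157_agI.Line

/-!
# The arcs at a line, in the chart of the blow-up
-/

noncomputable section

namespace MPb07157

open MvPolynomial

namespace YG

open SI SI.LineQ SI.LineA

variable {n : ℕ}

namespace ChartK

open LineA

variable {f : MvPolynomial (Fin (n + 1)) ℂ} {d k N i : ℕ} {q : Fin (n + 1) → ℂ}
  {j₀ : Fin (n + 1)}

theorem isConstr_AK' (h : MvPolynomial (Fin (n + 1)) ℂ) (N k i : ℕ) : IsConstr (AK h N k i) := by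
  have e : AK h N k i = Start (n + 1) 1 (N + 1) ∩ (arcs (X 0) (N + 1) k ∩ arcs h (N + 1) i) := by
    ext γ
    rw [Set.mem_inter_iff, Set.mem_inter_iff, mem_Start_one]
    simp only [AK, arcs, Set.mem_ofPred_eq, aeval_X]
  rw [e]
  exact (isConstr_Start _ _ _).inter ((isConstr_arcs _ _ _).inter (isConstr_arcs _ _ _))

/-- The coordinates: the first block are the last `k` coefficients of `U`, the second block are the
arcs `(t^k U, x)`. -/
def thV (j₀ : Fin (n + 1)) (k N : ℕ) (p : Fin (n + 1) × Fin (N + 1)) :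
    Fin k ⊕ (Fin (n + 1) × Fin (N + 1)) :=
  j₀.insertNth (α := fun _ => Fin k ⊕ (Fin (n + 1) × Fin (N + 1)))
    (if h : (p.2 : ℕ) + k < N + 1 then Sum.inr (0, ⟨(p.2 : ℕ) + k, h⟩)
      else Sum.inl ⟨(p.2 : ℕ) + k - (N + 1), by have := p.2.isLt; omega⟩)
    (fun s => Sum.inr (s.succ, p.2)) p.1

/-- The inverse map. -/
def thP (j₀ : Fin (n + 1)) (k N : ℕ) (p : Fin (n + 1) × Fin (N + 1)) :
    MvPolynomial (Fin k ⊕ (Fin (n + 1) × Fin (N + 1))) ℂ := X (thV j₀ k N p)

theorem thP_succAbove (x : Fin k ⊕ (Fin (n + 1) × Fin (N + 1)) → ℂ) (s : Fin n) (l : Fin (N + 1)) :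
    polyMap (thP j₀ k N) x (j₀.succAbove s, l) = x (Sum.inr (s.succ, l)) := by
  unfold thP
  rw [polyMap_X]
  show x (thV j₀ k N (j₀.succAbove s, l)) = _
  unfold thV
  rw [Fin.insertNth_apply_succAbove]

theorem thP_lt (x : Fin k ⊕ (Fin (n + 1) × Fin (N + 1)) → ℂ) (l : Fin (N + 1))
    (h : (l : ℕ) + k < N + 1) :
    polyMap (thP j₀ k N) x (j₀, l) = x (Sum.inr (0, ⟨(l : ℕ) + k, h⟩)) := by
  unfold thP
  rw [polyMap_X]
  show x (thV j₀ k N (j₀, l)) = _
  unfold thV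
  rw [Fin.insertNth_apply_same, dif_pos h]

theorem thP_ge (x : Fin k ⊕ (Fin (n + 1) × Fin (N + 1)) → ℂ) (l : Fin (N + 1))
    (h : ¬ (l : ℕ) + k < N + 1) :
    polyMap (thP j₀ k N) x (j₀, l) = x (Sum.inl ⟨(l : ℕ) + k - (N + 1),
      by have := l.isLt; omega⟩) := by
  unfold thP
  rw [polyMap_X]
  show x (thV j₀ k N (j₀, l)) = _
  unfold thV
  rw [Fin.insertNth_apply_same, dif_neg h]

theorem arc_thP_succAbove (x : Fin k ⊕ (Fin (n + 1) × Fin (N + 1)) → ℂ) (s : Fin n) :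
    arc (polyMap (thP j₀ k N) x) (j₀.succAbove s) = arc (fun p => x (Sum.inr p)) s.succ := by
  unfold arc
  refine Finset.sum_congr rfl fun l _ => ?_
  rw [thP_succAbove]

theorem arc_thP_self (x : Fin k ⊕ (Fin (n + 1) × Fin (N + 1)) → ℂ)
    (h0 : ∀ l : Fin (N + 1), (l : ℕ) < k → x (Sum.inr (0, l)) = 0) :
    (PowerSeries.X : PowerSeries ℂ) ^ (N + 1) ∣ arc (fun p => x (Sum.inr p)) 0 -
      PowerSeries.X ^ k * arc (polyMap (thP j₀ k N) x) j₀ := by
  refine dvd_of_coeff fun l hl => ?_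
  rw [coeff_arc, dif_pos hl, PowerSeries.coeff_X_pow_mul']
  split_ifs with h
  · rw [coeff_arc, dif_pos (by omega), thP_lt x ⟨l - k, by omega⟩ (by simp only; omega)]
    congr 3
    exact Fin.ext (by simp only; omega)
  · exact h0 ⟨l, hl⟩ (by simp only; omega)

theorem aeval_hg (x : Fin k ⊕ (Fin (n + 1) × Fin (N + 1)) → ℂ)
    (f : MvPolynomial (Fin (n + 1)) ℂ) (d : ℕ)
    (q : Fin (n + 1) → ℂ) (j₀ : Fin (n + 1)) :
    (aeval (arc fun p => x (Sum.inr p)) (hg f d q j₀) : PowerSeries ℂ) =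
      ∑ j ∈ Finset.range (f.totalDegree + 1), arc (fun p => x (Sum.inr p)) 0 ^ j *
        aeval (xx q j₀ (polyMap (thP j₀ k N) x)) (homogeneousComponent (d + j) f) := by
  unfold hg
  rw [map_sum]
  refine Finset.sum_congr rfl fun j _ => ?_
  rw [map_mul, map_pow, aeval_X, aeval_rename, ← aeval_gch]
  congr 2
  congr 1
  funext s
  exact (arc_thP_succAbove x s).symm

theorem sum_Wf (f : MvPolynomial (Fin (n + 1)) ℂ) (d k : ℕ) (U : PowerSeries ℂ)
    (z : Fin (n + 1) → PowerSeries ℂ) :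
    aeval z (homogeneousComponent d f) + PowerSeries.X ^ k * Wf k f.totalDegree (cc f d z) U =
      ∑ j ∈ Finset.range (f.totalDegree + 1), (PowerSeries.X ^ k * U) ^ j *
        aeval z (homogeneousComponent (d + j) f) := by
  rw [Finset.sum_range_succ', pow_zero, one_mul, add_zero, add_comm]
  congr 1
  unfold Wf cc
  rw [Finset.mul_sum]
  refine Finset.sum_congr rfl fun j _ => ?_
  ring

theorem order_iff_th (hi : i ≤ N) (x : Fin k ⊕ (Fin (n + 1) × Fin (N + 1)) → ℂ)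
    (h0 : ∀ l : Fin (N + 1), (l : ℕ) < k → x (Sum.inr (0, l)) = 0) :
    (aeval (arc fun p => x (Sum.inr p)) (hg f d q j₀) : PowerSeries ℂ).order = (i : ℕ∞) ↔
    (aeval (xx q j₀ (polyMap (thP j₀ k N) x)) (homogeneousComponent d f) +
      PowerSeries.X ^ k * Wf k f.totalDegree (cc f d (xx q j₀ (polyMap (thP j₀ k N) x)))
        (arc (polyMap (thP j₀ k N) x) j₀)).order = (i : ℕ∞) := by
  refine order_congr (Nat.lt_succ_of_le hi) ?_
  rw [aeval_hg, sum_Wf, ← Finset.sum_sub_distrib]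
  refine Finset.dvd_sum fun j _ => ?_
  rw [← sub_mul]
  exact Dvd.dvd.mul_right ((arc_thP_self x h0).trans (sub_dvd_pow_sub_pow _ _ j)) _

/-- The order of the first coordinate. -/
theorem order_zero_iff (hkN : k ≤ N) (γ : Fin (n + 1) × Fin (N + 1) → ℂ) :
    (arc γ 0).order = (k : ℕ∞) ↔ γ (0, ⟨k, Nat.lt_succ_of_le hkN⟩) ≠ 0 ∧
      ∀ l : Fin (N + 1), (l : ℕ) < k → γ (0, l) = 0 := by
  rw [PowerSeries.order_eq_nat, coeff_arc, dif_pos (Nat.lt_succ_of_le hkN)]
  refine and_congr Iff.rfl ⟨fun h l hl => ?_, fun h l hl => ?_⟩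
  · have h1 := h l hl
    rwa [coeff_arc, dif_pos l.isLt] at h1
  · rw [coeff_arc, dif_pos (by omega)]
    exact h _ hl

theorem bijOn_th (hk : 0 < k) (hq : q j₀ = 1) (hkN : k ≤ N) (hi : i ≤ N) :
    Set.BijOn (polyMap (thP j₀ k N)) (prodSum (Set.univ : Set (Fin k → ℂ))
      (AK (hg f d q j₀) N k i)) (setP f d k q j₀ N i) := by
  have hmem : ∀ x : Fin k ⊕ (Fin (n + 1) × Fin (N + 1)) → ℂ,
      (∀ l : Fin (N + 1), (l : ℕ) < k → x (Sum.inr (0, l)) = 0) →
      ((fun p => x (Sum.inr p)) ∈ AK (hg f d q j₀) N k i ↔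
        polyMap (thP j₀ k N) x ∈ setP f d k q j₀ N i) := by
    intro x h0
    have hC : Cnd j₀ (polyMap (thP j₀ k N) x) ↔ (∀ s : Fin n, x (Sum.inr (s.succ, 0)) = 0) ∧
        x (Sum.inr (0, ⟨k, Nat.lt_succ_of_le hkN⟩)) ≠ 0 := by
      unfold Cnd
      refine and_congr (forall_congr' fun s => by rw [thP_succAbove]) ?_
      rw [thP_lt x 0 (by simp only [Fin.val_zero]; omega)]
      simp only [Fin.val_zero, zero_add]
    constructor
    · rintro ⟨h1, h2, h3⟩
      have h2' := (order_zero_iff hkN _).1 h2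
      have hc : Cnd j₀ (polyMap (thP j₀ k N) x) := hC.2 ⟨fun s => h1 s.succ, h2'.1⟩
      refine ⟨hc, ?_⟩
      rw [Set.mem_preimage]
      refine ⟨?_, phi_AtW hq hc⟩
      rw [Set.mem_ofPred_eq, order_iff_phi hi hc, ← order_iff_th hi x h0]
      exact h3
    · rintro ⟨hc, h1⟩
      rw [Set.mem_preimage] at h1
      have h2 := h1.1
      rw [Set.mem_ofPred_eq, order_iff_phi hi hc, ← order_iff_th hi x h0] at h2
      have hc' := hC.1 hc
      refine ⟨fun j => ?_, (order_zero_iff hkN _).2 ⟨hc'.2, h0⟩, h2⟩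
      refine Fin.cases ?_ (fun s => ?_) j
      · exact h0 0 (by simpa using hk)
      · exact hc'.1 s
  refine ⟨?_, ?_, ?_⟩
  · rintro x ⟨-, hx⟩
    have h0 := ((order_zero_iff hkN _).1 hx.2.1).2
    exact (hmem x h0).1 hx
  · rintro x ⟨-, hx⟩ y ⟨-, hy⟩ h
    have hx0 := ((order_zero_iff hkN _).1 hx.2.1).2
    have hy0 := ((order_zero_iff hkN _).1 hy.2.1).2
    funext s
    rcases s with t | ⟨j, l⟩
    · have h1 := congrFun h (j₀, ⟨(t : ℕ) + (N + 1) - k, by have := t.isLt; omega⟩)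
      have h2 : ¬ ((t : ℕ) + (N + 1) - k) + k < N + 1 := by omega
      rw [thP_ge x _ h2, thP_ge y _ h2] at h1
      have h3 : (⟨(t : ℕ) + (N + 1) - k + k - (N + 1), by have := t.isLt; omega⟩ : Fin k) = t :=
        Fin.ext (by simp only; omega)
      simp only [h3] at h1
      exact h1
    · refine Fin.cases ?_ (fun s => ?_) j
      · rcases Nat.lt_or_ge (l : ℕ) k with h1 | h1
        · exact (hx0 l h1).trans (hy0 l h1).symm
        · have h2 := congrFun h (j₀, ⟨(l : ℕ) - k, by have := l.isLt; omega⟩)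
          have h3 : (l : ℕ) - k + k < N + 1 := by have := l.isLt; omega
          rw [thP_lt x _ h3, thP_lt y _ h3] at h2
          have h4 : (⟨(l : ℕ) - k + k, h3⟩ : Fin (N + 1)) = l := Fin.ext (by simp only; omega)
          simp only [h4] at h2
          exact h2
      · have h1 := congrFun h (j₀.succAbove s, l)
        rwa [thP_succAbove, thP_succAbove] at h1
  · intro y hy
    set x : Fin k ⊕ (Fin (n + 1) × Fin (N + 1)) → ℂ := Sum.elim
      (fun t => y (j₀, ⟨(t : ℕ) + (N + 1) - k, by have := t.isLt; omega⟩))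
      (fun p => Fin.cases (motive := fun _ => ℂ) (if k ≤ (p.2 : ℕ) then
        y (j₀, ⟨(p.2 : ℕ) - k, by have := p.2.isLt; omega⟩) else 0)
        (fun s => y (j₀.succAbove s, p.2)) p.1) with hx
    have h0 : ∀ l : Fin (N + 1), (l : ℕ) < k → x (Sum.inr (0, l)) = 0 := by
      intro l hl
      rw [hx]
      simp only [Sum.elim_inr, Fin.cases_zero]
      rw [if_neg (by omega)]
    have hxy : polyMap (thP j₀ k N) x = y := by
      funext ⟨j, l⟩
      rcases Fin.eq_self_or_eq_succAbove j₀ j with h | ⟨s, h⟩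
      · rw [h]
        by_cases hl : (l : ℕ) + k < N + 1
        · rw [thP_lt x l hl, hx]
          simp only [Sum.elim_inr, Fin.cases_zero]
          rw [if_pos (by omega)]
          congr 2
          exact Fin.ext (by simp only; omega)
        · rw [thP_ge x l hl, hx]
          simp only [Sum.elim_inl]
          congr 2
          exact Fin.ext (by simp only; omega)
      · rw [h, thP_succAbove, hx]
        simp only [Sum.elim_inr, Fin.cases_succ]
    refine ⟨x, ⟨Set.mem_univ _, (hmem x h0).2 (by rw [hxy]; exact hy)⟩, hxy⟩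

theorem cls_setK_eq (hk : 0 < k) (hq : q j₀ = 1) (hkN : k ≤ N) (hi : i ≤ N) :
    cls (setK f d k (lineW q) N i) = L ^ k * cls (AK (hg f d q j₀) N k i) := by
  have hP : IsConstr (setP f d k q j₀ N i) := isConstr_setP hq
  have hA := isConstr_AK' (hg f d q j₀) N k i
  rw [← cls_bijOn hP (isConstr_setK f d k (isConstr_lineW (ne_zero_of_apply hq)) N i) _
    (bijOn_phi hq), ← cls_bijOn (isConstr_prodSum IsConstr.univ hA) hP _
    (bijOn_th hk hq hkN hi), cls_prodSum IsConstr.univ hA, cls_univ_eq, Fintype.card_fin]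

end ChartK

open ChartK in
/-- As `YL.Mk_eq_AKm` (`agYL/Chart.lean`). -/
theorem Mk_eq_AKm (f : MvPolynomial (Fin (n + 1)) ℂ) (d : ℕ) {k : ℕ} (hk : 0 < k)
    {q : Fin (n + 1) → ℂ} {j₀ : Fin (n + 1)} (hq : q j₀ = 1) {N i : ℕ} (hkN : k ≤ N)
    (hi : i ≤ N) : Mk f d k (lineW q) N i = (LU : Mot) ^ k * AKm (hg f d q j₀) N k i := by
  unfold Mk AKm clsM
  rw [cls_setK_eq hk hq hkN hi, map_mul, map_pow, ← LU_val]
  ring

end YG

end MPb07157
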