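import Pool.Agent.Lib.MP_b07157_agYG.Defs
import Pool.Agent.Lib.MP_b07157_agYL.Morse
import Pool.Agent.Lib.MP_b07157_agU.Split2

/-!
# The normal form at a point of corank at most one
-/

noncomputable section

namespace MPb07157

open MvPolynomial

namespace YG

open PC SU SI

/-- The gradient at the origin in the directions `X_1, …, X_n`. -/
private def GrP {n : ℕ} (F : MvPowerSeries (Fin (n + 1)) ℂ) : Fin n → ℂ := fun i =>
  MvPowerSeries.constantCoeff (MvPowerSeries.pderiv ℂ i.succ F)

/-- The Hessian matrix at the origin in the directions `X_1, …, X_n`. -/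
private def HsP {n : ℕ} (F : MvPowerSeries (Fin (n + 1)) ℂ) : Matrix (Fin n) (Fin n) ℂ :=
  Matrix.of fun i j =>
    MvPowerSeries.constantCoeff (MvPowerSeries.pderiv ℂ i.succ (MvPowerSeries.pderiv ℂ j.succ F))

private theorem HsP_apply {n : ℕ} (F : MvPowerSeries (Fin (n + 1)) ℂ) (i j : Fin n) :
    HsP F i j = MvPowerSeries.constantCoeff
      (MvPowerSeries.pderiv ℂ i.succ (MvPowerSeries.pderiv ℂ j.succ F)) := rfl

private theorem HsP_symm {n : ℕ} (F : MvPowerSeries (Fin (n + 1)) ℂ) (i j : Fin n) :
    HsP F i j = HsP F j i := Spl.Hs_symm F i.succ j.succ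

private theorem HsP_add {n : ℕ} (F G : MvPowerSeries (Fin (n + 1)) ℂ) :
    HsP (F + G) = HsP F + HsP G := by
  ext i j
  rw [Matrix.add_apply, HsP_apply, HsP_apply, HsP_apply, map_add, map_add, map_add]

section

variable {n : ℕ} {e : MvPowerSeries (Fin (n + 1)) ℂ ≃ₐ[ℂ] MvPowerSeries (Fin (n + 1)) ℂ}
  (he : e (MvPowerSeries.X 0) = MvPowerSeries.X 0)
include he

private theorem pdP (i : Fin n) (g : MvPowerSeries (Fin (n + 1)) ℂ) :
    MvPowerSeries.pderiv ℂ i.succ (e g) = ∑ j : Fin n,
      MvPowerSeries.pderiv ℂ i.succ (e (MvPowerSeries.X j.succ)) *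
        e (MvPowerSeries.pderiv ℂ j.succ g) := by
  rw [pderiv_equiv, Fin.sum_univ_succ, he, Spl.pderiv_X, if_neg (Fin.succ_ne_zero i), zero_mul,
    zero_add]

private theorem GrP_equiv {F : MvPowerSeries (Fin (n + 1)) ℂ} (h : GrP F = 0) :
    GrP (e F) = 0 := by
  funext i
  unfold GrP
  rw [pdP he, map_sum]
  refine Finset.sum_eq_zero fun j _ => ?_
  rw [map_mul, constantCoeff_equiv]
  have h1 : MvPowerSeries.constantCoeff (MvPowerSeries.pderiv ℂ j.succ F) = 0 := congrFun h j
  rw [h1, mul_zero]

private theorem HsP_equiv {F : MvPowerSeries (Fin (n + 1)) ℂ} (h : GrP F = 0) :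
    HsP (e F) = (Matrix.of fun i j => GrP (e (MvPowerSeries.X i.succ)) j).transpose * HsP F *
      (Matrix.of fun i j => GrP (e (MvPowerSeries.X i.succ)) j) := by
  ext i j
  rw [Matrix.mul_apply, HsP_apply, pdP he, map_sum, map_sum]
  refine Finset.sum_congr rfl fun l _ => ?_
  rw [Derivation.leibniz, smul_eq_mul, smul_eq_mul, map_add, map_mul, map_mul,
    constantCoeff_equiv]
  have h1 : MvPowerSeries.constantCoeff (MvPowerSeries.pderiv ℂ l.succ F) = 0 := congrFun h l
  rw [h1, zero_mul, add_zero, pdP he i (MvPowerSeries.pderiv ℂ l.succ F), map_sum, mul_comm,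
    Matrix.mul_apply]
  congr 1
  refine Finset.sum_congr rfl fun q _ => ?_
  rw [map_mul, constantCoeff_equiv]
  rfl

private theorem rankP_equiv {F : MvPowerSeries (Fin (n + 1)) ℂ} (h : GrP F = 0) :
    (HsP F).rank ≤ (HsP (e F)).rank := by
  have he' : e.symm (MvPowerSeries.X 0) = MvPowerSeries.X 0 := by
    rw [AlgEquiv.symm_apply_eq, he]
  have h1 := HsP_equiv he' (GrP_equiv he h)
  rw [AlgEquiv.symm_apply_apply] at h1
  rw [h1]
  exact (Matrix.rank_mul_le_left _ _).trans (Matrix.rank_mul_le_right _ _)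

end

/-- A change of coordinates which fixes `X_0`, such that the last diagonal entry of the Hessian
matrix is not zero. -/
private theorem exists_linP {m : ℕ} {F : MvPowerSeries (Fin (m + 2)) ℂ}
    (h : GrP (n := m + 1) F = 0) (hH : HsP (n := m + 1) F ≠ 0) :
    ∃ e : MvPowerSeries (Fin (m + 2)) ℂ ≃ₐ[ℂ] MvPowerSeries (Fin (m + 2)) ℂ,
      e (MvPowerSeries.X 0) = MvPowerSeries.X 0 ∧
      HsP (n := m + 1) (e F) (Fin.last m) (Fin.last m) ≠ 0 := by
  classical
  -- the quadratic form
  let q : MvPolynomial (Fin (m + 1)) ℂ := ∑ i, ∑ j, C (HsP (n := m + 1) F i j) * X i * X j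
  have hq : ∀ v, eval v q = ∑ i, ∑ j, HsP (n := m + 1) F i j * v i * v j := by
    intro v
    simp only [q, map_sum, map_mul, eval_C, eval_X]
  have hsum : ∀ (i j : Fin (m + 1)), ∑ a, ∑ b, HsP (n := m + 1) F a b *
      (Pi.single i (1 : ℂ) : Fin (m + 1) → ℂ) a *
      (Pi.single j (1 : ℂ) : Fin (m + 1) → ℂ) b = HsP (n := m + 1) F i j := by
    intro i j
    rw [Finset.sum_eq_single i]
    · rw [Finset.sum_eq_single j]
      · simp
      · intro b _ hb
        rw [Pi.single_eq_of_ne hb, mul_zero]
      · intro h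
        exact absurd (Finset.mem_univ _) h
    · intro a _ ha
      refine Finset.sum_eq_zero fun b _ => ?_
      rw [Pi.single_eq_of_ne ha, mul_zero, zero_mul]
    · intro h
      exact absurd (Finset.mem_univ _) h
  have hq0 : q ≠ 0 := by
    intro h0
    apply hH
    have h1 : ∀ v : Fin (m + 1) → ℂ, ∑ i, ∑ j, HsP (n := m + 1) F i j * v i * v j = 0 := by
      intro v
      rw [← hq, h0, map_zero]
    ext i j
    have h2 := h1 (Pi.single i 1 + Pi.single j 1)
    have h3 : ∀ a b, HsP (n := m + 1) F a b *
        (Pi.single i (1 : ℂ) + Pi.single j (1 : ℂ) : Fin (m + 1) → ℂ) a *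
        (Pi.single i (1 : ℂ) + Pi.single j (1 : ℂ) : Fin (m + 1) → ℂ) b =
        HsP (n := m + 1) F a b * (Pi.single i (1 : ℂ) : Fin (m + 1) → ℂ) a *
          (Pi.single i (1 : ℂ) : Fin (m + 1) → ℂ) b +
        HsP (n := m + 1) F a b * (Pi.single i (1 : ℂ) : Fin (m + 1) → ℂ) a *
          (Pi.single j (1 : ℂ) : Fin (m + 1) → ℂ) b +
        (HsP (n := m + 1) F a b * (Pi.single j (1 : ℂ) : Fin (m + 1) → ℂ) a *
          (Pi.single i (1 : ℂ) : Fin (m + 1) → ℂ) b +
        HsP (n := m + 1) F a b * (Pi.single j (1 : ℂ) : Fin (m + 1) → ℂ) a *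
          (Pi.single j (1 : ℂ) : Fin (m + 1) → ℂ) b) := by
      intro a b
      rw [Pi.add_apply, Pi.add_apply]
      ring
    simp only [h3, Finset.sum_add_distrib, hsum] at h2
    have h4 := h1 (Pi.single i 1)
    have h5 := h1 (Pi.single j 1)
    rw [hsum] at h4 h5
    rw [h4, h5, HsP_symm F j i] at h2
    rw [Matrix.zero_apply]
    linear_combination h2 / 2
  obtain ⟨v, hv⟩ : ∃ v, eval v (X (Fin.last m) * q) ≠ 0 := by
    by_contra hcon
    push Not at hcon
    have h1 : X (Fin.last m) * q = 0 := MvPolynomial.funext fun v => by rw [hcon, map_zero]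
    rcases mul_eq_zero.1 h1 with h2 | h2
    · exact X_ne_zero _ h2
    · exact hq0 h2
  rw [map_mul, eval_X, hq] at hv
  have hv1 := left_ne_zero_of_mul hv
  have hv2 := right_ne_zero_of_mul hv
  set a : Fin (m + 1) → MvPowerSeries (Fin (m + 2)) ℂ := fun i =>
    (if i = Fin.last m then 0 else MvPowerSeries.X i.succ) +
      MvPowerSeries.C (v i) * MvPowerSeries.X (Fin.last m).succ with ha
  have hpd : ∀ i j : Fin (m + 1), MvPowerSeries.constantCoeff (MvPowerSeries.pderiv ℂ j.succ
      (a i)) = (if i = Fin.last m then 0 else if j = i then 1 else 0) +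
        v i * (if j = Fin.last m then 1 else 0) := by
    intro i j
    have h1 : MvPowerSeries.pderiv ℂ j.succ (MvPowerSeries.C (v i) :
        MvPowerSeries (Fin (m + 2)) ℂ) = 0 := Derivation.map_algebraMap _ _
    rw [ha]
    simp only []
    rw [map_add, Derivation.leibniz, h1, smul_zero, add_zero, smul_eq_mul, Spl.pderiv_X, map_add,
      map_mul, MvPowerSeries.constantCoeff_C]
    congr 1
    · split_ifs with h2 h3
      · rw [map_zero, map_zero]
      · rw [Spl.pderiv_X, if_pos (by rw [h3]), map_one]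
      · rw [Spl.pderiv_X, if_neg (fun h4 => h3 (Fin.succ_injective _ h4)), map_zero]
    · by_cases h2 : j = Fin.last m
      · rw [if_pos h2, if_pos (by rw [h2]), map_one]
      · rw [if_neg h2, if_neg (fun h4 => h2 (Fin.succ_injective _ h4)), map_zero]
  have hpd0 : ∀ i : Fin (m + 1), MvPowerSeries.constantCoeff (MvPowerSeries.pderiv ℂ 0
      (a i)) = 0 := by
    intro i
    have h1 : MvPowerSeries.pderiv ℂ 0 (MvPowerSeries.C (v i) :
        MvPowerSeries (Fin (m + 2)) ℂ) = 0 := Derivation.map_algebraMap _ _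
    rw [ha]
    simp only []
    rw [map_add, Derivation.leibniz, h1, smul_zero, add_zero, smul_eq_mul, Spl.pderiv_X,
      if_neg (Fin.succ_ne_zero _).symm, mul_zero, add_zero]
    split_ifs with h2
    · rw [map_zero, map_zero]
    · rw [Spl.pderiv_X, if_neg (Fin.succ_ne_zero _).symm, map_zero]
  have hcc : ∀ i : Fin (m + 1), MvPowerSeries.constantCoeff (a i) = 0 := by
    intro i
    rw [ha]
    simp only []
    rw [map_add, map_mul, MvPowerSeries.constantCoeff_X, mul_zero, add_zero]
    split_ifs
    · rw [map_zero]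
    · rw [MvPowerSeries.constantCoeff_X]
  obtain ⟨e, he⟩ := Spl.exists_equiv' (n := m + 2)
    (a := Fin.cases (MvPowerSeries.X 0) a)
    (by
      intro i
      induction i using Fin.cases with
      | zero => rw [Fin.cases_zero, MvPowerSeries.constantCoeff_X]
      | succ i => rw [Fin.cases_succ, hcc])
    (by
      intro w hw
      have h0 : w 0 = 0 := by
        have h2 := hw 0
        rw [Fin.cases_zero, Finset.sum_eq_single 0] at h2
        · rwa [Spl.pderiv_X, if_pos rfl, map_one, one_mul] at h2
        · intro j _ hj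
          rw [Spl.pderiv_X, if_neg hj, map_zero, zero_mul]
        · intro h
          exact absurd (Finset.mem_univ _) h
      have h1 : ∀ i : Fin (m + 1), (if i = Fin.last m then 0 else w i.succ) +
          v i * w (Fin.last m).succ = 0 := by
        intro i
        have h2 := hw i.succ
        rw [Fin.cases_succ, Fin.sum_univ_succ, h0, mul_zero, zero_add] at h2
        simp only [hpd, add_mul, Finset.sum_add_distrib] at h2
        refine Eq.trans ?_ h2
        have h4 : ∑ x : Fin (m + 1), (v i * if x = Fin.last m then (1 : ℂ) else 0) * w x.succ =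
            v i * w (Fin.last m).succ := by
          rw [Finset.sum_eq_single (Fin.last m)]
          · rw [if_pos rfl, mul_one]
          · intro x _ hx
            rw [if_neg hx, mul_zero, zero_mul]
          · intro h
            exact absurd (Finset.mem_univ _) h
        have h5 : ∑ x : Fin (m + 1), (if i = Fin.last m then 0 else
            if x = i then (1 : ℂ) else 0) * w x.succ =
            if i = Fin.last m then 0 else w i.succ := by
          split_ifs with h3
          · simp
          · simp
        rw [h4, h5]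
      have h2 := h1 (Fin.last m)
      rw [if_pos rfl, zero_add] at h2
      have h3 : w (Fin.last m).succ = 0 := (mul_eq_zero.1 h2).resolve_left hv1
      funext i
      induction i using Fin.cases with
      | zero => exact h0
      | succ i =>
        by_cases hi : i = Fin.last m
        · rw [hi, h3]
          rfl
        · have h4 := h1 i
          rw [if_neg hi, h3, mul_zero, add_zero] at h4
          exact h4)
  have he0 : e (MvPowerSeries.X 0) = MvPowerSeries.X 0 := by
    rw [he, Fin.cases_zero]
  refine ⟨e, he0, ?_⟩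
  have h1 : ∀ i : Fin (m + 1), GrP (n := m + 1) (e (MvPowerSeries.X i.succ)) (Fin.last m) =
      v i := by
    intro i
    unfold GrP
    rw [he, Fin.cases_succ, hpd, if_pos rfl, mul_one]
    split_ifs with h2 h3
    · rw [zero_add]
    · exact absurd h3.symm h2
    · rw [zero_add]
  rw [HsP_equiv he0 h, Matrix.mul_apply]
  simp only [Matrix.mul_apply, Matrix.transpose_apply, Matrix.of_apply, h1]
  intro h2
  apply hv2
  rw [← h2, Finset.sum_comm]
  refine Finset.sum_congr rfl fun i _ => ?_
  rw [Finset.sum_mul]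
  refine Finset.sum_congr rfl fun j _ => ?_
  ring

/-- The Hessian matrix of `b(x) + y²`. -/
private theorem HsP_R_add {m : ℕ} (b : MvPowerSeries (Fin (m + 1)) ℂ) :
    (HsP (n := m + 1) (Spl.R (m + 1) b + MvPowerSeries.X (Fin.last (m + 1)) ^ 2)).rank ≤
      (HsP b).rank + 1 := by
  classical
  rw [HsP_add]
  refine (Spl.rank_add_le' _ _).trans (add_le_add ?_ ?_)
  · have h1 : HsP (n := m + 1) (Spl.R (m + 1) b) =
        (Matrix.of fun (i : Fin (m + 1)) (j : Fin m) =>
        if i = j.castSucc then (1 : ℂ) else 0) * HsP b * (Matrix.of fun (i : Fin (m + 1))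
          (j : Fin m) => if i = j.castSucc then (1 : ℂ) else 0).transpose := by
      ext i j
      rw [Matrix.mul_apply]
      simp only [Matrix.mul_apply, Matrix.transpose_apply, Matrix.of_apply]
      induction j using Fin.lastCases with
      | last =>
        rw [HsP_apply, Fin.succ_last, Spl.pderiv_last_R, map_zero, map_zero]
        symm
        refine Finset.sum_eq_zero fun l _ => ?_
        rw [if_neg (Fin.castSucc_lt_last l).ne', mul_zero]
      | cast j =>
        rw [HsP_apply, Fin.succ_castSucc, Spl.pderiv_R, Finset.sum_eq_single j]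
        · rw [if_pos rfl, mul_one]
          induction i using Fin.lastCases with
          | last =>
            rw [Fin.succ_last, Spl.pderiv_last_R, map_zero]
            symm
            refine Finset.sum_eq_zero fun l _ => ?_
            rw [if_neg (Fin.castSucc_lt_last l).ne', zero_mul]
          | cast i =>
            rw [Fin.succ_castSucc, Spl.pderiv_R, Spl.cc_hom, Finset.sum_eq_single i]
            · rw [if_pos rfl, one_mul, HsP_apply]
            · intro l _ hl
              rw [if_neg, zero_mul]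
              intro h
              exact hl (Fin.castSucc_injective m h).symm
            · intro h
              exact absurd (Finset.mem_univ _) h
        · intro l _ hl
          rw [if_neg, mul_zero]
          intro h
          exact hl (Fin.castSucc_injective m h).symm
        · intro h
          exact absurd (Finset.mem_univ _) h
    rw [h1]
    exact (Matrix.rank_mul_le_left _ _).trans (Matrix.rank_mul_le_right _ _)
  · have h1 : HsP (n := m + 1) (MvPowerSeries.X (Fin.last (m + 1)) ^ 2 :
        MvPowerSeries (Fin (m + 2)) ℂ) =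
        Matrix.vecMulVec (fun i => if i = Fin.last m then (2 : ℂ) else 0)
          (fun j => if j = Fin.last m then (1 : ℂ) else 0) := by
      ext i j
      have hl : ∀ l : Fin (m + 1), l.succ = Fin.last (m + 1) ↔ l = Fin.last m := by
        intro l
        rw [← Fin.succ_last, (Fin.succ_injective _).eq_iff]
      rw [Matrix.vecMulVec_apply, HsP_apply, Derivation.leibniz_pow, Spl.pderiv_X, nsmul_eq_mul,
        smul_eq_mul, pow_one]
      by_cases hj : j = Fin.last m
      · rw [if_pos ((hl j).2 hj), if_pos hj, mul_one, mul_one, Nat.cast_ofNat]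
        have h2 : (2 : MvPowerSeries (Fin (m + 2)) ℂ) = MvPowerSeries.C (2 : ℂ) := by
          rw [map_ofNat]
        rw [h2, Derivation.leibniz, Spl.pderiv_X]
        have h3 : MvPowerSeries.pderiv ℂ i.succ (MvPowerSeries.C (2 : ℂ) :
            MvPowerSeries (Fin (m + 2)) ℂ) = 0 := Derivation.map_algebraMap _ _
        rw [h3, smul_zero, add_zero, smul_eq_mul, map_mul, MvPowerSeries.constantCoeff_C]
        by_cases hi : i = Fin.last m
        · rw [if_pos ((hl i).2 hi), if_pos hi, map_one, mul_one]
        · rw [if_neg (fun h4 => hi ((hl i).1 h4)), if_neg hi, map_zero, mul_zero]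
      · rw [if_neg (fun h4 => hj ((hl j).1 h4)), if_neg hj, mul_zero, mul_zero, mul_zero,
          map_zero, map_zero]
    rw [h1]
    exact Matrix.rank_vecMulVec_le _ _

/-- The power series `k(u, y) + ∑ x_i²` with `r` squares. -/
private def kzR (r : ℕ) (k : P2) : MvPowerSeries (Fin (r + 2)) ℂ :=
  MvPowerSeries.subst (fun j : Fin 2 =>
    (MvPowerSeries.X (Fin.castLE (by omega) j) : MvPowerSeries (Fin (r + 2)) ℂ)) k +
    ∑ i : Fin r, MvPowerSeries.X i.succ.succ ^ 2

private theorem kzR_succ (k : P2) (r : ℕ) :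
    kzR (r + 1) k = Spl.R (r + 2) (kzR r k) + MvPowerSeries.X (Fin.last (r + 2)) ^ 2 := by
  unfold kzR
  have h1 : ∀ r : ℕ, MvPowerSeries.HasSubst (fun j : Fin 2 =>
      (MvPowerSeries.X (Fin.castLE (by omega) j) : MvPowerSeries (Fin (r + 2)) ℂ)) := fun r =>
    MvPowerSeries.hasSubst_of_constantCoeff_zero fun j => MvPowerSeries.constantCoeff_X _
  have h2 : ((Spl.R (r + 2)).comp (MvPowerSeries.substAlgHom (h1 r)) :
      MvPowerSeries (Fin 2) ℂ →ₐ[ℂ] MvPowerSeries (Fin (r + 2 + 1)) ℂ) =
      MvPowerSeries.substAlgHom (h1 (r + 1)) := by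
    apply Spl.hom_ext
    intro i
    rw [AlgHom.comp_apply, MvPowerSeries.substAlgHom_X, MvPowerSeries.substAlgHom_X, Spl.R_X]
    rfl
  have h3 := congrArg (fun f => f k) h2
  simp only [AlgHom.comp_apply, MvPowerSeries.substAlgHom_apply] at h3
  rw [map_add, h3, map_sum]
  refine Eq.trans ?_ (add_assoc _ _ _).symm
  congr 1
  rw [Fin.sum_univ_castSucc]
  congr 1
  refine Finset.sum_congr rfl fun i _ => ?_
  rw [map_pow, Spl.R_X]
  rfl

/-- The splitting lemma with the parameter `X_0`. -/
private theorem splittingP (r : ℕ) : ∀ F : MvPowerSeries (Fin (r + 2)) ℂ,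
    MvPowerSeries.constantCoeff F = 0 → GrP (n := r + 1) F = 0 →
    r ≤ (HsP (n := r + 1) F).rank →
    ∃ (e : MvPowerSeries (Fin (r + 2)) ℂ ≃ₐ[ℂ] MvPowerSeries (Fin (r + 2)) ℂ) (k : P2),
      e (MvPowerSeries.X 0) = MvPowerSeries.X 0 ∧ MvPowerSeries.constantCoeff k = 0 ∧
      e F = kzR r k := by
  induction r with
  | zero =>
    intro F h0 _ _
    refine ⟨AlgEquiv.refl, F, rfl, h0, ?_⟩
    have h1 : MvPowerSeries.subst (fun j : Fin 2 => (MvPowerSeries.X (Fin.castLE (by omega) j) :
        MvPowerSeries (Fin (0 + 2)) ℂ)) (F : MvPowerSeries (Fin 2) ℂ) = F :=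
      congrFun (MvPowerSeries.subst_self (σ := Fin 2) (R := ℂ)) F
    unfold kzR
    rw [h1, Finset.univ_eq_empty, Finset.sum_empty]
    exact (add_zero F).symm
  | succ r ih =>
    intro F h0 h1 h2
    have hH : HsP (n := r + 1 + 1) F ≠ 0 := by
      intro h
      rw [h, Matrix.rank_zero] at h2
      omega
    obtain ⟨e1, hx1, he1⟩ := exists_linP (m := r + 1) h1 hH
    obtain ⟨e2, b, he2, hx2'⟩ := YL.MorseAux.morse' (m := r + 2) (G := e1 F)
      (congrFun (GrP_equiv hx1 h1) (Fin.last (r + 1))) he1
    have hx2 : e2 (MvPowerSeries.X 0) = MvPowerSeries.X 0 := hx2' 0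
    have h3 : GrP (e2 (e1 F)) = 0 := GrP_equiv hx2 (GrP_equiv hx1 h1)
    have h4 : MvPowerSeries.constantCoeff b = 0 := by
      have h5 : MvPowerSeries.constantCoeff (e2 (e1 F)) = 0 := by
        rw [constantCoeff_equiv, constantCoeff_equiv, h0]
      rwa [he2, map_add, map_pow, MvPowerSeries.constantCoeff_X, zero_pow two_ne_zero, add_zero,
        Spl.cc_hom] at h5
    have h5 : GrP (n := r + 1) b = 0 := by
      funext j
      have h6 := congrFun h3 j.castSucc
      unfold GrP at h6
      rw [he2, map_add, Fin.succ_castSucc, Spl.pderiv_R, Derivation.leibniz_pow, Spl.pderiv_X,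
        if_neg (Fin.castSucc_lt_last j.succ).ne, smul_zero, smul_zero, add_zero,
        Spl.cc_hom] at h6
      exact h6
    have h6 : r ≤ (HsP (n := r + 1) b).rank := by
      have h7 := (rankP_equiv hx1 h1).trans (rankP_equiv hx2 (GrP_equiv hx1 h1))
      rw [he2] at h7
      have h8 := HsP_R_add (m := r + 1) b
      exact Nat.le_of_succ_le_succ (h2.trans (h7.trans h8))
    obtain ⟨e3, k, hx3, hk, he3⟩ := ih b h4 h5 h6
    obtain ⟨E, hE1, hE2⟩ := Spl.exists_ext e3
    have hE0 : E (MvPowerSeries.X 0) = MvPowerSeries.X 0 := by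
      have h7 := hE1 (MvPowerSeries.X 0)
      rw [hx3, Spl.R_X] at h7
      exact h7
    refine ⟨(e1.trans e2).trans E, k, ?_, hk, ?_⟩
    · rw [AlgEquiv.trans_apply, AlgEquiv.trans_apply, hx1, hx2, hE0]
    · rw [AlgEquiv.trans_apply, AlgEquiv.trans_apply, he2, map_add, map_pow, hE1, hE2, he3]
      exact (kzR_succ k r).symm

/-- The splitting lemma with a parameter `u = X_0`: if the first derivatives in the directions
`X_1, …, X_{t+2}` vanish and the Hessian matrix in these directions has rank at least `t + 1`. By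
induction with `YL.MorseAux.morse'` (the automorphism fixes the other variables) and linear changes
of `X_1, …, X_{t+2}`; compare `SU.Split2` (`agU/Split2.lean`) and `YX.exists_ueq2`. -/
theorem exists_ueqG {t : ℕ} {h : MvPowerSeries (Fin (t + 3)) ℂ}
    (h0 : MvPowerSeries.constantCoeff h = 0)
    (h1 : ∀ i : Fin (t + 2), MvPowerSeries.constantCoeff (MvPowerSeries.pderiv ℂ i.succ h) = 0)
    (h2 : t + 1 ≤ (Matrix.of fun i j : Fin (t + 2) => MvPowerSeries.constantCoeff
      (MvPowerSeries.pderiv ℂ i.succ (MvPowerSeries.pderiv ℂ j.succ h)) :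
        Matrix (Fin (t + 2)) (Fin (t + 2)) ℂ).rank) :
    ∃ k : P2, MvPowerSeries.constantCoeff k = 0 ∧ UEqG h k := by
  obtain ⟨e, k, hx, hk, he⟩ := splittingP (t + 1) h h0 (funext h1) h2
  have he' : e h = kzG t k := he
  refine ⟨k, hk, e.symm, 1, 1, ?_, ?_⟩
  · rw [Units.val_one, one_mul, eq_comm, AlgEquiv.symm_apply_eq, he']
  · rw [Units.val_one, mul_one, AlgEquiv.symm_apply_eq]
    exact hx.symm

end YG

end MPb07157
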