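import Pool.Agent.Lib.MP_b07157_agYG.NfG

/-!
# The normal form at a node
-/

noncomputable section

namespace MPb07157

open MvPolynomial

namespace YG

open PC SU SI YL

/-- The embedding of the power series in the first two variables. -/
private def io (t : ℕ) : P2 →ₐ[ℂ] MvPowerSeries (Fin (t + 3)) ℂ :=
  MvPowerSeries.substAlgHom (MvPowerSeries.hasSubst_of_constantCoeff_zero
    (a := fun j : Fin 2 =>
      (MvPowerSeries.X (Fin.castLE (by omega) j) : MvPowerSeries (Fin (t + 3)) ℂ))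
    (fun i => MvPowerSeries.constantCoeff_X _))

private theorem kzG_eq (t : ℕ) (k : P2) :
    kzG t k = io t k + ∑ i : Fin (t + 1), MvPowerSeries.X i.succ.succ ^ 2 := by
  unfold kzG io
  rw [MvPowerSeries.coe_substAlgHom]

private theorem io_X0 (t : ℕ) : io t (MvPowerSeries.X 0) = MvPowerSeries.X 0 := by
  unfold io
  rw [MvPowerSeries.substAlgHom_X]
  rfl

private theorem io_X1 (t : ℕ) : io t (MvPowerSeries.X 1) = MvPowerSeries.X 1 := by
  unfold io
  rw [MvPowerSeries.substAlgHom_X]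
  rfl

private theorem pderiv_io1 (t : ℕ) (k : P2) :
    MvPowerSeries.pderiv ℂ 1 (io t k) = io t (MvPowerSeries.pderiv ℂ 1 k) := by
  rw [Spl.pderiv_hom, Fin.sum_univ_two, io_X0, io_X1, Spl.pderiv_X, Spl.pderiv_X,
    if_neg (one_ne_zero : (1 : Fin (t + 3)) ≠ 0), if_pos rfl]
  simp

private theorem ne_one {t : ℕ} (i : Fin (t + 1)) : (i.succ.succ : Fin (t + 3)) ≠ 1 := fun h =>
  Fin.succ_ne_zero i (Fin.succ_injective _ h)

private theorem pderiv_io2 (t : ℕ) (k : P2) (i : Fin (t + 1)) :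
    MvPowerSeries.pderiv ℂ i.succ.succ (io t k) = 0 := by
  rw [Spl.pderiv_hom, Fin.sum_univ_two, io_X0, io_X1, Spl.pderiv_X, Spl.pderiv_X,
    if_neg (Fin.succ_ne_zero _), if_neg (ne_one i)]
  simp

private theorem pderiv_kz1 (t : ℕ) (k : P2) :
    MvPowerSeries.pderiv ℂ 1 (kzG t k) = io t (MvPowerSeries.pderiv ℂ 1 k) := by
  rw [kzG_eq, map_add, pderiv_io1, map_sum, Finset.sum_eq_zero, add_zero]
  intro i _
  rw [Derivation.leibniz_pow, Spl.pderiv_X, if_neg (ne_one i).symm]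
  simp

/-- Extension of an automorphism in the first two variables. -/
private theorem exists_ext2 (t : ℕ) (D : P2 ≃ₐ[ℂ] P2) :
    ∃ D' : MvPowerSeries (Fin (t + 3)) ℂ ≃ₐ[ℂ] MvPowerSeries (Fin (t + 3)) ℂ,
      (∀ k, D' (io t k) = io t (D k)) ∧
      ∀ i : Fin (t + 1), D' (MvPowerSeries.X i.succ.succ) = MvPowerSeries.X i.succ.succ := by
  have key : ∀ D : P2 ≃ₐ[ℂ] P2,
      ∃ φ : MvPowerSeries (Fin (t + 3)) ℂ →ₐ[ℂ] MvPowerSeries (Fin (t + 3)) ℂ,
      (∀ k, φ (io t k) = io t (D k)) ∧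
      ∀ i : Fin (t + 1), φ (MvPowerSeries.X i.succ.succ) = MvPowerSeries.X i.succ.succ := by
    intro D
    obtain ⟨φ, hφ⟩ := Spl.exists_hom (k := t + 3) (n := t + 3)
      (Fin.cases (io t (D (MvPowerSeries.X 0))) (Fin.cases (io t (D (MvPowerSeries.X 1)))
        fun i : Fin (t + 1) => MvPowerSeries.X i.succ.succ)) (by
      intro i
      refine Fin.cases ?_ (fun i => ?_) i
      · rw [Fin.cases_zero, Spl.cc_hom, constantCoeff_equiv, MvPowerSeries.constantCoeff_X]
      · refine Fin.cases ?_ (fun i => ?_) i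
        · rw [Fin.cases_succ, Fin.cases_zero, Spl.cc_hom, constantCoeff_equiv,
            MvPowerSeries.constantCoeff_X]
        · rw [Fin.cases_succ, Fin.cases_succ, MvPowerSeries.constantCoeff_X])
    refine ⟨φ, fun k => ?_, fun i => ?_⟩
    · have h : φ.comp (io t) = (io t).comp (D : P2 →ₐ[ℂ] P2) := by
        apply Spl.hom_ext
        intro i
        rw [AlgHom.comp_apply, AlgHom.comp_apply]
        fin_cases i
        · show φ (io t (MvPowerSeries.X 0)) = io t (D (MvPowerSeries.X 0))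
          rw [io_X0, hφ]
          rfl
        · show φ (io t (MvPowerSeries.X 1)) = io t (D (MvPowerSeries.X 1))
          rw [io_X1, hφ]
          rfl
      exact congrArg (fun f => f k) h
    · rw [hφ, Fin.cases_succ, Fin.cases_succ]
  obtain ⟨φ, h1, h2⟩ := key D
  obtain ⟨ψ, h3, h4⟩ := key D.symm
  have e1 : φ.comp ψ = AlgHom.id ℂ _ := by
    apply Spl.hom_ext
    intro i
    rw [AlgHom.comp_apply, AlgHom.id_apply]
    refine Fin.cases ?_ (fun i => ?_) i
    · rw [← io_X0, h3, h1, D.apply_symm_apply]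
    · refine Fin.cases ?_ (fun i => ?_) i
      · show φ (ψ (MvPowerSeries.X 1)) = MvPowerSeries.X 1
        rw [← io_X1, h3, h1, D.apply_symm_apply]
      · rw [h4, h2]
  have e2 : ψ.comp φ = AlgHom.id ℂ _ := by
    apply Spl.hom_ext
    intro i
    rw [AlgHom.comp_apply, AlgHom.id_apply]
    refine Fin.cases ?_ (fun i => ?_) i
    · rw [← io_X0, h1, h3, D.symm_apply_apply]
    · refine Fin.cases ?_ (fun i => ?_) i
      · show ψ (φ (MvPowerSeries.X 1)) = MvPowerSeries.X 1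
        rw [← io_X1, h1, h3, D.symm_apply_apply]
      · rw [h2, h4]
  exact ⟨AlgEquiv.ofAlgHom φ ψ e1 e2, h1, h2⟩

/-- Change of the normal form. -/
private theorem ueqG_of_equiv {t : ℕ} {h : MvPowerSeries (Fin (t + 3)) ℂ} {k k' : P2}
    (hk : UEqG h k) {D : P2 ≃ₐ[ℂ] P2} (hD : k = D k') {v : P2} (hv : MvPowerSeries.constantCoeff v ≠ 0)
    (hD0 : D (MvPowerSeries.X 0) = MvPowerSeries.X 0 * v) : UEqG h k' := by
  obtain ⟨E, u, w, h1, h2⟩ := hk
  obtain ⟨D', h3, h4⟩ := exists_ext2 t D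
  have hu : IsUnit (E (io t v)) := by
    rw [MvPowerSeries.isUnit_iff_constantCoeff, constantCoeff_equiv, Spl.cc_hom,
      isUnit_iff_ne_zero]
    exact hv
  refine ⟨D'.trans E, u, w * hu.unit, ?_, ?_⟩
  · rw [AlgEquiv.trans_apply, kzG_eq, map_add D', h3, map_sum D', ← hD]
    simp only [map_pow D', h4]
    rw [← kzG_eq]
    exact h1
  · rw [AlgEquiv.trans_apply, ← io_X0, h3, hD0, map_mul, io_X0, map_mul, h2, Units.val_mul,
      IsUnit.unit_spec, mul_assoc]

section

variable {t : ℕ} {e : MvPowerSeries (Fin (t + 3)) ℂ ≃ₐ[ℂ] MvPowerSeries (Fin (t + 3)) ℂ}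
  {w : MvPowerSeries (Fin (t + 3)) ℂ} (he : e (MvPowerSeries.X 0) = MvPowerSeries.X 0 * w)

/-- The first derivatives. -/
private def Gs (g : MvPowerSeries (Fin (t + 3)) ℂ) (i : Fin (t + 2)) : ℂ :=
  MvPowerSeries.constantCoeff (MvPowerSeries.pderiv ℂ i.succ g)

/-- The second derivatives. -/
private def Hm (g : MvPowerSeries (Fin (t + 3)) ℂ) : Matrix (Fin (t + 2)) (Fin (t + 2)) ℂ :=
  Matrix.of fun i j => MvPowerSeries.constantCoeff
    (MvPowerSeries.pderiv ℂ i.succ (MvPowerSeries.pderiv ℂ j.succ g))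

private theorem pd_X0w (i : Fin (t + 2)) (w : MvPowerSeries (Fin (t + 3)) ℂ) :
    MvPowerSeries.pderiv ℂ i.succ (MvPowerSeries.X 0 * w) =
      MvPowerSeries.X 0 * MvPowerSeries.pderiv ℂ i.succ w := by
  rw [Derivation.leibniz, Spl.pderiv_X, if_neg (Fin.succ_ne_zero i), smul_zero, add_zero,
    smul_eq_mul]

include he

private theorem cc_pd (g : MvPowerSeries (Fin (t + 3)) ℂ) (i : Fin (t + 2)) :
    Gs (e g) i = ∑ m, Gs (e (MvPowerSeries.X m.succ)) i * Gs g m := by
  unfold Gs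
  rw [pderiv_equiv, map_sum, Fin.sum_univ_succ, he, pd_X0w, map_mul, map_mul,
    MvPowerSeries.constantCoeff_X, zero_mul, zero_mul, zero_add]
  refine Finset.sum_congr rfl fun m _ => ?_
  rw [map_mul, constantCoeff_equiv]

private theorem Hm_equiv {g : MvPowerSeries (Fin (t + 3)) ℂ} (hg : ∀ i, Gs g i = 0) :
    Hm (e g) = (Matrix.of fun l i => Gs (e (MvPowerSeries.X l.succ)) i).transpose * Hm g *
      (Matrix.of fun l i => Gs (e (MvPowerSeries.X l.succ)) i) := by
  ext i j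
  rw [Matrix.mul_apply]
  show MvPowerSeries.constantCoeff
    (MvPowerSeries.pderiv ℂ i.succ (MvPowerSeries.pderiv ℂ j.succ (e g))) = _
  rw [pderiv_equiv, map_sum, map_sum, Fin.sum_univ_succ, he, pd_X0w, Derivation.leibniz, pd_X0w,
    smul_eq_mul, smul_eq_mul, map_add, map_mul, map_mul, map_mul, map_mul,
    MvPowerSeries.constantCoeff_X, zero_mul, zero_mul, zero_mul, mul_zero, add_zero, zero_add]
  refine Finset.sum_congr rfl fun l _ => ?_
  rw [Derivation.leibniz, smul_eq_mul, smul_eq_mul, map_add, map_mul, map_mul,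
    constantCoeff_equiv]
  have h1 : MvPowerSeries.constantCoeff (MvPowerSeries.pderiv ℂ l.succ g) = 0 := hg l
  rw [h1, zero_mul, add_zero, Matrix.mul_apply, mul_comm]
  congr 1
  exact cc_pd he (MvPowerSeries.pderiv ℂ l.succ g) i

end

private theorem Gs_mul {t : ℕ} {u g : MvPowerSeries (Fin (t + 3)) ℂ}
    (h0 : MvPowerSeries.constantCoeff g = 0) (i : Fin (t + 2)) :
    Gs (u * g) i = MvPowerSeries.constantCoeff u * Gs g i := by
  unfold Gs
  rw [Derivation.leibniz, smul_eq_mul, smul_eq_mul, map_add, map_mul, map_mul, h0, zero_mul,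
    add_zero]

private theorem Hm_mul {t : ℕ} {u g : MvPowerSeries (Fin (t + 3)) ℂ}
    (h0 : MvPowerSeries.constantCoeff g = 0) (h1 : ∀ i, Gs g i = 0) :
    Hm (u * g) = MvPowerSeries.constantCoeff u • Hm g := by
  ext i j
  show MvPowerSeries.constantCoeff
    (MvPowerSeries.pderiv ℂ i.succ (MvPowerSeries.pderiv ℂ j.succ (u * g))) = _
  have e1 : MvPowerSeries.constantCoeff (MvPowerSeries.pderiv ℂ i.succ g) = 0 := h1 i
  have e2 : MvPowerSeries.constantCoeff (MvPowerSeries.pderiv ℂ j.succ g) = 0 := h1 j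
  simp only [Derivation.leibniz, smul_eq_mul, map_add, map_mul, h0, e1, e2, zero_mul, mul_zero,
    add_zero]
  rfl

private theorem rank_smul_ne {n : ℕ} {c : ℂ} (hc : c ≠ 0) (A : Matrix (Fin n) (Fin n) ℂ) :
    (c • A).rank = A.rank := by
  have key : ∀ (c : ℂ) (A : Matrix (Fin n) (Fin n) ℂ), (c • A).rank ≤ A.rank := by
    intro c A
    have h : c • A = (c • (1 : Matrix (Fin n) (Fin n) ℂ)) * A := by
      rw [Matrix.smul_mul, one_mul]
    rw [h]
    exact Matrix.rank_mul_le_right _ _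
  apply le_antisymm (key c A)
  have h := key c⁻¹ (c • A)
  rwa [smul_smul, inv_mul_cancel₀ hc, one_smul] at h

private theorem rank_zero_row {n : ℕ} {A : Matrix (Fin n) (Fin n) ℂ} {i : Fin n}
    (hA : ∀ j, A i j = 0) : A.rank ≠ n := by
  intro h
  have h1 : LinearMap.range A.mulVecLin = ⊤ := by
    apply Submodule.eq_top_of_finrank_eq
    rw [Module.finrank_fin_fun]
    exact h
  obtain ⟨v, hv⟩ := LinearMap.range_eq_top.1 h1 (Pi.single i 1)
  have h2 := congrFun hv i
  rw [Pi.single_eq_same, Matrix.mulVecLin_apply, Matrix.mulVec, dotProduct,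
    Finset.sum_eq_zero (fun j _ => by rw [hA j, zero_mul])] at h2
  exact zero_ne_one h2

/-- The case of rank `t + 2`: the normal form `X_0^κ + ∑ X_i²` or `∑ X_i²`. From `exists_ueqG` and
the same argument once more for `k` (`∂_1² k(0) ≠ 0`, as the rank is invariant): `k = c(u) + y²`,
then `YL.MorseAux.exists_pow_unit` for `c`. -/
theorem exists_ueqG_node {t : ℕ} {h : MvPowerSeries (Fin (t + 3)) ℂ}
    (h0 : MvPowerSeries.constantCoeff h = 0)
    (h1 : ∀ i : Fin (t + 2), MvPowerSeries.constantCoeff (MvPowerSeries.pderiv ℂ i.succ h) = 0)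
    (h2 : (Matrix.of fun i j : Fin (t + 2) => MvPowerSeries.constantCoeff
      (MvPowerSeries.pderiv ℂ i.succ (MvPowerSeries.pderiv ℂ j.succ h)) :
        Matrix (Fin (t + 2)) (Fin (t + 2)) ℂ).rank = t + 2) :
    UEqG h (MvPowerSeries.X 1 ^ 2) ∨
      ∃ κ, 0 < κ ∧ UEqG h (MvPowerSeries.X 1 ^ 2 + MvPowerSeries.X 0 ^ κ) := by
  obtain ⟨k, hk0, hk⟩ := exists_ueqG h0 h1 (h2.symm.le.trans' (by omega))
  have hk' := hk
  obtain ⟨E, u, w, hE, hw⟩ := hk
  set H := kzG t k with hH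
  have hu : (u⁻¹ : (MvPowerSeries (Fin (t + 3)) ℂ)ˣ) * h = E H := by
    rw [hE, Units.inv_mul_cancel_left]
  have hHs : H = E.symm ((u⁻¹ : (MvPowerSeries (Fin (t + 3)) ℂ)ˣ) * h) := by
    rw [hu, AlgEquiv.symm_apply_apply]
  set u' : MvPowerSeries (Fin (t + 3)) ℂ := ((u⁻¹ : (MvPowerSeries (Fin (t + 3)) ℂ)ˣ) :
    MvPowerSeries (Fin (t + 3)) ℂ) with hu'
  have hu0 : MvPowerSeries.constantCoeff u' ≠ 0 := by
    rw [← isUnit_iff_ne_zero, ← MvPowerSeries.isUnit_iff_constantCoeff]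
    exact Units.isUnit _
  have hEs : E.symm (MvPowerSeries.X 0) = MvPowerSeries.X 0 *
      E.symm ((w⁻¹ : (MvPowerSeries (Fin (t + 3)) ℂ)ˣ) : MvPowerSeries (Fin (t + 3)) ℂ) := by
    rw [AlgEquiv.symm_apply_eq, map_mul, AlgEquiv.apply_symm_apply, hw, mul_assoc,
      Units.mul_inv, mul_one]
  have hG1 : ∀ i, Gs (u' * h) i = 0 := fun i => by
    rw [Gs_mul h0]
    unfold Gs
    rw [h1 i, mul_zero]
  have hG2 : ∀ i, Gs H i = 0 := fun i => by
    rw [hHs, cc_pd hEs]
    exact Finset.sum_eq_zero fun m _ => by rw [hG1, mul_zero]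
  have hrank : (Hm H).rank = t + 2 := by
    apply le_antisymm
    · exact (Matrix.rank_le_card_width _).trans (by rw [Fintype.card_fin])
    · have e1 := Hm_equiv hw hG2
      rw [← hu, Hm_mul h0 h1] at e1
      have e2 : (MvPowerSeries.constantCoeff u' • Hm h).rank = t + 2 :=
        (rank_smul_ne hu0 _).trans h2
      have e3 : (MvPowerSeries.constantCoeff u' • Hm h).rank ≤ (Hm H).rank := by
        rw [e1]
        exact (Matrix.rank_mul_le_left _ _).trans (Matrix.rank_mul_le_right _ _)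
      exact e2.symm.le.trans e3
  have c1 : MvPowerSeries.constantCoeff (MvPowerSeries.pderiv ℂ (Fin.last 1) k) = 0 := by
    have e1 := hG2 0
    unfold Gs at e1
    have e2 : MvPowerSeries.pderiv ℂ (Fin.succ (0 : Fin (t + 2))) H =
        io t (MvPowerSeries.pderiv ℂ 1 k) := pderiv_kz1 t k
    rw [e2, Spl.cc_hom] at e1
    exact e1
  have c2 : MvPowerSeries.constantCoeff (MvPowerSeries.pderiv ℂ (Fin.last 1)
      (MvPowerSeries.pderiv ℂ (Fin.last 1) k)) ≠ 0 := by
    intro hz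
    refine rank_zero_row (A := Hm H) (i := 0) (fun j => ?_) hrank
    show MvPowerSeries.constantCoeff (MvPowerSeries.pderiv ℂ (Fin.succ 0)
      (MvPowerSeries.pderiv ℂ j.succ H)) = 0
    rw [MorseAux.cc_comm]
    have e2 : MvPowerSeries.pderiv ℂ (Fin.succ (0 : Fin (t + 2))) H =
        io t (MvPowerSeries.pderiv ℂ 1 k) := pderiv_kz1 t k
    rw [e2]
    refine Fin.cases ?_ (fun i => ?_) j
    · have e3 : MvPowerSeries.pderiv ℂ (Fin.succ (0 : Fin (t + 2)))
          (io t (MvPowerSeries.pderiv ℂ 1 k)) =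
          io t (MvPowerSeries.pderiv ℂ 1 (MvPowerSeries.pderiv ℂ 1 k)) := pderiv_io1 t _
      rw [e3, Spl.cc_hom]
      exact hz
    · rw [pderiv_io2, map_zero]
  obtain ⟨D, b, hD1, hD2⟩ := MorseAux.morse' (m := 1) (G := k) c1 c2
  have hD0 : D (MvPowerSeries.X 0) = MvPowerSeries.X 0 := hD2 0
  have hDs0 : D.symm (MvPowerSeries.X 0) = MvPowerSeries.X 0 := by
    rw [AlgEquiv.symm_apply_eq, hD0]
  have hD1' : D k = Spl.R 1 b + MvPowerSeries.X 1 ^ 2 := hD1
  have hb0 : MvPowerSeries.constantCoeff b = 0 := by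
    have e1 : MvPowerSeries.constantCoeff (D k) = 0 := by rw [constantCoeff_equiv, hk0]
    rw [hD1', map_add, Spl.cc_hom, map_pow, MvPowerSeries.constantCoeff_X] at e1
    simpa using e1
  by_cases hb : b = 0
  · left
    refine ueqG_of_equiv hk' (D := D.symm) (v := 1) ?_ (by simp) ?_
    · rw [eq_comm, AlgEquiv.symm_apply_eq, hD1', hb, map_zero, zero_add]
    · rw [hDs0, mul_one]
  right
  obtain ⟨κ, τ, hκ, hτ, hbτ⟩ := MorseAux.exists_pow_unit hb hb0
  refine ⟨κ, hκ, ?_⟩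
  have hτ' : MvPowerSeries.constantCoeff (Spl.R 1 τ) ≠ 0 := by
    rw [Spl.cc_hom]
    exact hτ
  obtain ⟨Q, hQ⟩ := Spl.exists_equiv' (n := 2) (a := ![MvPowerSeries.X 0 * Spl.R 1 τ,
    MvPowerSeries.X 1])
    (by
      intro i
      fin_cases i
      · simp
      · simp)
    (by
      intro v hv
      have a0 := hv 0
      have a1 := hv 1
      simp only [Fin.sum_univ_two, Matrix.cons_val_zero, Matrix.cons_val_one,
        Derivation.leibniz,
        Spl.pderiv_X, smul_eq_mul, map_add, map_mul, MvPowerSeries.constantCoeff_X, zero_mul,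
        zero_add] at a0 a1
      simp at a0 a1
      funext i
      fin_cases i
      · exact a0.resolve_left hτ'
      · exact a1)
  have hQ0 : Q (MvPowerSeries.X 0) = MvPowerSeries.X 0 * Spl.R 1 τ := hQ 0
  have hQ1 : Q (MvPowerSeries.X 1) = MvPowerSeries.X 1 := hQ 1
  refine ueqG_of_equiv hk' (D := Q.trans D.symm) (v := D.symm (Spl.R 1 τ)) ?_ ?_ ?_
  · rw [eq_comm, AlgEquiv.trans_apply, AlgEquiv.symm_apply_eq, hD1', map_add, map_pow, map_pow,
      hQ0, hQ1, hbτ, map_pow, map_mul, Spl.R_X, add_comm]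
    rfl
  · rw [constantCoeff_equiv]
    exact hτ'
  · rw [AlgEquiv.trans_apply, hQ0, map_mul, hDs0]

end YG

end MPb07157
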